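import Pool.Agent.Helper925_SC.Star

/-! Tiles, patches, surrounding, and tilings of the plane, with the plane represented by `ℂ`. -/

open Set Metric Topology

namespace Pool.Agent.Helper925_SC

/-- `T` is a tile from the set of prototiles `S`: the image of a member of `S` under an isometry
of the plane (reflections allowed). -/
def IsTile (S : Set (Set ℂ)) (T : Set ℂ) : Prop := ∃ K ∈ S, ∃ g : ℂ ≃ᵢ ℂ, T = g '' K

/-- `A` is a patch of tiles from `S`: a finite collection of tiles with pairwise disjoint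
interiors whose union is a closed topological disk. -/
def IsPatch (S : Set (Set ℂ)) (A : Set (Set ℂ)) : Prop :=
  A.Finite ∧ (∀ T ∈ A, IsTile S T) ∧
    (∀ T ∈ A, ∀ T' ∈ A, T ≠ T' → Disjoint (interior T) (interior T')) ∧ IsDisk (⋃₀ A)

/-- The patch `B` surrounds the patch `A`. -/
def Surrounds (B A : Set (Set ℂ)) : Prop := A ⊆ B ∧ ⋃₀ A ⊆ interior (⋃₀ B)

/-- The patch `A` of tiles from `S` can be surrounded `r` times. -/
def CanSurround (S : Set (Set ℂ)) (r : ℕ) (A : Set (Set ℂ)) : Prop :=
  ∃ P : ℕ → Set (Set ℂ), P 0 = A ∧ (∀ i, i ≤ r → IsPatch S (P i)) ∧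
    ∀ i, i < r → Surrounds (P (i + 1)) (P i)

/-- `S` admits a tiling of the plane: some countable family of tiles from `S` with pairwise
disjoint interiors covers the plane. -/
def AdmitsTiling (S : Set (Set ℂ)) : Prop :=
  ∃ A : Set (Set ℂ), A.Countable ∧ (∀ T ∈ A, IsTile S T) ∧
    (∀ T ∈ A, ∀ T' ∈ A, T ≠ T' → Disjoint (interior T) (interior T')) ∧ ⋃₀ A = univ

end Pool.Agent.Helper925_SC
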