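import Pool.Agent.Helper925_SC.Patches

/-! The nested patches. -/

open Set Metric Topology

namespace Pool.Agent.Helper925_SC

/-- The patch with parameters `Q`, `J`: the rows `n` with `|n - 1| ≤ J`. -/
def PT (M : ℕ) (ε : ℝ) (Q J : ℤ) : Set (Set ℂ) :=
  {T | ∃ n j : ℤ, |n - 1| ≤ J ∧ |j| ≤ kap M n (Q - |n - 1|) ∧ T = TL M ε n j}

/-- half-width of row `n` when `kap M n q` is the range of the indices -/
noncomputable def HW (M : ℕ) (n q : ℤ) : ℝ := ((kap M n q : ℝ) + 1/2) * wd M n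

variable {M : ℕ} {ε : ℝ} {Q J : ℤ}

theorem HW_eq (n q : ℤ) : HW M n q = if n % 3 = 2 then ((q:ℝ) + 1/2) * (2 * M + 1)
    else ((q:ℝ) + 1/2) * (2 * M + 3) := by
  unfold HW kap wd
  rcases mod_cases n with hn | hn | hn
  · rw [if_neg (by omega), if_pos hn, if_neg (by omega)]; push_cast; ring
  · rw [if_pos hn, if_neg (by omega), if_pos hn, if_neg (by omega)]; push_cast; ring
  · rw [if_neg (by omega), if_neg (by omega), if_neg (by omega), if_pos hn]; push_cast; ring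

theorem HW_ge {n q : ℤ} (hq : 0 ≤ q) : ((q:ℝ) + 1/2) * (2 * M + 1) ≤ HW M n q := by
  have hq' : (0:ℝ) ≤ q := by exact_mod_cast hq
  rw [HW_eq]; split_ifs
  · exact le_rfl
  · gcongr; norm_num

theorem HW_le {n q : ℤ} (hq : 0 ≤ q) : HW M n q ≤ ((q:ℝ) + 1/2) * (2 * M + 3) := by
  have hq' : (0:ℝ) ≤ q := by exact_mod_cast hq
  rw [HW_eq]; split_ifs
  · gcongr; norm_num
  · exact le_rfl

theorem HW_pos {n q : ℤ} (hq : 0 ≤ q) : 0 < HW M n q := by
  have hq' : (0:ℝ) ≤ q := by exact_mod_cast hq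
  have hM : (0:ℝ) ≤ M := Nat.cast_nonneg M
  exact lt_of_lt_of_le (by positivity) (HW_ge hq)

theorem HW_lt {n n' q q' : ℤ} (hq : 0 ≤ q) (hqM : q < M) (h : q + 1 ≤ q') :
    HW M n q < HW M n' q' := by
  have hq' : (0:ℝ) ≤ q := by exact_mod_cast hq
  have hM : (0:ℝ) ≤ M := Nat.cast_nonneg M
  have hqM' : (q:ℝ) + 1 ≤ M := by exact_mod_cast hqM
  have h' : (q:ℝ) + 1 ≤ q' := by exact_mod_cast h
  calc HW M n q ≤ ((q:ℝ) + 1/2) * (2 * M + 3) := HW_le hq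
    _ < ((q:ℝ) + 1 + 1/2) * (2 * M + 1) := by nlinarith
    _ ≤ ((q':ℝ) + 1/2) * (2 * M + 1) := by gcongr
    _ ≤ HW M n' q' := HW_ge (by omega)

theorem kap_nonneg {n q : ℤ} (hq : 0 ≤ q) : 0 ≤ kap M n q := by
  unfold kap; split_ifs
  · positivity
  · exact hq

theorem kap_mono {n q q' : ℤ} (h : q ≤ q') : kap M n q ≤ kap M n q' := by
  unfold kap; split_ifs
  · have : q * (2 * (M:ℤ) + 3) ≤ q' * (2 * M + 3) := by gcongr
    omega
  · exact h

/-- A segment of odd length is covered by translates of a shorter one. -/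
theorem cover_seg {w : ℝ} (k : ℕ) : ∀ x : ℝ, |x| ≤ (k + 1/2) * w →
    ∃ j : ℤ, |j| ≤ k ∧ |x - j * w| ≤ w / 2 := by
  induction k with
  | zero =>
    intro x hx
    refine ⟨0, by simp, ?_⟩
    simp only [Nat.cast_zero, zero_add] at hx
    simp only [Int.cast_zero, zero_mul, sub_zero]
    linarith
  | succ k ih =>
    intro x hx
    by_cases h : |x| ≤ (k + 1/2) * w
    · obtain ⟨j, h1, h2⟩ := ih x h
      exact ⟨j, by push_cast; omega, h2⟩
    · push Not at h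
      push_cast at hx
      rcases abs_cases x with ⟨h1, _⟩ | ⟨h1, _⟩
      · refine ⟨k + 1, by rw [abs_of_nonneg (by positivity)]; push_cast; exact le_rfl, ?_⟩
        push_cast
        rw [abs_le]
        rw [h1] at h hx
        constructor <;> nlinarith
      · refine ⟨-(k + 1), ?_, ?_⟩
        · rw [abs_neg, abs_of_nonneg (by positivity)]; push_cast; exact le_rfl
        · push_cast
          rw [abs_le]
          rw [h1] at h hx
          constructor <;> nlinarith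

/-- The rows between two interfaces. -/
theorem exists_row {x y : ℝ} (d : ℕ) : ∀ a : ℤ, IF M ε a x ≤ y → y ≤ IF M ε (a + d + 1) x →
    ∃ m : ℤ, a ≤ m ∧ m ≤ a + d ∧ IF M ε m x ≤ y ∧ y ≤ IF M ε (m + 1) x := by
  induction d with
  | zero =>
    intro a h1 h2
    simp only [Nat.cast_zero, add_zero] at h2
    exact ⟨a, le_rfl, by simp, h1, h2⟩
  | succ d ih =>
    intro a h1 h2
    by_cases h : y ≤ IF M ε (a + d + 1) x
    · obtain ⟨m, m1, m2, m3, m4⟩ := ih a h1 h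
      exact ⟨m, m1, by push_cast; omega, m3, m4⟩
    · push Not at h
      push_cast at h2
      refine ⟨a + d + 1, by omega, by push_cast; omega, h.le, ?_⟩
      convert h2 using 2
      ring

/-- A point in the range of a row is covered by that row. -/
theorem mem_PT_of_row {n : ℤ} (hn : |n - 1| ≤ J) (hJ : J ≤ Q) {z : ℂ}
    (h1 : |z.re| ≤ HW M n (Q - |n - 1|)) (h2 : IF M ε n z.re ≤ z.im)
    (h3 : z.im ≤ IF M ε (n + 1) z.re) : z ∈ ⋃₀ PT M ε Q J := by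
  have hq : 0 ≤ Q - |n - 1| := by omega
  have hk := kap_nonneg (M := M) (n := n) hq
  obtain ⟨k, hk'⟩ := Int.eq_ofNat_of_zero_le hk
  obtain ⟨j, j1, j2⟩ := cover_seg k z.re (by
    have : HW M n (Q - |n - 1|) = (k + 1/2) * wd M n := by
      unfold HW; rw [hk']; simp
    rw [← this]; exact h1)
  refine ⟨TL M ε n j, ⟨n, j, hn, by rw [hk']; exact j1, rfl⟩, ?_, h2, h3⟩
  push_cast
  exact j2

/-- the closed region between two interfaces -/
def CR (M : ℕ) (ε : ℝ) (a b : ℤ) (ρ : ℝ) : Set ℂ :=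
  {z | |z.re| ≤ ρ ∧ IF M ε a z.re ≤ z.im ∧ z.im ≤ IF M ε b z.re}

/-- the open region between two interfaces -/
def OR (M : ℕ) (ε : ℝ) (a b : ℤ) (ρ : ℝ) : Set ℂ :=
  {z | |z.re| < ρ ∧ IF M ε a z.re < z.im ∧ z.im < IF M ε b z.re}

theorem isOpen_OR (hε : 0 < ε) (a b : ℤ) (ρ : ℝ) : IsOpen (OR M ε a b ρ) := by
  refine IsOpen.inter ?_ (IsOpen.inter ?_ ?_)
  · exact isOpen_lt (Complex.continuous_re.abs) continuous_const
  · exact isOpen_lt ((IF_continuous hε a).comp Complex.continuous_re) Complex.continuous_im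
  · exact isOpen_lt Complex.continuous_im ((IF_continuous hε b).comp Complex.continuous_re)

theorem OR_subset (a b : ℤ) (ρ : ℝ) : OR M ε a b ρ ⊆ CR M ε a b ρ :=
  fun _ h => ⟨h.1.le, h.2.1.le, h.2.2.le⟩

theorem CR_subset {a b : ℤ} {ρ : ℝ} (hab : a < b) (hJ : J ≤ Q)
    (h : ∀ m : ℤ, a ≤ m → m < b → |m - 1| ≤ J ∧ ρ ≤ HW M m (Q - |m - 1|)) :
    CR M ε a b ρ ⊆ ⋃₀ PT M ε Q J := by
  rintro z ⟨h1, h2, h3⟩
  obtain ⟨d, hd⟩ := Int.eq_ofNat_of_zero_le (show 0 ≤ b - a - 1 by omega)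
  have hb : b = a + d + 1 := by
    have : (Int.ofNat d) = (d:ℤ) := rfl
    omega
  rw [hb] at h3
  obtain ⟨m, m1, m2, m3, m4⟩ := exists_row d a h2 h3
  obtain ⟨h4, h5⟩ := h m m1 (by omega)
  exact mem_PT_of_row h4 hJ (h1.trans h5) m3 m4

theorem OR_subset_interior {a b : ℤ} {ρ : ℝ} (hε : 0 < ε) (hab : a < b) (hJ : J ≤ Q)
    (h : ∀ m : ℤ, a ≤ m → m < b → |m - 1| ≤ J ∧ ρ ≤ HW M m (Q - |m - 1|)) :
    OR M ε a b ρ ⊆ interior (⋃₀ PT M ε Q J) :=
  interior_maximal ((OR_subset a b ρ).trans (CR_subset hab hJ h)) (isOpen_OR hε a b ρ)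

/-- The points of a tile of row `n` lie in the range of row `n`. -/
theorem row_of_mem {n j q : ℤ} (hj : |j| ≤ kap M n q) {z : ℂ} (hz : z ∈ TL M ε n j) :
    |z.re| ≤ HW M n q := by
  obtain ⟨h1, -, -⟩ := hz
  push_cast at h1
  have hw : (0:ℝ) < wd M n := by
    have := wd_pos (M := M) n
    exact_mod_cast this
  have h2 : |(j:ℝ)| ≤ kap M n q := by exact_mod_cast hj
  have h3 : |z.re| ≤ |z.re - j * wd M n| + |(j:ℝ) * wd M n| := by
    have := abs_add_le (z.re - j * wd M n) ((j:ℝ) * wd M n)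
    rwa [sub_add_cancel] at this
  rw [abs_mul, abs_of_pos hw] at h3
  unfold HW
  nlinarith

/-- Points of the patch. -/
theorem exists_row_of_mem {z : ℂ} (hz : z ∈ ⋃₀ PT M ε Q J) : ∃ n : ℤ, |n - 1| ≤ J ∧
    |z.re| ≤ HW M n (Q - |n - 1|) ∧ IF M ε n z.re ≤ z.im ∧ z.im ≤ IF M ε (n + 1) z.re := by
  obtain ⟨T, ⟨n, j, h1, h2, rfl⟩, h3⟩ := hz
  exact ⟨n, h1, row_of_mem h2 h3, h3.2.1, h3.2.2⟩

/-- Contracting towards the centre moves the closed region into the open one. -/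
theorem star_CR (hε : 0 < ε) {a b : ℤ} {ρ : ℝ} (ha : a ≤ 1) (hb : 2 ≤ b) (hρ : 0 < ρ)
    (hερ : 3/2 * ε * (ρ + 1/4) < 1/2) {z : ℂ} (hz : z ∈ CR M ε a b ρ) {s : ℝ} (hs0 : 0 ≤ s)
    (hs1 : s < 1) : (⟨0, 3/2⟩ : ℂ) + s • (z - ⟨0, 3/2⟩) ∈ OR M ε a b ρ := by
  obtain ⟨h1, h2, h3⟩ := hz
  have hre : ((⟨0, 3/2⟩ : ℂ) + s • (z - ⟨0, 3/2⟩)).re = s * z.re := by simp
  have him : ((⟨0, 3/2⟩ : ℂ) + s • (z - ⟨0, 3/2⟩)).im = 3/2 + s * (z.im - 3/2) := by simp
  have hm0 : 0 < 3/2 * ε := by linarith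
  have hd : |z.re - s * z.re| ≤ (1 - s) * ρ := by
    have : z.re - s * z.re = (1 - s) * z.re := by ring
    rw [this, abs_mul, abs_of_pos (by linarith : 0 < 1 - s)]
    exact mul_le_mul_of_nonneg_left h1 (by linarith)
  have e1 := V_lip (Bd_mu (M := M) hε a) z.re (s * z.re)
  have e2 := V_lip (Bd_mu (M := M) hε b) z.re (s * z.re)
  have e3 : 3/2 * ε * |z.re - s * z.re| ≤ 3/2 * ε * ((1 - s) * ρ) :=
    mul_le_mul_of_nonneg_left hd hm0.le
  have e1' := abs_le.1 (e1.trans e3)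
  have e2' := abs_le.1 (e2.trans e3)
  have f1 := V_le (Bd_mu (M := M) hε a) z.re
  have f2 := V_le (Bd_mu (M := M) hε b) z.re
  have f3 := V_nonneg (Bd_mu (M := M) hε a) z.re
  have f4 := V_nonneg (Bd_mu (M := M) hε b) z.re
  have ha' : (a:ℝ) ≤ 1 := by exact_mod_cast ha
  have hb' : (2:ℝ) ≤ b := by exact_mod_cast hb
  unfold IF at h2 h3
  have hs : 0 < 1 - s := by linarith
  refine ⟨?_, ?_, ?_⟩
  · rw [hre, abs_mul, abs_of_nonneg hs0]
    nlinarith [abs_nonneg z.re]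
  · rw [hre, him]
    unfold IF
    -- `a - V_a(s x) < 3/2 + s (y - 3/2)`
    have g1 : s * (a - V (mu M ε a) z.re) ≤ s * z.im := mul_le_mul_of_nonneg_left h2 hs0
    have g2 : (1 - s) * (3/2 * ε * (ρ + 1/4)) < (1 - s) * (1/2) := mul_lt_mul_of_pos_left hερ hs
    have g3 : (1 - s) * V (mu M ε a) z.re ≤ (1 - s) * (3/2 * ε / 4) :=
      mul_le_mul_of_nonneg_left f1 hs.le
    have g4 : 0 ≤ (1 - s) * V (mu M ε a) z.re := mul_nonneg hs.le f3
    have g5 : (1 - s) * a ≤ (1 - s) * 1 := mul_le_mul_of_nonneg_left ha' hs.le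
    have g6 : 0 ≤ (1 - s) * (3/2 * ε * (1/4)) := by positivity
    nlinarith [e1'.1, e1'.2]
  · rw [hre, him]
    unfold IF
    have g1 : s * z.im ≤ s * (b - V (mu M ε b) z.re) := mul_le_mul_of_nonneg_left h3 hs0
    have g2 : (1 - s) * (3/2 * ε * (ρ + 1/4)) < (1 - s) * (1/2) := mul_lt_mul_of_pos_left hερ hs
    have g3 : (1 - s) * V (mu M ε b) z.re ≤ (1 - s) * (3/2 * ε / 4) :=
      mul_le_mul_of_nonneg_left f2 hs.le
    have g4 : 0 ≤ (1 - s) * V (mu M ε b) z.re := mul_nonneg hs.le f4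
    have g5 : (1 - s) * 2 ≤ (1 - s) * b := mul_le_mul_of_nonneg_left hb' hs.le
    nlinarith [e2'.1, e2'.2]

theorem PT_finite : (PT M ε Q J).Finite := by
  have : PT M ε Q J ⊆ ⋃ n ∈ Icc (1 - J) (1 + J),
      (TL M ε n) '' Icc (-kap M n (Q - |n - 1|)) (kap M n (Q - |n - 1|)) := by
    rintro T ⟨n, j, h1, h2, rfl⟩
    simp only [mem_iUnion]
    have h3 := abs_le.1 h1
    exact ⟨n, ⟨by omega, by omega⟩, j, abs_le.1 h2, rfl⟩
  exact ((finite_Icc _ _).biUnion fun n _ => (finite_Icc _ _).image _).subset this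

theorem PT_tiles (hQ : 2 * Q < M) {T : Set ℂ} (hT : T ∈ PT M ε Q J) :
    IsTile (Protos M ε) T := by
  obtain ⟨n, j, h1, h2, rfl⟩ := hT
  exact TL_isTile (q := Q - |n - 1|) (by have := abs_nonneg (n - 1); omega) h2

theorem isCompact_tile (hε : 0 < ε) (hε1 : ε ≤ 1/12) {T : Set ℂ}
    (hT : IsTile (Protos M ε) T) : IsCompact T := by
  obtain ⟨K, hK, g, rfl⟩ := hT
  obtain ⟨w, b, t, rfl, -, -, hb, ht⟩ := Protos_slab hε hK
  exact (isCompact_Slab (Bd_of_sl hε hb) (Bd_of_sl hε ht) (by linarith)).image g.continuous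

/-- the range of a row near the central row is larger -/
theorem rows_ok (hJ : J ≤ Q) (hQ : Q ≤ M) {n m : ℤ} (hn : |n - 1| ≤ J) (hm : |m - 1| < |n - 1|) :
    |m - 1| ≤ J ∧ HW M n (Q - |n - 1|) ≤ HW M m (Q - |m - 1|) := by
  refine ⟨by omega, (HW_lt (by omega) ?_ (by omega)).le⟩
  have := abs_nonneg (m - 1)
  omega

theorem isDisk_PT (hε : 0 < ε) (hε1 : ε ≤ 1/12) (hJ0 : 0 ≤ J) (hJ : J ≤ Q) (hQ : 2 * Q < M)
    (hεQ : 3/2 * ε * ((Q + 1/2) * (2 * M + 3) + 1/4) < 1/2) : IsDisk (⋃₀ PT M ε Q J) := by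
  have hQ0 : 0 ≤ Q := by omega
  have hcomp : IsCompact (⋃₀ PT M ε Q J) :=
    PT_finite.isCompact_sUnion fun T hT => isCompact_tile hε hε1 (PT_tiles hQ hT)
  have hc : (⟨0, 3/2⟩ : ℂ) ∈ ⋃₀ PT M ε Q J := by
    have h1 := IF_le (M := M) hε 1 (⟨0, 3/2⟩ : ℂ).re
    have h2 := IF_ge (M := M) hε (1 + 1) (⟨0, 3/2⟩ : ℂ).re
    refine mem_PT_of_row (n := 1) (by simpa using hJ0) hJ ?_ ?_ ?_
    · simp only [sub_self, abs_zero, sub_zero]
      exact (HW_pos hQ0).le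
    · refine h1.trans ?_
      norm_num
    · refine le_trans ?_ h2
      push_cast
      linarith
  refine isDisk_of_star ⟨0, 3/2⟩ hcomp ⟨_, hc⟩ ?_
  intro z hz s hs0 hs1
  obtain ⟨n, n1, n2, n3, n4⟩ := exists_row_of_mem hz
  have hq : 0 ≤ Q - |n - 1| := by omega
  have hρ := HW_pos (M := M) (n := n) hq
  have hρ' : HW M n (Q - |n - 1|) ≤ (Q + 1/2) * (2 * M + 3) := by
    refine (HW_le hq).trans ?_
    have h3 : (0:ℝ) ≤ |(n:ℝ) - 1| := abs_nonneg _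
    push_cast
    have hM : (0:ℝ) ≤ M := Nat.cast_nonneg M
    have : (Q:ℝ) - |(n:ℝ) - 1| + 1/2 ≤ Q + 1/2 := by linarith
    gcongr
  have hερ : 3/2 * ε * (HW M n (Q - |n - 1|) + 1/4) < 1/2 := by
    refine lt_of_le_of_lt ?_ hεQ
    gcongr
  rcases le_or_gt n 1 with hn | hn
  · refine OR_subset_interior (a := n) (b := 2) hε (by omega) hJ ?_
      (star_CR hε hn le_rfl hρ hερ ⟨n2, n3, n4.trans (IF_mono hε hε1 (by omega) _)⟩ hs0 hs1)
    intro m hm1 hm2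
    rcases hm1.lt_or_eq with h | h
    · refine rows_ok hJ (by omega) n1 ?_
      rw [abs_of_nonpos (by omega), abs_of_nonpos (by omega)]
      omega
    · rw [← h]; exact ⟨n1, le_rfl⟩
  · refine OR_subset_interior (a := 1) (b := n + 1) hε (by omega) hJ ?_
      (star_CR hε le_rfl (by omega) hρ hερ ⟨n2, (IF_mono hε hε1 (by omega) _).trans n3, n4⟩ hs0 hs1)
    intro m hm1 hm2
    by_cases h : m = n
    · rw [h]; exact ⟨n1, le_rfl⟩
    · refine rows_ok hJ (by omega) n1 ?_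
      rw [abs_of_nonneg (by omega), abs_of_nonneg (by omega)]
      omega

theorem isPatch_PT (hε : 0 < ε) (hε1 : ε ≤ 1/12) (hJ0 : 0 ≤ J) (hJ : J ≤ Q) (hQ : 2 * Q < M)
    (hεQ : 3/2 * ε * ((Q + 1/2) * (2 * M + 3) + 1/4) < 1/2) :
    IsPatch (Protos M ε) (PT M ε Q J) := by
  refine ⟨PT_finite, fun T hT => PT_tiles hQ hT, ?_, isDisk_PT hε hε1 hJ0 hJ hQ hεQ⟩
  rintro _ ⟨n, j, -, -, rfl⟩ _ ⟨n', j', -, -, rfl⟩ hne
  exact TL_disjoint hε hε1 hne

theorem surrounds_PT (hε : 0 < ε) (hε1 : ε ≤ 1/12) (hJ : J ≤ Q) (hQ : Q < M) :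
    Surrounds (PT M ε (Q + 2) (J + 1)) (PT M ε Q J) := by
  constructor
  · rintro T ⟨n, j, h1, h2, h3⟩
    exact ⟨n, j, by omega, h2.trans (kap_mono (by omega)), h3⟩
  · intro z hz
    obtain ⟨n, n1, n2, n3, n4⟩ := exists_row_of_mem hz
    have hq : 0 ≤ Q - |n - 1| := by omega
    set ρ : ℝ := (((Q - |n - 1| + 1 : ℤ) : ℝ) + 1/2) * (2 * M + 1) with hρ
    have hρ1 : HW M n (Q - |n - 1|) < ρ := by
      have hq' : (0:ℝ) ≤ ((Q - |n - 1| : ℤ) : ℝ) := by exact_mod_cast hq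
      have hM : (0:ℝ) ≤ M := Nat.cast_nonneg M
      have h5 : Q - |n - 1| + 1 ≤ M := by have := abs_nonneg (n - 1); omega
      have hqM' : ((Q - |n - 1| : ℤ) : ℝ) + 1 ≤ M := by exact_mod_cast h5
      have h6 := HW_le (M := M) (n := n) hq
      have h7 : ρ = (((Q - |n - 1| : ℤ) : ℝ) + 1 + 1/2) * (2 * M + 1) := by
        rw [hρ]; push_cast; ring
      rw [h7]
      nlinarith
    refine OR_subset_interior (a := n - 1) (b := n + 2) (ρ := ρ) hε (by omega) (by omega) ?_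
      ⟨n2.trans_lt hρ1, lt_of_lt_of_le (IF_lt hε hε1 (by omega) _) n3,
        lt_of_le_of_lt n4 (IF_lt hε hε1 (by omega) _)⟩
    intro m hm1 hm2
    have h8 : |m - 1| ≤ |n - 1| + 1 := by
      have h9 : |m - 1| ≤ |n - 1| + |m - n| := by
        have := abs_add_le (n - 1) (m - n)
        have e : n - 1 + (m - n) = m - 1 := by ring
        rwa [e] at this
      have h10 : |m - n| ≤ 1 := abs_le.2 ⟨by omega, by omega⟩
      omega
    refine ⟨by omega, ?_⟩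
    have h11 : Q - |n - 1| + 1 ≤ Q + 2 - |m - 1| := by omega
    have h12 : ((Q - |n - 1| + 1 : ℤ) : ℝ) ≤ ((Q + 2 - |m - 1| : ℤ) : ℝ) := by exact_mod_cast h11
    refine le_trans ?_ (HW_ge (by omega))
    rw [hρ]
    have hM : (0:ℝ) ≤ M := Nat.cast_nonneg M
    gcongr

end Pool.Agent.Helper925_SC
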