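import Pool.Agent.Helper925_SC.Protos

/-! Counting tiles: the five prototiles do not tile the plane. -/

open Set Metric Topology MeasureTheory
open scoped ENNReal Real

namespace Pool.Agent.Helper925_SC

/-- a chosen isometry carrying `K` to `T` -/
noncomputable def rep (K T : Set ℂ) : ℂ ≃ᵢ ℂ :=
  open Classical in if h : ∃ g : ℂ ≃ᵢ ℂ, T = g '' K then h.choose else IsometryEquiv.refl ℂ

theorem rep_spec {K T : Set ℂ} (h : ∃ g : ℂ ≃ᵢ ℂ, T = g '' K) : T = rep K T '' K := by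
  unfold rep
  rw [dif_pos h]
  exact h.choose_spec

section

variable {M : ℕ} {ε : ℝ} (hε : 0 < ε) (hε1 : ε ≤ 1/12) {A : Set (Set ℂ)}
  (hT : Tiling (2 * M + 7) A) (hA : ∀ T ∈ A, ∃ K ∈ Protos M ε, ∃ g : ℂ ≃ᵢ ℂ, T = g '' K)

include hε hε1 hT hA

omit hT in
theorem hq_all : ∀ T ∈ A, ∀ p ∈ T, ∃ d, HasDens T p d ∧ 1/4 ≤ d ∧ (d = 1/4 ∨ 7/16 ≤ d) := by
  intro T hTA p hp
  obtain ⟨K, hK, g, rfl⟩ := hA T hTA
  exact dens_proto hε hε1 hK g hp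

theorem next_up {T : Set ℂ} (hTA : T ∈ A) {p : ℂ} (hp : p ∈ T) {a : ℝ} (ha : ε ≤ a)
    (ha' : a ≤ 3/2 * ε) (hd : HasDens T p (2 * q a)) :
    ∃ T' ∈ A, T' ≠ T ∧ p ∈ T' ∧ HasDens T' p (2 * q (-a)) ∧
      ∀ T'' ∈ A, p ∈ T'' → T'' = T ∨ T'' = T' := by
  have h1 := q_bound hε hε1 (x := a) (Or.inr ⟨ha, ha'⟩)
  have h2 : 1/4 < q a := by rw [← q_zero]; exact q_strictMono (by linarith)
  have := hT.pair (hq_all hε hε1 hA) hTA hp hd (by linarith) (by linarith)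
    (by intro h; linarith)
  have e : 1 - 2 * q a = 2 * q (-a) := by rw [q_neg]; ring
  rwa [e] at this

theorem next_down {T : Set ℂ} (hTA : T ∈ A) {p : ℂ} (hp : p ∈ T) {a : ℝ} (ha : ε ≤ a)
    (ha' : a ≤ 3/2 * ε) (hd : HasDens T p (2 * q (-a))) :
    ∃ T' ∈ A, T' ≠ T ∧ p ∈ T' ∧ HasDens T' p (2 * q a) ∧
      ∀ T'' ∈ A, p ∈ T'' → T'' = T ∨ T'' = T' := by
  have h1 := q_bound hε hε1 (x := a) (Or.inr ⟨ha, ha'⟩)
  have h2 : 1/4 < q a := by rw [← q_zero]; exact q_strictMono (by linarith)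
  have h3 := q_neg a
  have := hT.pair (hq_all hε hε1 hA) hTA hp hd (by linarith) (by linarith)
    (by intro h; linarith)
  have e : 1 - 2 * q (-a) = 2 * q a := by rw [q_neg]; ring
  rwa [e] at this

theorem uniq_notch {T' T₁ T₂ : Set ℂ} (hT' : T' ∈ A) (h₁ : T₁ ∈ A) (h₂ : T₂ ∈ A) {p : ℂ}
    (hp' : p ∈ T') (hp₁ : p ∈ T₁) (hp₂ : p ∈ T₂) {a a₁ a₂ : ℝ} (ha : ε ≤ a) (ha' : a ≤ 3/2 * ε)
    (ha₁ : ε ≤ a₁) (ha₂ : ε ≤ a₂)
    (hd : HasDens T' p (2 * q (-a))) (hd₁ : HasDens T₁ p (2 * q a₁))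
    (hd₂ : HasDens T₂ p (2 * q a₂)) : T₁ = T₂ := by
  obtain ⟨T'', _, _, _, _, hall⟩ := next_down hε hε1 hT hA hT' hp' ha ha' hd
  have hne : ∀ {T : Set ℂ} {x : ℝ}, ε ≤ x → HasDens T p (2 * q x) → T ≠ T' := by
    intro T x hx hdx heq
    rw [heq] at hdx
    have h3 := hd.unique hdx (by have := q_nonneg (-a); linarith) (by have := q_nonneg x; linarith)
    have h4 : q (-a) < q x := q_strictMono (by linarith)
    linarith
  rcases hall T₁ h₁ hp₁ with h | h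
  · exact absurd h (hne ha₁ hd₁)
  · rcases hall T₂ h₂ hp₂ with h' | h'
    · exact absurd h' (hne ha₂ hd₂)
    · rw [h, h']

omit hT in
theorem apex_low {T : Set ℂ} (hTA : T ∈ A) {p : ℂ} (hp : p ∈ T) {a : ℝ} (ha : ε ≤ a)
    (ha' : a ≤ 9/8 * ε) (hd : HasDens T p (2 * q (-a))) :
    ∃ (g : ℂ ≃ᵢ ℂ) (b : ℝ), T = g '' PF a b ∧ p = g ⟨0, -(a/4)⟩ ∧ (a = ε ∨ a = 9/8 * ε) ∧
      (b = 5/4 * ε ∨ b = 11/8 * ε) := by
  have ha3 : a ≤ 3/2 * ε := by linarith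
  obtain ⟨K, hK, g, rfl⟩ := hA T hTA
  have hF : ∀ a' b' : ℝ, ε ≤ a' → a' ≤ 3/2 * ε → ε ≤ b' → b' ≤ 3/2 * ε → K = PF a' b' →
      a' = a ∧ p = g ⟨0, -(a/4)⟩ := by
    intro a' b' h1 h2 h3 h4 h5
    rw [h5] at hp hd
    obtain ⟨c, c1, c2, c3⟩ := apex_of_dens hε hε1 ⟨0, by norm_num⟩ (fun _ => Or.inr ⟨h1, h2⟩)
      (fun _ => Or.inr ⟨h3, h4⟩) g hp ha ha3 hd
    have := int_lt_half c1
    subst this
    refine ⟨c3, ?_⟩
    rw [c2, c3]; simp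
  rcases hK with h | h | h | h | h
  · rw [h] at hp hd
    obtain ⟨c, c1, c2, c3⟩ := apex_of_dens hε hε1 ⟨M + 1, by push_cast; ring⟩ (fun _ => zero_sl)
      (tA_sl hε) g hp ha ha3 hd
    linarith
  · rw [h] at hp hd
    obtain ⟨c, c1, c2, c3⟩ := apex_of_dens hε hε1 ⟨M, rfl⟩ (bB_sl hε)
      (fun _ => zero_sl) g hp ha ha3 hd
    unfold bB at c3
    split_ifs at c3 <;> linarith
  · obtain ⟨h1, h2⟩ := hF _ _ le_rfl (by linarith) (by linarith) (by linarith) h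
    exact ⟨g, 11/8 * ε, by rw [← h1, h], h2, Or.inl h1.symm, Or.inr rfl⟩
  · obtain ⟨h1, h2⟩ := hF _ _ le_rfl (by linarith) (by linarith) (by linarith) h
    exact ⟨g, 5/4 * ε, by rw [← h1, h], h2, Or.inl h1.symm, Or.inl rfl⟩
  · obtain ⟨h1, h2⟩ := hF _ _ (by linarith) (by linarith) (by linarith) (by linarith) h
    exact ⟨g, 11/8 * ε, by rw [← h1, h], h2, Or.inr h1.symm, Or.inr rfl⟩

omit hT in
theorem apex_high {T : Set ℂ} (hTA : T ∈ A) {p : ℂ} (hp : p ∈ T) {a : ℝ} (ha : 5/4 * ε ≤ a)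
    (ha' : a ≤ 3/2 * ε) (hd : HasDens T p (2 * q (-a))) : ∃ g : ℂ ≃ᵢ ℂ, T = g '' PB M ε := by
  have ha3 : ε ≤ a := by linarith
  obtain ⟨K, hK, g, rfl⟩ := hA T hTA
  have hF : ∀ a' b' : ℝ, ε ≤ a' → a' ≤ 9/8 * ε → ε ≤ b' → b' ≤ 3/2 * ε → K = PF a' b' → False := by
    intro a' b' h1 h2 h3 h4 h5
    rw [h5] at hp hd
    obtain ⟨c, c1, c2, c3⟩ := apex_of_dens hε hε1 ⟨0, by norm_num⟩
      (fun _ => Or.inr ⟨h1, by linarith⟩)
      (fun _ => Or.inr ⟨h3, h4⟩) g hp ha3 ha' hd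
    linarith
  rcases hK with h | h | h | h | h
  · rw [h] at hp hd
    obtain ⟨c, c1, c2, c3⟩ := apex_of_dens hε hε1 ⟨M + 1, by push_cast; ring⟩ (fun _ => zero_sl)
      (tA_sl hε) g hp ha3 ha' hd
    linarith
  · exact ⟨g, by rw [h]⟩
  · exact (hF _ _ le_rfl (by linarith) (by linarith) (by linarith) h).elim
  · exact (hF _ _ le_rfl (by linarith) (by linarith) (by linarith) h).elim
  · exact (hF _ _ (by linarith) (by linarith) (by linarith) (by linarith) h).elim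

omit hT in
theorem notch_low {T : Set ℂ} (hTA : T ∈ A) {p : ℂ} (hp : p ∈ T) {a : ℝ} (ha : ε ≤ a)
    (ha' : a ≤ 9/8 * ε) (hd : HasDens T p (2 * q a)) : ∃ g : ℂ ≃ᵢ ℂ, T = g '' PA M ε := by
  have ha3 : a ≤ 3/2 * ε := by linarith
  obtain ⟨K, hK, g, rfl⟩ := hA T hTA
  have hF : ∀ a' b' : ℝ, ε ≤ a' → a' ≤ 3/2 * ε → 5/4 * ε ≤ b' → b' ≤ 3/2 * ε →
      K = PF a' b' → False := by
    intro a' b' h1 h2 h3 h4 h5
    rw [h5] at hp hd
    obtain ⟨c, c1, c2, c3⟩ := notch_of_dens hε hε1 ⟨0, by norm_num⟩ (fun _ => Or.inr ⟨h1, h2⟩)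
      (fun _ => Or.inr ⟨by linarith, h4⟩) g hp ha ha3 hd
    linarith
  rcases hK with h | h | h | h | h
  · exact ⟨g, by rw [h]⟩
  · rw [h] at hp hd
    obtain ⟨c, c1, c2, c3⟩ := notch_of_dens hε hε1 ⟨M, rfl⟩ (bB_sl hε)
      (fun _ => zero_sl) g hp ha ha3 hd
    linarith
  · exact (hF _ _ le_rfl (by linarith) (by linarith) (by linarith) h).elim
  · exact (hF _ _ le_rfl (by linarith) (by linarith) (by linarith) h).elim
  · exact (hF _ _ (by linarith) (by linarith) (by linarith) (by linarith) h).elim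

omit hT in
theorem notch_mid {T : Set ℂ} (hTA : T ∈ A) {p : ℂ} (hp : p ∈ T)
    (hd : HasDens T p (2 * q (5/4 * ε))) :
    ∃ g : ℂ ≃ᵢ ℂ, T = g '' PF ε (5/4 * ε) ∧ p = g ⟨0, 1 - (5/4 * ε)/4⟩ := by
  have ha : ε ≤ 5/4 * ε := by linarith
  have ha3 : 5/4 * ε ≤ 3/2 * ε := by linarith
  obtain ⟨K, hK, g, rfl⟩ := hA T hTA
  have hF : ∀ a' b' : ℝ, ε ≤ a' → a' ≤ 3/2 * ε → 5/4 * ε < b' → b' ≤ 3/2 * ε →
      K = PF a' b' → False := by
    intro a' b' h1 h2 h3 h4 h5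
    rw [h5] at hp hd
    obtain ⟨c, c1, c2, c3⟩ := notch_of_dens hε hε1 ⟨0, by norm_num⟩ (fun _ => Or.inr ⟨h1, h2⟩)
      (fun _ => Or.inr ⟨by linarith, h4⟩) g hp ha ha3 hd
    linarith
  rcases hK with h | h | h | h | h
  · rw [h] at hp hd
    obtain ⟨c, c1, c2, c3⟩ := notch_of_dens hε hε1 ⟨M + 1, by push_cast; ring⟩ (fun _ => zero_sl)
      (tA_sl hε) g hp ha ha3 hd
    unfold tA at c3
    split_ifs at c3 <;> linarith
  · rw [h] at hp hd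
    obtain ⟨c, c1, c2, c3⟩ := notch_of_dens hε hε1 ⟨M, rfl⟩ (bB_sl hε)
      (fun _ => zero_sl) g hp ha ha3 hd
    linarith
  · exact (hF _ _ le_rfl (by linarith) (by linarith) (by linarith) h).elim
  · refine ⟨g, by rw [h], ?_⟩
    rw [h] at hp hd
    obtain ⟨c, c1, c2, c3⟩ := notch_of_dens hε hε1 ⟨0, by norm_num⟩
      (fun _ => Or.inr ⟨le_rfl, by linarith⟩)
      (fun _ => Or.inr ⟨by linarith, by linarith⟩) g hp ha ha3 hd
    have := int_lt_half c1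
    subst this
    rw [c2]; simp
  · exact (hF _ _ (by linarith) (by linarith) (by linarith) (by linarith) h).elim

/-- from an `A`-tile up to the tile sitting in its notch `c` -/
theorem stepA {T : Set ℂ} (hTA : T ∈ A) {g : ℂ ≃ᵢ ℂ} (hg : T = g '' PA M ε) {c : ℤ}
    (hc : |c| ≤ (M:ℤ) + 1) :
    g ⟨c, 1 - tA M ε c / 4⟩ ∈ T ∧ HasDens T (g ⟨c, 1 - tA M ε c / 4⟩) (2 * q (tA M ε c)) ∧
    ∃ T' ∈ A, g ⟨c, 1 - tA M ε c / 4⟩ ∈ T' ∧
      HasDens T' (g ⟨c, 1 - tA M ε c / 4⟩) (2 * q (-tA M ε c)) ∧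
      ∃ (g' : ℂ ≃ᵢ ℂ) (b : ℝ), T' = g' '' PF (tA M ε c) b ∧
        g ⟨c, 1 - tA M ε c / 4⟩ = g' ⟨0, -(tA M ε c/4)⟩ ∧ (b = 5/4 * ε ∨ b = 11/8 * ε) := by
  have hcw : |(c:ℝ)| < (M:ℝ) + 1 + 1/2 := by
    have : |(c:ℝ)| ≤ (M:ℝ) + 1 := by exact_mod_cast hc
    linarith
  have hb' := Bd_of_sl hε (fun _ : ℤ => zero_sl (ε := ε))
  have ht' := Bd_of_sl hε (tA_sl (M := M) hε)
  have hsl : ε ≤ tA M ε c ∧ tA M ε c ≤ 9/8 * ε := by
    unfold tA; split_ifs <;> constructor <;> linarith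
  have hd0 := Slab_dens_notch hb' ht' (by linarith) hcw
  have hmem : (⟨c, 1 - tA M ε c / 4⟩ : ℂ) ∈ PA M ε := by
    refine ⟨hcw.le, ?_, ?_⟩
    · simp only [V_at_int]; linarith
    · simp only [V_at_int]; linarith
  have hp : g ⟨c, 1 - tA M ε c / 4⟩ ∈ T := by rw [hg]; exact mem_image_of_mem _ hmem
  have hd : HasDens T (g ⟨c, 1 - tA M ε c / 4⟩) (2 * q (tA M ε c)) := by
    rw [hg]; exact hd0.image g
  refine ⟨hp, hd, ?_⟩
  obtain ⟨T', h1, h2, h3, h4, _⟩ := next_up hε hε1 hT hA hTA hp hsl.1 (by linarith [hsl.2]) hd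
  refine ⟨T', h1, h3, h4, ?_⟩
  obtain ⟨g', b, a1, a2, _, a4⟩ := apex_low hε hε1 hA h1 h3 hsl.1 hsl.2 h4
  exact ⟨g', b, a1, a2, a4⟩

/-- from an `F`-tile up to the `B`-tile whose bump fills its notch -/
theorem stepF {T : Set ℂ} (hTA : T ∈ A) {g : ℂ ≃ᵢ ℂ} {a b : ℝ} (hg : T = g '' PF a b)
    (ha : a = ε ∨ a = 9/8 * ε) (hb : b = 5/4 * ε ∨ b = 11/8 * ε) :
    g ⟨0, 1 - b / 4⟩ ∈ T ∧ HasDens T (g ⟨0, 1 - b / 4⟩) (2 * q b) ∧
    ∃ T' ∈ A, g ⟨0, 1 - b / 4⟩ ∈ T' ∧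
      HasDens T' (g ⟨0, 1 - b / 4⟩) (2 * q (-b)) ∧
      (∃ g' : ℂ ≃ᵢ ℂ, T' = g' '' PB M ε) ∧
      ∀ g' : ℂ ≃ᵢ ℂ, T' = g' '' PB M ε → ∃ c : ℤ, |c| ≤ (M:ℤ) ∧
        g ⟨0, 1 - b / 4⟩ = g' ⟨c, -(bB ε c/4)⟩ := by
  have hasl : IsSl ε a := by rcases ha with h | h <;> rw [h] <;> right <;> constructor <;> linarith
  have hbsl : IsSl ε b := by rcases hb with h | h <;> rw [h] <;> right <;> constructor <;> linarith
  have hb' := Bd_of_sl hε (fun _ : ℤ => hasl)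
  have ht' := Bd_of_sl hε (fun _ : ℤ => hbsl)
  have h54 : 5/4 * ε ≤ b ∧ b ≤ 3/2 * ε := by rcases hb with h | h <;> constructor <;> linarith
  have ha0 : 0 ≤ a := by rcases ha with h | h <;> linarith
  have hcw : |((0:ℤ):ℝ)| < (1/2 : ℝ) := by norm_num
  have hd0 := Slab_dens_notch (w := 1/2) hb' ht' (by linarith) hcw
  simp only [Int.cast_zero] at hd0
  have hmem : (⟨0, 1 - b / 4⟩ : ℂ) ∈ PF a b := by
    have e1 := V_at_int (fun _ : ℤ => a) 0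
    have e2 := V_at_int (fun _ : ℤ => b) 0
    simp only [Int.cast_zero] at e1 e2
    refine ⟨by norm_num, ?_, ?_⟩
    · simp only [e1]; linarith
    · simp only [e2]; linarith
  have hp : g ⟨0, 1 - b / 4⟩ ∈ T := by rw [hg]; exact mem_image_of_mem _ hmem
  have hd : HasDens T (g ⟨0, 1 - b / 4⟩) (2 * q b) := by
    rw [hg]; exact hd0.image g
  refine ⟨hp, hd, ?_⟩
  obtain ⟨T', h1, h2, h3, h4, _⟩ := next_up hε hε1 hT hA hTA hp (by linarith [h54.1]) h54.2 hd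
  refine ⟨T', h1, h3, h4, apex_high hε hε1 hA h1 h3 h54.1 h54.2 h4, ?_⟩
  intro g' hg'
  rw [hg'] at h3 h4
  obtain ⟨c, c1, c2, c3⟩ := apex_of_dens hε hε1 ⟨M, rfl⟩ (bB_sl hε)
      (fun _ => zero_sl) g' h3 (by linarith [h54.1]) h54.2 h4
  exact ⟨c, int_lt_Mhalf c1, c2⟩

/-- from a `B`-tile down to the `A`-tile below its middle bump -/
theorem stepB {T : Set ℂ} (hTA : T ∈ A) {l : ℂ ≃ᵢ ℂ}
    (hl : T = l '' PB M ε) :
    ∃ T' ∈ A, (∃ g' : ℂ ≃ᵢ ℂ, T' = g' '' PA M ε) ∧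
      (∃ p ∈ T, ∃ p' ∈ T', dist p p' ≤ 2 * M + 7) ∧
      ∀ g' : ℂ ≃ᵢ ℂ, T' = g' '' PA M ε → ∃ c : ℤ, |c| ≤ (M:ℤ) ∧
        ∀ x : ℝ, |x - c| < M + 1/2 → g' ⟨x, 5/2⟩ ∈ interior T := by
  have hbB := Bd_of_sl hε (bB_sl hε)
  have hz := Bd_of_sl hε (fun _ : ℤ => zero_sl (ε := ε))
  have htA := Bd_of_sl hε (tA_sl (M := M) hε)
  have hm : 3/2 * ε ≤ 1 := by linarith
  have hMn : (0:ℝ) ≤ M := Nat.cast_nonneg M
  have hcw : |((0:ℤ):ℝ)| < (M:ℝ) + 1/2 := by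
    rw [Int.cast_zero, abs_zero]; linarith
  have hb0 : bB ε 0 = 5/4 * ε := by simp [bB]
  -- the middle bump
  have hd0 := Slab_dens_apex hbB hz hm hcw
  rw [hb0] at hd0
  simp only [Int.cast_zero] at hd0
  have hmem : (⟨0, -(5/4 * ε / 4)⟩ : ℂ) ∈ PB M ε := by
    have e1 := V_at_int (bB ε) 0
    have e2 := V_at_int (fun _ : ℤ => (0:ℝ)) 0
    rw [hb0] at e1
    simp only [Int.cast_zero] at e1 e2
    refine ⟨by rw [abs_zero]; linarith, ?_, ?_⟩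
    · simp only [e1]; linarith
    · simp only [e2]; linarith
  have hp : l ⟨0, -(5/4 * ε / 4)⟩ ∈ T := by rw [hl]; exact mem_image_of_mem _ hmem
  have hd : HasDens T (l ⟨0, -(5/4 * ε / 4)⟩) (2 * q (-(5/4 * ε))) := by
    rw [hl]; exact hd0.image l
  obtain ⟨TF, f1, f2, f3, f4, _⟩ := next_down hε hε1 hT hA hTA hp (by linarith) (by linarith) hd
  obtain ⟨h, hh1, hh2⟩ := notch_mid hε hε1 hA f1 f3 f4
  -- the apex of TF
  have hbF : Bd (3/2 * ε) (fun _ : ℤ => ε) := Bd_of_sl hε (fun _ => Or.inr ⟨le_rfl, by linarith⟩)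
  have htF : Bd (3/2 * ε) (fun _ : ℤ => 5/4 * ε) :=
    Bd_of_sl hε (fun _ => Or.inr ⟨by linarith, by linarith⟩)
  have hcw2 : |((0:ℤ):ℝ)| < (1/2 : ℝ) := by norm_num
  have hd1 := Slab_dens_apex (w := 1/2) hbF htF hm hcw2
  simp only [Int.cast_zero] at hd1
  have hmem2 : (⟨0, -(ε / 4)⟩ : ℂ) ∈ PF ε (5/4 * ε) := by
    have e1 := V_at_int (fun _ : ℤ => ε) 0
    have e2 := V_at_int (fun _ : ℤ => 5/4 * ε) 0
    simp only [Int.cast_zero] at e1 e2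
    refine ⟨by norm_num, ?_, ?_⟩
    · simp only [e1]; linarith
    · simp only [e2]; linarith
  have hp2 : h ⟨0, -(ε / 4)⟩ ∈ TF := by rw [hh1]; exact mem_image_of_mem _ hmem2
  have hd2 : HasDens TF (h ⟨0, -(ε / 4)⟩) (2 * q (-ε)) := by
    rw [hh1]; exact hd1.image h
  obtain ⟨TA, a1, a2, a3, a4, _⟩ := next_down hε hε1 hT hA f1 hp2 le_rfl (by linarith) hd2
  refine ⟨TA, a1, notch_low hε hε1 hA a1 a3 le_rfl (by linarith) a4, ?_, ?_⟩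
  · exact ⟨_, hp, _, a3, (hT.good TF f1).diam _ f3 _ hp2⟩
  · intro g hg
    have a3' := a3
    have a4' := a4
    rw [hg] at a3' a4'
    obtain ⟨c, c1, c2, c3⟩ := notch_of_dens hε hε1 ⟨M + 1, by push_cast; ring⟩ (fun _ => zero_sl)
      (tA_sl hε) g a3' le_rfl (by linarith) a4'
    have hcM : |c| ≤ (M:ℤ) := by
      by_contra hcon
      unfold tA at c3
      rw [if_neg hcon] at c3
      linarith
    refine ⟨c, hcM, ?_⟩
    -- rigidity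
    have r1 := rigid hz htA hbF htF hm (w₁ := M + 1 + 1/2) (w₂ := 1/2) (c₁ := c) (c₂ := 0) c1
      (by norm_num) hε c3 rfl g h (by rw [c3] at c2; rw [← c2]; simp)
      (by
        have := hT.disj TA a1 TF f1 a2
        rw [hg, hh1] at this
        exact this)
    have r2 := rigid hbF htF hbB hz hm (w₁ := 1/2) (w₂ := M + 1/2) (c₁ := 0) (c₂ := 0)
      (s := 5/4 * ε) (by norm_num) hcw (by linarith) rfl hb0 h l
      (by simp only [Int.cast_zero]; exact hh2.symm)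
      (by
        have := hT.disj TF f1 T hTA f2
        rw [hh1, hl] at this
        exact this)
    intro x hx
    have hxx := abs_lt.1 hx
    have key : ∃ z ∈ OSlab (M + 1/2) (bB ε) (fun _ => (0:ℝ)), l z = g ⟨x, 5/2⟩ := by
      have hO : ∀ y : ℝ, |y| < M + 1/2 →
          (⟨y, 1/2⟩ : ℂ) ∈ OSlab (M + 1/2) (bB ε) (fun _ => (0:ℝ)) := by
        intro y hy
        have v1 := V_nonneg hbB y
        have v2 := V_le hz y
        refine ⟨hy, ?_, ?_⟩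
        · simp only; linarith
        · simp only
          have : V (fun _ : ℤ => (0:ℝ)) y = 0 := by simp [V]
          rw [this]; norm_num
      rcases r1 with r1 | r1 <;> rcases r2 with r2 | r2
      · refine ⟨⟨x - c, 1/2⟩, hO _ hx, ?_⟩
        rw [r2, r1]
        congr 1
        apply Complex.ext <;> simp
        norm_num
      · refine ⟨⟨-(x - c), 1/2⟩, hO _ (by rwa [abs_neg]), ?_⟩
        rw [r2, r1]
        congr 1
        apply Complex.ext <;> simp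
        norm_num
      · refine ⟨⟨-(x - c), 1/2⟩, hO _ (by rwa [abs_neg]), ?_⟩
        rw [r2, r1]
        congr 1
        apply Complex.ext <;> simp
        norm_num
      · refine ⟨⟨x - c, 1/2⟩, hO _ hx, ?_⟩
        rw [r2, r1]
        congr 1
        apply Complex.ext <;> simp
        norm_num
    obtain ⟨z, hz1, hz2⟩ := key
    rw [← hz2, hl]
    have e5 : interior (l '' PB M ε) = l '' interior (PB M ε) :=
      (l.toHomeomorph.image_interior _).symm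
    rw [e5]
    exact mem_image_of_mem _ (OSlab_subset_interior hbB hz hz1)

end

end Pool.Agent.Helper925_SC
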