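import Pool.Agent.Helper925_SC.Star3

/-! Sections of sets in the cube. -/

set_option autoImplicit false

namespace Pool.Agent.Helper925_SC

open Finset

/-- flip coordinate `i` -/
def flip {n : ℕ} (i : Fin n) (x : Fin n → Bool) : Fin n → Bool := Function.update x i (!x i)

/-- twice the number of edges inside `F` -/
def E2 {n : ℕ} (F : Finset (Fin n → Bool)) : ℕ :=
  ∑ i : Fin n, (F.filter fun x => flip i x ∈ F).card

/-- sections -/
def sec {n : ℕ} (b : Bool) (F : Finset (Fin (n + 1) → Bool)) : Finset (Fin n → Bool) :=
  univ.filter fun x => (Fin.cons b x : Fin (n + 1) → Bool) ∈ F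

theorem mem_sec {n : ℕ} (b : Bool) (F : Finset (Fin (n + 1) → Bool)) (x : Fin n → Bool) :
    x ∈ sec b F ↔ (Fin.cons b x : Fin (n + 1) → Bool) ∈ F := by
  simp [sec]

theorem cons_tail {n : ℕ} (x : Fin (n + 1) → Bool) :
    (Fin.cons (x 0) (Fin.tail x) : Fin (n + 1) → Bool) = x := Fin.cons_self_tail x

/-- the points of a set with given first coordinate -/
theorem card_part {n : ℕ} (b : Bool) (F : Finset (Fin (n + 1) → Bool)) :
    (F.filter fun x => x 0 = b).card = (sec b F).card := by
  refine Finset.card_bij (fun x _ => Fin.tail x) ?_ ?_ ?_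
  · intro x hx
    rw [mem_filter] at hx
    rw [mem_sec, ← hx.2, cons_tail]
    exact hx.1
  · intro x hx y hy h
    rw [mem_filter] at hx hy
    rw [← cons_tail x, ← cons_tail y, h, hx.2, hy.2]
  · intro y hy
    rw [mem_sec] at hy
    exact ⟨Fin.cons b y, mem_filter.2 ⟨hy, Fin.cons_zero _ _⟩, Fin.tail_cons _ _⟩

theorem card_sec {n : ℕ} (F : Finset (Fin (n + 1) → Bool)) :
    F.card = (sec false F).card + (sec true F).card := by
  rw [← card_part, ← card_part]
  rw [← Finset.card_union_of_disjoint]
  · congr 1
    ext x
    simp only [mem_union, mem_filter]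
    cases h : x 0 <;> simp
  · rw [Finset.disjoint_left]
    intro x hx hy
    rw [mem_filter] at hx hy
    rw [hx.2] at hy
    exact absurd hy.2 (by simp)

theorem sec_symmDiff {n : ℕ} (b : Bool) (F G : Finset (Fin (n + 1) → Bool)) :
    sec b (symmDiff F G) = symmDiff (sec b F) (sec b G) := by
  ext x
  simp only [mem_symmDiff, mem_sec]

theorem flip_zero {n : ℕ} (b : Bool) (x : Fin n → Bool) :
    flip 0 (Fin.cons b x : Fin (n + 1) → Bool) = Fin.cons (!b) x := by
  unfold flip
  rw [Fin.cons_zero, Fin.update_cons_zero]

theorem flip_succ {n : ℕ} (b : Bool) (i : Fin n) (x : Fin n → Bool) :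
    flip i.succ (Fin.cons b x : Fin (n + 1) → Bool) = Fin.cons b (flip i x) := by
  unfold flip
  rw [Fin.cons_succ, ← Fin.cons_update]

theorem E2_sec {n : ℕ} (F : Finset (Fin (n + 1) → Bool)) :
    E2 F = E2 (sec false F) + E2 (sec true F) + 2 * (sec false F ∩ sec true F).card := by
  unfold E2
  rw [Fin.sum_univ_succ]
  have h0 : (F.filter fun x => flip 0 x ∈ F).card = 2 * (sec false F ∩ sec true F).card := by
    rw [card_sec]
    have e1 : sec false (F.filter fun x => flip 0 x ∈ F) = sec false F ∩ sec true F := by
      ext x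
      rw [mem_sec, mem_filter, mem_inter, mem_sec, mem_sec, flip_zero]
      rfl
    have e2 : sec true (F.filter fun x => flip 0 x ∈ F) = sec false F ∩ sec true F := by
      ext x
      rw [mem_sec, mem_filter, mem_inter, mem_sec, mem_sec, flip_zero]
      exact and_comm
    rw [e1, e2]
    ring
  have hs : ∀ i : Fin n, (F.filter fun x => flip i.succ x ∈ F).card =
      ((sec false F).filter fun x => flip i x ∈ sec false F).card +
      ((sec true F).filter fun x => flip i x ∈ sec true F).card := by
    intro i
    rw [card_sec]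
    congr 1
    · congr 1
      ext x
      rw [mem_sec, mem_filter, mem_filter, mem_sec, mem_sec, flip_succ]
    · congr 1
      ext x
      rw [mem_sec, mem_filter, mem_filter, mem_sec, mem_sec, flip_succ]
  rw [h0, Finset.sum_congr rfl fun i _ => hs i, Finset.sum_add_distrib]
  ring

/-- a subcube -/
def cube {n : ℕ} (T : Finset (Fin n)) (a : Fin n → Bool) : Finset (Fin n → Bool) :=
  univ.filter fun x => ∀ i ∈ T, x i = a i

theorem mem_cube {n : ℕ} (T : Finset (Fin n)) (a x : Fin n → Bool) :
    x ∈ cube T a ↔ ∀ i ∈ T, x i = a i := by simp [cube]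

theorem sec_cube_succ {n : ℕ} (b c : Bool) (T : Finset (Fin n)) (a : Fin n → Bool) :
    sec b (cube (T.map (Fin.succEmb n)) (Fin.cons c a)) = cube T a := by
  ext x
  rw [mem_sec, mem_cube, mem_cube]
  constructor
  · intro h i hi
    have := h i.succ (mem_map_of_mem _ hi)
    simpa using this
  · intro h j hj
    obtain ⟨i, hi, rfl⟩ := mem_map.1 hj
    simpa using h i hi

theorem sec_cube_zero {n : ℕ} (b : Bool) (T : Finset (Fin n)) (a : Fin n → Bool) :
    sec b (cube (insert 0 (T.map (Fin.succEmb n))) (Fin.cons b a)) = cube T a := by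
  ext x
  rw [mem_sec, mem_cube, mem_cube]
  constructor
  · intro h i hi
    have := h i.succ (mem_insert_of_mem (mem_map_of_mem _ hi))
    simpa using this
  · intro h j hj
    rw [mem_insert] at hj
    rcases hj with rfl | hj
    · simp
    · obtain ⟨i, hi, rfl⟩ := mem_map.1 hj
      simpa using h i hi

theorem sec_cube_zero' {n : ℕ} (b c : Bool) (hbc : b ≠ c) (T : Finset (Fin n))
    (a : Fin n → Bool) :
    sec b (cube (insert 0 (T.map (Fin.succEmb n))) (Fin.cons c a)) = ∅ := by
  ext x
  rw [mem_sec, mem_cube]
  constructor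
  · intro h
    have := h 0 (mem_insert_self _ _)
    simp only [Fin.cons_zero] at this
    exact absurd this hbc
  · intro h
    exact absurd h (notMem_empty _)

theorem symmDiff_tri {α : Type} [DecidableEq α] (A B C : Finset α) :
    (symmDiff A C).card ≤ (symmDiff A B).card + (symmDiff B C).card := by
  refine le_trans (Finset.card_le_card ?_) (Finset.card_union_le _ _)
  exact symmDiff_triangle A B C

theorem card_symmDiff' {α : Type} [DecidableEq α] (A B : Finset α) :
    (symmDiff A B).card + 2 * (A ∩ B).card = A.card + B.card := by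
  have h1 : (symmDiff A B).card = (A \ B).card + (B \ A).card := by
    rw [symmDiff_def, sup_eq_union, Finset.card_union_of_disjoint]
    exact disjoint_sdiff_sdiff
  have h2 := Finset.card_sdiff_add_card_inter A B
  have h3 := Finset.card_sdiff_add_card_inter B A
  rw [inter_comm B A] at h3
  omega

/-- the (doubled) deficiency -/
noncomputable def W {n : ℕ} (F : Finset (Fin n → Bool)) : ℝ := 2 * (eta F.card - E2 F)

theorem W_sec {n : ℕ} (F : Finset (Fin (n + 1) → Bool)) :
    W F = W (sec false F) + W (sec true F) + 2 * D (sec false F).card (sec true F).card -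
      4 * ((sec false F ∩ sec true F).card : ℝ) := by
  unfold W D
  rw [E2_sec F, card_sec F]
  push_cast
  ring

theorem W_nonneg {n : ℕ} (F : Finset (Fin n → Bool)) : 0 ≤ W F := by
  induction n with
  | zero =>
    have hc : F.card ≤ 1 := by
      have := Finset.card_le_univ F
      simpa using this
    have hE : E2 F = 0 := by simp [E2]
    unfold W
    rw [hE]
    interval_cases h : F.card <;> simp [eta]
  | succ n ih =>
    rw [W_sec]
    have h1 := ih (sec false F)
    have h2 := ih (sec true F)
    have hI0 : (sec false F ∩ sec true F).card ≤ (sec false F).card :=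
      Finset.card_le_card Finset.inter_subset_left
    have hI1 : (sec false F ∩ sec true F).card ≤ (sec true F).card :=
      Finset.card_le_card Finset.inter_subset_right
    have hI0' : ((sec false F ∩ sec true F).card : ℝ) ≤ (sec false F).card := by
      exact_mod_cast hI0
    have hI1' : ((sec false F ∩ sec true F).card : ℝ) ≤ (sec true F).card := by
      exact_mod_cast hI1
    rcases le_total ((sec true F).card : ℝ) ((sec false F).card : ℝ) with h | h
    · have := D_ge _ _ (Nat.cast_nonneg _) h
      linarith
    · have := D_ge _ _ (Nat.cast_nonneg _) h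
      rw [D_comm] at this
      linarith

end Pool.Agent.Helper925_SC
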