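import Pool.Agent.Helper925_SC.Wedge

/-! Local densities of plane sets at points. -/

open Set Metric Topology MeasureTheory
open scoped ENNReal Real

namespace Pool.Agent.Helper925_SC

/-- The set `S` occupies the fraction `d` of every small disk about `p`. -/
def HasDens (S : Set ℂ) (p : ℂ) (d : ℝ) : Prop :=
  ∃ t₀ > 0, ∀ t, 0 < t → t ≤ t₀ → volume (S ∩ ball p t) = ENNReal.ofReal (d * (π * t ^ 2))

/-- Right density. -/
def RD (S : Set ℂ) (p : ℂ) (d : ℝ) : Prop :=
  ∃ t₀ > 0, ∀ t, 0 < t → t ≤ t₀ →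
    volume {z : ℂ | p + z ∈ S ∧ 0 < z.re ∧ ‖z‖ < t} = ENNReal.ofReal (d * (π * t ^ 2))

/-- Left density. -/
def LD (S : Set ℂ) (p : ℂ) (d : ℝ) : Prop :=
  ∃ t₀ > 0, ∀ t, 0 < t → t ≤ t₀ →
    volume {z : ℂ | p + z ∈ S ∧ z.re < 0 ∧ ‖z‖ < t} = ENNReal.ofReal (d * (π * t ^ 2))

theorem HasDens.unique {S : Set ℂ} {p : ℂ} {d d' : ℝ} (h : HasDens S p d) (h' : HasDens S p d')
    (hd : 0 ≤ d) (hd' : 0 ≤ d') : d = d' := by
  obtain ⟨t, ht, h1⟩ := h
  obtain ⟨t', ht', h2⟩ := h'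
  have hm : 0 < min t t' := lt_min ht ht'
  have e1 := h1 (min t t') hm (min_le_left _ _)
  have e2 := h2 (min t t') hm (min_le_right _ _)
  rw [e1] at e2
  have hpi := Real.pi_pos
  have hp : 0 < π * (min t t') ^ 2 := by positivity
  have := (ENNReal.ofReal_eq_ofReal_iff (by positivity) (by positivity)).1 e2
  exact mul_right_cancel₀ hp.ne' this

/-- The kernel of a nonzero linear functional is a null set. -/
theorem null_line (L : ℂ →ₗ[ℝ] ℝ) (hL : L ≠ 0) : volume {z : ℂ | L z = 0} = 0 := by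
  have : {z : ℂ | L z = 0} = (LinearMap.ker L : Set ℂ) := by ext z; simp
  rw [this]
  apply Measure.addHaar_submodule
  intro h
  exact hL (LinearMap.ker_eq_top.1 h)

theorem null_re : volume {z : ℂ | z.re = 0} = 0 := by
  have := null_line Complex.reLm (by
    intro h
    have := LinearMap.congr_fun h 1
    simp at this)
  simpa using this

theorem null_graph (a : ℝ) : volume {z : ℂ | z.im = a * z.re} = 0 := by
  have := null_line (Complex.imLm - a • Complex.reLm) (by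
    intro h
    have := LinearMap.congr_fun h Complex.I
    simp at this)
  refine measure_mono_null ?_ this
  intro z hz
  simp only [mem_ofPred_eq] at hz ⊢
  simp [hz]

/-- closed lower wedge -/
def CW (a : ℝ) : Set ℂ := {z | 0 < z.re ∧ z.im ≤ a * z.re}

theorem volume_CW (a : ℝ) {t : ℝ} (ht : 0 < t) :
    volume (CW a ∩ ball 0 t) = ENNReal.ofReal (q a * (π * t ^ 2)) := by
  rw [← volume_Wedge a ht]
  apply measure_congr
  have h0 : ∀ᵐ z : ℂ, z ∉ {z : ℂ | z.im = a * z.re} := measure_eq_zero_iff_ae_notMem.1 (null_graph a)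
  refine Filter.eventuallyEq_set.2 ?_
  filter_upwards [h0] with z hz
  replace hz : ¬ (z.im = a * z.re) := hz
  constructor
  · rintro ⟨⟨h1, h2⟩, h3⟩
    exact ⟨⟨h1, lt_of_le_of_ne h2 hz⟩, h3⟩
  · rintro ⟨⟨h1, h2⟩, h3⟩
    exact ⟨⟨h1, h2.le⟩, h3⟩

theorem measurePreserving_conj : MeasurePreserving (Complex.conjLIE : ℂ → ℂ) volume volume :=
  Complex.conjLIE.measurePreserving

/-- closed upper wedge -/
def UW (a : ℝ) : Set ℂ := {z | 0 < z.re ∧ a * z.re ≤ z.im}

theorem volume_UW (a : ℝ) {t : ℝ} (ht : 0 < t) :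
    volume (UW a ∩ ball 0 t) = ENNReal.ofReal (q (-a) * (π * t ^ 2)) := by
  rw [← volume_CW (-a) ht]
  have hm : MeasurableSet (CW (-a) ∩ ball (0:ℂ) t) := by
    refine MeasurableSet.inter ?_ measurableSet_ball
    exact ((isOpen_lt continuous_const Complex.continuous_re).measurableSet).inter
      ((isClosed_le Complex.continuous_im (continuous_const.mul Complex.continuous_re)).measurableSet)
  rw [← measurePreserving_conj.measure_preimage hm.nullMeasurableSet]
  congr 1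
  ext z
  simp only [UW, CW, mem_inter_iff, mem_ofPred_eq, mem_preimage, Complex.conjLIE_apply,
    Complex.conj_re, Complex.conj_im, mem_ball_zero_iff, Complex.norm_conj]
  constructor
  · rintro ⟨⟨h1, h2⟩, h3⟩; exact ⟨⟨h1, by linarith⟩, h3⟩
  · rintro ⟨⟨h1, h2⟩, h3⟩; exact ⟨⟨h1, by linarith⟩, h3⟩

/-- right half plane -/
def HP : Set ℂ := {z | 0 < z.re}

theorem volume_HP {t : ℝ} (ht : 0 < t) :
    volume (HP ∩ ball 0 t) = ENNReal.ofReal ((1/2) * (π * t ^ 2)) := by
  have hpi := Real.pi_pos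
  have hm : MeasurableSet (CW 0) :=
    ((isOpen_lt continuous_const Complex.continuous_re).measurableSet).inter
      ((isClosed_le Complex.continuous_im (continuous_const.mul Complex.continuous_re)).measurableSet)
  rw [← measure_inter_add_sdiff (HP ∩ ball (0:ℂ) t) hm]
  have e1 : HP ∩ ball (0:ℂ) t ∩ CW 0 = CW 0 ∩ ball 0 t := by
    ext z; simp only [HP, CW, mem_inter_iff, mem_ofPred_eq]; tauto
  have e2 : volume ((HP ∩ ball (0:ℂ) t) \ CW 0) = volume (UW 0 ∩ ball (0:ℂ) t) := by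
    apply measure_congr
    have h0 : ∀ᵐ z : ℂ, z ∉ {z : ℂ | z.im = 0 * z.re} :=
      measure_eq_zero_iff_ae_notMem.1 (null_graph 0)
    refine Filter.eventuallyEq_set.2 ?_
    filter_upwards [h0] with z hz
    replace hz : ¬ (z.im = 0 * z.re) := hz
    constructor
    · rintro ⟨⟨h1, h2⟩, h3⟩
      refine ⟨⟨h1, ?_⟩, h2⟩
      by_contra hcon
      push Not at hcon
      exact h3 ⟨h1, hcon.le⟩
    · rintro ⟨⟨h1, h2⟩, h3⟩
      refine ⟨⟨h1, h3⟩, ?_⟩
      rintro ⟨_, h4⟩
      exact hz (le_antisymm h4 h2)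
  rw [e1, e2, volume_CW 0 ht, volume_UW 0 ht, neg_zero, q_zero,
    ← ENNReal.ofReal_add (by positivity) (by positivity)]
  congr 1
  ring

theorem RD_of_eq {S X : Set ℂ} {p : ℂ} {d : ℝ}
    (hX : ∀ t, 0 < t → volume (X ∩ ball 0 t) = ENNReal.ofReal (d * (π * t ^ 2)))
    {δ : ℝ} (hδ : 0 < δ)
    (h : ∀ z : ℂ, ‖z‖ < δ → ((p + z ∈ S ∧ 0 < z.re) ↔ z ∈ X)) : RD S p d := by
  refine ⟨δ, hδ, fun t ht htδ => ?_⟩
  rw [← hX t ht]
  congr 1
  ext z
  simp only [mem_ofPred_eq, mem_inter_iff, mem_ball_zero_iff]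
  constructor
  · rintro ⟨h1, h2, h3⟩
    exact ⟨(h z (h3.trans_le htδ)).1 ⟨h1, h2⟩, h3⟩
  · rintro ⟨h1, h3⟩
    have := (h z (h3.trans_le htδ)).2 h1
    exact ⟨this.1, this.2, h3⟩

theorem RD_zero {S : Set ℂ} {p : ℂ} {δ : ℝ} (hδ : 0 < δ)
    (h : ∀ z : ℂ, ‖z‖ < δ → 0 < z.re → p + z ∉ S) : RD S p 0 := by
  refine RD_of_eq (X := ∅) (by intro t ht; simp) hδ ?_
  intro z hz
  simp only [mem_empty_iff_false, iff_false, not_and]
  intro h1 h2
  exact h z hz h2 h1

theorem LD_of_RD {S : Set ℂ} {p : ℂ} {d : ℝ}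
    (h : RD ((fun z => -(starRingEnd ℂ) z) '' S) (-(starRingEnd ℂ) p) d) : LD S p d := by
  obtain ⟨t₀, ht₀, h1⟩ := h
  refine ⟨t₀, ht₀, fun t ht htt => ?_⟩
  rw [← h1 t ht htt]
  have hmp : MeasurePreserving (fun z : ℂ => -(starRingEnd ℂ) z) volume volume :=
    (Measure.measurePreserving_neg (volume : Measure ℂ)).comp measurePreserving_conj
  have hinv : ∀ z : ℂ, -(starRingEnd ℂ) (-(starRingEnd ℂ) z) = z := by intro z; simp
  let e : ℂ ≃ᵐ ℂ :=
    { toFun := fun z => -(starRingEnd ℂ) z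
      invFun := fun z => -(starRingEnd ℂ) z
      left_inv := hinv
      right_inv := hinv
      measurable_toFun := hmp.measurable
      measurable_invFun := hmp.measurable }
  have he : MeasurePreserving e volume volume := hmp
  rw [← he.measure_preimage_equiv {z : ℂ | -(starRingEnd ℂ) p + z ∈
    (fun z => -(starRingEnd ℂ) z) '' S ∧ 0 < z.re ∧ ‖z‖ < t}]
  congr 1
  ext z
  have : e z = -(starRingEnd ℂ) z := rfl
  simp only [mem_preimage, mem_ofPred_eq, this, Complex.neg_re, Complex.conj_re, norm_neg,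
    Complex.norm_conj]
  have h3 : (-(starRingEnd ℂ) p + -(starRingEnd ℂ) z ∈ (fun z => -(starRingEnd ℂ) z) '' S) ↔
      p + z ∈ S := by
    constructor
    · rintro ⟨y, hy, hyz⟩
      have : y = p + z := by
        have := congrArg (fun z => -(starRingEnd ℂ) z) hyz
        simp only [hinv] at this
        rw [this]
        simp
        ring
      rwa [← this]
    · intro h
      exact ⟨p + z, h, by simp; ring⟩
  rw [h3]
  constructor
  · rintro ⟨h1, h2, h3⟩; exact ⟨h1, by linarith, h3⟩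
  · rintro ⟨h1, h2, h3⟩; exact ⟨h1, by linarith, h3⟩

theorem hasDens_of_RD_LD {S : Set ℂ} {p : ℂ} {d₁ d₂ : ℝ} (h₁ : RD S p d₁) (h₂ : LD S p d₂)
    (hd₁ : 0 ≤ d₁) (hd₂ : 0 ≤ d₂) : HasDens S p (d₁ + d₂) := by
  obtain ⟨t₁, ht₁, h1⟩ := h₁
  obtain ⟨t₂, ht₂, h2⟩ := h₂
  have hpi := Real.pi_pos
  refine ⟨min t₁ t₂, lt_min ht₁ ht₂, fun t ht htt => ?_⟩
  have e1 := h1 t ht (htt.trans (min_le_left _ _))
  have e2 := h2 t ht (htt.trans (min_le_right _ _))
  rw [add_mul, ENNReal.ofReal_add (by positivity) (by positivity), ← e1, ← e2]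
  rw [← measure_preimage_add volume p (S ∩ ball p t)]
  have hm : MeasurableSet {z : ℂ | 0 < z.re} :=
    (isOpen_lt continuous_const Complex.continuous_re).measurableSet
  rw [← measure_inter_add_sdiff _ hm]
  congr 1
  · congr 1
    ext z
    simp only [mem_inter_iff, mem_preimage, mem_ofPred_eq, mem_ball, dist_self_add_left]
    tauto
  · apply measure_congr
    have h0 : ∀ᵐ z : ℂ, z ∉ {z : ℂ | z.re = 0} := measure_eq_zero_iff_ae_notMem.1 null_re
    refine Filter.eventuallyEq_set.2 ?_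
    filter_upwards [h0] with z hz
    replace hz : ¬ (z.re = 0) := hz
    show ((p + z ∈ S ∧ p + z ∈ ball p t) ∧ ¬ (0 < z.re)) ↔ (p + z ∈ S ∧ z.re < 0 ∧ ‖z‖ < t)
    rw [mem_ball, dist_self_add_left]
    constructor
    · rintro ⟨⟨a1, a2⟩, a3⟩
      exact ⟨a1, lt_of_le_of_ne (not_lt.1 a3) hz, a2⟩
    · rintro ⟨a1, a2, a3⟩
      exact ⟨⟨a1, a3⟩, by linarith⟩

theorem volume_isometry (g : ℂ ≃ᵢ ℂ) (A : Set ℂ) : volume (g '' A) = volume A := by
  let L := g.toRealLinearIsometryEquiv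
  have hg : ∀ x, g x = g 0 + L x := by
    intro x
    simp [L]
  have : g '' A = (fun y => g 0 + y) '' (L '' A) := by
    rw [image_image]
    apply image_congr
    intro x _
    exact hg x
  rw [this, image_add_left, measure_preimage_add]
  have hL : MeasurePreserving L.toMeasurableEquiv volume volume := L.measurePreserving
  have : (L '' A) = L.toMeasurableEquiv '' A := rfl
  rw [this, L.toMeasurableEquiv.image_eq_preimage_symm]
  exact hL.symm.measure_preimage_equiv A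

theorem HasDens.image {S : Set ℂ} {p : ℂ} {d : ℝ} (h : HasDens S p d) (g : ℂ ≃ᵢ ℂ) :
    HasDens (g '' S) (g p) d := by
  obtain ⟨t₀, ht₀, h1⟩ := h
  refine ⟨t₀, ht₀, fun t ht htt => ?_⟩
  rw [← h1 t ht htt, ← volume_isometry g (S ∩ ball p t)]
  congr 1
  rw [image_inter g.injective, g.image_ball]

end Pool.Agent.Helper925_SC
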