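import Pool.Agent.Helper925_SC.Ind

/-! Translation to families of subsets of `Fin n`. -/

set_option autoImplicit false

namespace Pool.Agent.Helper925_SC

open Finset

/-- indicator vector -/
def ind {n : ℕ} (x : Finset (Fin n)) : Fin n → Bool := fun i => decide (i ∈ x)

theorem ind_inj {n : ℕ} : Function.Injective (ind : Finset (Fin n) → Fin n → Bool) := by
  intro x y h
  ext i
  have := congrFun h i
  simpa [ind] using this

theorem ind_flip {n : ℕ} (x : Finset (Fin n)) (i : Fin n) :
    ind (symmDiff x {i}) = flip i (ind x) := by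
  funext j
  unfold flip ind
  by_cases hj : j = i
  · subst hj
    rw [Function.update_self]
    by_cases h : j ∈ x <;> simp [mem_symmDiff, h]
  · rw [Function.update_of_ne hj]
    simp [mem_symmDiff, hj]

/-- number of boundary pairs -/
def bd {n : ℕ} (F : Finset (Finset (Fin n))) : ℕ :=
  ((F ×ˢ (univ : Finset (Fin n))).filter (fun p => symmDiff p.1 {p.2} ∉ F)).card

theorem mem_image_ind {n : ℕ} (F : Finset (Finset (Fin n))) (x : Finset (Fin n)) :
    ind x ∈ F.image ind ↔ x ∈ F := by
  rw [mem_image]
  constructor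
  · rintro ⟨y, hy, h⟩
    rwa [← ind_inj h]
  · intro h
    exact ⟨x, h, rfl⟩

theorem bd_E2 {n : ℕ} (F : Finset (Finset (Fin n))) :
    bd F + E2 (F.image ind) = n * F.card := by
  have h1 : ((F ×ˢ (univ : Finset (Fin n))).filter (fun p => symmDiff p.1 {p.2} ∈ F)).card =
      E2 (F.image ind) := by
    unfold E2
    rw [Finset.card_filter, Finset.sum_product_right]
    refine Finset.sum_congr rfl fun i _ => ?_
    rw [← Finset.card_filter]
    refine Finset.card_bij (fun x _ => ind x) ?_ ?_ ?_
    · intro x hx
      rw [mem_filter] at hx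
      rw [mem_filter, mem_image_ind, ← ind_flip, mem_image_ind]
      exact hx
    · intro x _ y _ h
      exact ind_inj h
    · intro y hy
      rw [mem_filter] at hy
      obtain ⟨x, hx, rfl⟩ := mem_image.1 hy.1
      refine ⟨x, mem_filter.2 ⟨hx, ?_⟩, rfl⟩
      rw [← mem_image_ind, ind_flip]
      exact hy.2
  have h2 := Finset.card_filter_add_card_filter_not (s := F ×ˢ (univ : Finset (Fin n)))
    (fun p => symmDiff p.1 {p.2} ∈ F)
  rw [card_product, card_univ, Fintype.card_fin, h1] at h2
  unfold bd
  rw [mul_comm n]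
  omega

/-- the family of all sets agreeing with `S`-complement pattern on `T` -/
def cubeF {n : ℕ} (T : Finset (Fin n)) (a : Fin n → Bool) : Finset (Finset (Fin n)) :=
  univ.filter fun x => ∀ i ∈ T, (i ∈ x ↔ a i = true)

theorem image_cubeF {n : ℕ} (T : Finset (Fin n)) (a : Fin n → Bool) :
    (cubeF T a).image ind = cube T a := by
  ext y
  rw [mem_image, mem_cube]
  constructor
  · rintro ⟨x, hx, rfl⟩ i hi
    have := (mem_filter.1 hx).2 i hi
    unfold ind
    cases h : a i
    · simpa [h] using this
    · simpa [h] using this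
  · intro h
    refine ⟨univ.filter fun i => y i = true, mem_filter.2 ⟨mem_univ _, fun i hi => ?_⟩, ?_⟩
    · rw [mem_filter, h i hi]
      simp
    · funext i
      unfold ind
      simp

theorem card_cube {n : ℕ} (T : Finset (Fin n)) (a : Fin n → Bool) (k : ℕ) (h : T.card + k = n) :
    (cube T a).card = 2 ^ k := by
  have e : cube T a = Fintype.piFinset fun i => if i ∈ T then {a i} else univ := by
    ext x
    rw [mem_cube, Fintype.mem_piFinset]
    constructor
    · intro hx i
      by_cases hi : i ∈ T
      · rw [if_pos hi, mem_singleton]; exact hx i hi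
      · rw [if_neg hi]; exact mem_univ _
    · intro hx i hi
      have := hx i
      rwa [if_pos hi, mem_singleton] at this
  rw [e, Fintype.card_piFinset]
  have h1 : ∀ i : Fin n, (if i ∈ T then ({a i} : Finset Bool) else univ).card =
      if i ∈ T then 1 else 2 := by
    intro i
    by_cases hi : i ∈ T
    · rw [if_pos hi, if_pos hi, card_singleton]
    · rw [if_neg hi, if_neg hi, card_univ, Fintype.card_bool]
  rw [Finset.prod_congr rfl fun i _ => h1 i, Finset.prod_ite, Finset.prod_const_one, one_mul,
    Finset.prod_const]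
  congr 1
  have h2 := Finset.card_filter_add_card_filter_not (s := (univ : Finset (Fin n))) (fun i => i ∈ T)
  rw [Finset.filter_mem_eq_inter, univ_inter, card_univ, Fintype.card_fin] at h2
  omega

theorem card_cubeF {n : ℕ} (T : Finset (Fin n)) (a : Fin n → Bool) (k : ℕ) (h : T.card + k = n) :
    (cubeF T a).card = 2 ^ k := by
  rw [← card_cube T a k h, ← image_cubeF, card_image_of_injective _ ind_inj]

/-- the boundary of a subcube -/
theorem E2_cube {n : ℕ} (T : Finset (Fin n)) (a : Fin n → Bool) (k : ℕ) (h : T.card + k = n) :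
    E2 (cube T a) = k * 2 ^ k := by
  unfold E2
  have h1 : ∀ i : Fin n, ((cube T a).filter fun x => flip i x ∈ cube T a).card =
      if i ∈ T then 0 else 2 ^ k := by
    intro i
    by_cases hi : i ∈ T
    · rw [if_pos hi, card_eq_zero]
      ext x
      rw [mem_filter, mem_cube, mem_cube]
      constructor
      · rintro ⟨hx, hf⟩
        have h2 := hf i hi
        unfold flip at h2
        rw [Function.update_self, hx i hi] at h2
        cases h3 : a i <;> simp [h3] at h2
      · intro h2; exact absurd h2 (notMem_empty _)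
    · rw [if_neg hi, ← card_cube T a k h]
      congr 1
      ext x
      rw [mem_filter, mem_cube, mem_cube]
      constructor
      · intro h2; exact h2.1
      · intro hx
        refine ⟨hx, fun j hj => ?_⟩
        unfold flip
        rw [Function.update_of_ne (by rintro rfl; exact hi hj)]
        exact hx j hj
  rw [Finset.sum_congr rfl fun i _ => h1 i, Finset.sum_ite, Finset.sum_const_zero, zero_add,
    Finset.sum_const, smul_eq_mul]
  congr 1
  have h2 := Finset.card_filter_add_card_filter_not (s := (univ : Finset (Fin n))) (fun i => i ∈ T)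
  rw [Finset.filter_mem_eq_inter, univ_inter, card_univ, Fintype.card_fin] at h2
  omega

theorem symmDiff_image {n : ℕ} (F G : Finset (Finset (Fin n))) :
    (symmDiff (F.image ind) (G.image ind)).card = (symmDiff F G).card := by
  rw [← Finset.image_symmDiff _ _ ind_inj, card_image_of_injective _ ind_inj]

/-- lexicographic initial segments of size `2^k` are subcubes -/
theorem lex_eq {n : ℕ} (k : ℕ) (hk : k ≤ n) (L : Finset (Finset (Fin n))) (hc : L.card = 2 ^ k)
    (hL : ∀ x ∈ L, ∀ y ∉ L, ∃ i ∈ x, i ∉ y ∧ ∀ j < i, (j ∈ x ↔ j ∈ y)) :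
    L = cubeF (univ.filter fun i : Fin n => (i : ℕ) < n - k) (fun _ => true) := by
  set T : Finset (Fin n) := univ.filter fun i : Fin n => (i : ℕ) < n - k with hT
  have hTc : T.card + k = n := by
    have : T.card = n - k := by
      rw [← Finset.card_map Fin.valEmbedding]
      have e : T.map Fin.valEmbedding = Finset.range (n - k) := by
        ext t
        rw [mem_map, mem_range]
        constructor
        · rintro ⟨u, hu, rfl⟩
          exact (mem_filter.1 hu).2
        · intro h
          exact ⟨⟨t, by omega⟩, mem_filter.2 ⟨mem_univ _, h⟩, rfl⟩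
      rw [e, card_range]
    omega
  set C := cubeF T (fun _ => true) with hC
  have hCc : C.card = 2 ^ k := card_cubeF T _ k hTc
  have hCl : ∀ x ∈ C, ∀ y ∉ C, ∃ i ∈ x, i ∉ y ∧ ∀ j < i, (j ∈ x ↔ j ∈ y) := by
    intro x hx y hy
    have hx' : ∀ i ∈ T, i ∈ x := fun i hi => by
      have := (mem_filter.1 hx).2 i hi
      simpa using this
    have hy' : ∃ i ∈ T, i ∉ y := by
      by_contra hno
      push Not at hno
      apply hy
      exact mem_filter.2 ⟨mem_univ _, fun i hi => by simpa using hno i hi⟩
    have hne : (T.filter fun i => i ∉ y).Nonempty := by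
      obtain ⟨i, hi, hiy⟩ := hy'
      exact ⟨i, mem_filter.2 ⟨hi, hiy⟩⟩
    set i0 := (T.filter fun i => i ∉ y).min' hne with hi0
    have hm := Finset.min'_mem _ hne
    rw [← hi0, mem_filter] at hm
    refine ⟨i0, hx' _ hm.1, hm.2, fun j hj => ?_⟩
    have hjT : j ∈ T := by
      rw [hT, mem_filter] at hm ⊢
      refine ⟨mem_univ _, ?_⟩
      have h1 : (j : ℕ) < (i0 : ℕ) := hj
      have h2 := hm.1.2
      omega
    have hjy : j ∈ y := by
      by_contra h
      have hmem : j ∈ T.filter fun i => i ∉ y := mem_filter.2 ⟨hjT, h⟩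
      have := Finset.min'_le _ j hmem
      exact absurd hj (not_lt.2 this)
    exact ⟨fun _ => hjy, fun _ => hx' j hjT⟩
  by_contra hne
  have h1 : (L \ C).Nonempty := by
    rw [Finset.sdiff_nonempty]
    intro h
    exact hne (Finset.eq_of_subset_of_card_le h (by rw [hCc, hc]))
  have h2 : (C \ L).Nonempty := by
    rw [Finset.sdiff_nonempty]
    intro h
    exact hne (Finset.eq_of_subset_of_card_le h (by rw [hCc, hc])).symm
  obtain ⟨x, hx⟩ := h1
  obtain ⟨y, hy⟩ := h2
  rw [mem_sdiff] at hx hy
  obtain ⟨i, hix, hiy, hi⟩ := hL x hx.1 y hy.2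
  obtain ⟨j, hjy, hjx, hj⟩ := hCl y hy.1 x hx.2
  rcases lt_trichotomy i j with h | h | h
  · exact hiy ((hj i h).2 hix)
  · subst h; exact hjx hix
  · exact hjx ((hi j h).2 hjy)

/-- moving the standard subcube -/
theorem image_std {n : ℕ} (k : ℕ) (T0 T : Finset (Fin n)) (a : Fin n → Bool)
    (h0 : T0.card + k = n) (h : T.card + k = n) :
    ∃ σ : Equiv.Perm (Fin n), ∃ S : Finset (Fin n),
      (cubeF T0 (fun _ => true)).image (fun x => symmDiff (x.map σ.toEmbedding) S) = cubeF T a := by
  have hcard : T0.card = T.card := by omega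
  obtain ⟨σ, hσ⟩ : ∃ σ : Equiv.Perm (Fin n), T0.map σ.toEmbedding = T := by
    have e : {i // i ∈ T0} ≃ {i // i ∈ T} := Finset.equivOfCardEq hcard
    refine ⟨e.extendSubtype, ?_⟩
    apply Finset.eq_of_subset_of_card_le
    · intro j hj
      obtain ⟨i, hi, rfl⟩ := mem_map.1 hj
      exact e.extendSubtype_mem i hi
    · rw [card_map, hcard]
  refine ⟨σ, T.filter fun i => a i = false, ?_⟩
  set S := T.filter fun i => a i = false with hS
  apply Finset.eq_of_subset_of_card_le
  · intro y hy
    obtain ⟨x, hx, rfl⟩ := mem_image.1 hy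
    refine mem_filter.2 ⟨mem_univ _, fun i hi => ?_⟩
    have hx' : i ∈ x.map σ.toEmbedding := by
      rw [← hσ] at hi
      obtain ⟨j, hj, rfl⟩ := mem_map.1 hi
      refine mem_map_of_mem _ ?_
      have := (mem_filter.1 hx).2 j hj
      simpa using this
    have hS' : i ∈ S ↔ a i = false := by
      rw [hS, mem_filter]
      exact ⟨fun h5 => h5.2, fun h5 => ⟨hi, h5⟩⟩
    rw [mem_symmDiff]
    constructor
    · rintro (⟨_, h5⟩ | ⟨_, h5⟩)
      · rw [hS'] at h5
        exact Bool.eq_true_of_not_eq_false h5
      · exact absurd hx' h5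
    · intro h5
      refine Or.inl ⟨hx', ?_⟩
      rw [hS', h5]
      simp
  · rw [card_cubeF T a k h, Finset.card_image_of_injective, card_cubeF T0 _ k h0]
    intro x y hxy
    simp only at hxy
    have := (symmDiff_left_injective S) hxy
    exact Finset.map_injective _ this

/-- the statement for sizes which are powers of two -/
theorem final (n : ℕ) (F L : Finset (Finset (Fin n))) (k : ℕ) (hF : F.card = 2 ^ k)
    (hc : L.card = F.card)
    (hL : ∀ x ∈ L, ∀ y ∉ L, ∃ i ∈ x, i ∉ y ∧ ∀ j < i, (j ∈ x ↔ j ∈ y)) :
    ∃ σ : Equiv.Perm (Fin n), ∃ S : Finset (Fin n),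
      (((symmDiff F (L.image (fun x => symmDiff (x.map σ.toEmbedding) S))).card : ℤ) ≤
        2 * ((bd F : ℤ) - (bd L : ℤ))) := by
  have hFc : (F.image ind).card = 2 ^ k := by rw [card_image_of_injective _ ind_inj, hF]
  obtain ⟨T, a, hT, hd⟩ := pow_two_core k (F.image ind) hFc
  have hk : k ≤ n := by omega
  have hLe := lex_eq k hk L (by rw [hc, hF]) hL
  have hT0 : (univ.filter fun i : Fin n => (i : ℕ) < n - k).card + k = n := by
    have h1 : (univ.filter fun i : Fin n => (i : ℕ) < n - k).card = n - k := by
      rw [← Finset.card_map Fin.valEmbedding]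
      have e : (univ.filter fun i : Fin n => (i : ℕ) < n - k).map Fin.valEmbedding =
          Finset.range (n - k) := by
        ext t
        rw [mem_map, mem_range]
        constructor
        · rintro ⟨u, hu, rfl⟩
          exact (mem_filter.1 hu).2
        · intro h
          exact ⟨⟨t, by omega⟩, mem_filter.2 ⟨mem_univ _, h⟩, rfl⟩
      rw [e, card_range]
    omega
  obtain ⟨σ, S, hσ⟩ := image_std k _ T a hT0 hT
  refine ⟨σ, S, ?_⟩
  rw [hLe, hσ]
  have h1 : (symmDiff F (cubeF T a)).card = (symmDiff (F.image ind) (cube T a)).card := by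
    rw [← image_cubeF, symmDiff_image]
  rw [h1]
  have h2 := bd_E2 F
  have h3 := bd_E2 (cubeF (univ.filter fun i : Fin n => (i : ℕ) < n - k) (fun _ => true))
  rw [image_cubeF, E2_cube _ _ k hT0, card_cubeF _ _ k hT0] at h3
  rw [hF] at h2
  omega

end Pool.Agent.Helper925_SC
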