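import Pool.Agent.Helper925_SC.Count

/-! The five prototiles admit no tiling of the plane. -/

open Set Metric Topology MeasureTheory
open scoped ENNReal Real

namespace Pool.Agent.Helper925_SC

section

open Classical

variable {M : ℕ} {ε : ℝ} {A : Set (Set ℂ)}

/-- the tiles of a tiling that meet a given disk about `0` -/
noncomputable def Near (hT : Tiling (2 * M + 7) A) (R : ℝ) : Finset (Set ℂ) :=
  (hT.finite 0 R).toFinset

theorem mem_Near {hT : Tiling (2 * M + 7) A} {R : ℝ} {T : Set ℂ} :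
    T ∈ Near hT R ↔ T ∈ A ∧ (T ∩ closedBall 0 R).Nonempty := by
  unfold Near
  rw [Set.Finite.mem_toFinset]
  rfl

theorem near_step {hT : Tiling (2 * M + 7) A} {R : ℝ} {T T' : Set ℂ} (h : T ∈ Near hT R)
    (hT' : T' ∈ A) {p p' : ℂ} (hp : p ∈ T) (hp' : p' ∈ T') {r : ℝ} (hr : dist p p' ≤ r) :
    T' ∈ Near hT (R + (2 * M + 7) + r) := by
  obtain ⟨h1, y, hy, hyR⟩ := mem_Near.1 h
  refine mem_Near.2 ⟨hT', p', hp', ?_⟩
  rw [mem_closedBall] at hyR ⊢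
  have h2 := (hT.good T h1).diam p hp y hy
  calc dist p' 0 ≤ dist p' y + dist y 0 := dist_triangle _ _ _
    _ ≤ dist p' p + dist p y + dist y 0 := by gcongr; exact dist_triangle _ _ _
    _ ≤ r + (2 * M + 7) + R := by rw [dist_comm p' p]; gcongr
    _ = R + (2 * M + 7) + r := by ring

/-- the tiles near `0` that are copies of `PA` -/
noncomputable def NA (ε : ℝ) (hT : Tiling (2 * M + 7) A) (R : ℝ) : Finset (Set ℂ) :=
  (Near hT R).filter (fun T => ∃ g : ℂ ≃ᵢ ℂ, T = g '' PA M ε)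

/-- the tiles near `0` that are copies of `PB` -/
noncomputable def NB (ε : ℝ) (hT : Tiling (2 * M + 7) A) (R : ℝ) : Finset (Set ℂ) :=
  (Near hT R).filter (fun T => ∃ g : ℂ ≃ᵢ ℂ, T = g '' PB M ε)

/-- the tiles near `0` that are copies of unit-width prototiles -/
noncomputable def NF (ε : ℝ) (hT : Tiling (2 * M + 7) A) (R : ℝ) : Finset (Set ℂ) :=
  (Near hT R).filter (fun T => ∃ (g : ℂ ≃ᵢ ℂ) (a b : ℝ), T = g '' PF a b ∧
    (a = ε ∨ a = 9/8 * ε) ∧ (b = 5/4 * ε ∨ b = 11/8 * ε))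

variable (hε : 0 < ε) (hε1 : ε ≤ 1/12) (hT : Tiling (2 * M + 7) A)
  (hA : ∀ T ∈ A, ∃ K ∈ Protos M ε, ∃ g : ℂ ≃ᵢ ℂ, T = g '' K)

include hε hε1 hA

theorem step1 (R : ℝ) : (NA ε hT R).card * (2 * M + 3) ≤ (NF ε hT (R + (2 * M + 7))).card := by
  set S := (NA ε hT R) ×ˢ (Finset.Icc (-((M:ℤ) + 1)) ((M:ℤ) + 1)) with hS
  have hcard : S.card = (NA ε hT R).card * (2 * M + 3) := by
    rw [hS, Finset.card_product, Int.card_Icc]
    congr 1
    omega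
  rw [← hcard]
  let P : Set ℂ × ℤ → ℂ := fun x => rep (PA M ε) x.1 ⟨x.2, 1 - tA M ε x.2 / 4⟩
  have hS' : ∀ x ∈ S, x.1 ∈ Near hT R ∧ x.1 = rep (PA M ε) x.1 '' PA M ε ∧ |x.2| ≤ (M:ℤ) + 1 := by
    intro x hx
    rw [hS, Finset.mem_product, Finset.mem_Icc] at hx
    have h1 := Finset.mem_filter.1 hx.1
    exact ⟨h1.1, rep_spec h1.2, abs_le.2 hx.2⟩
  have hex : ∀ x : Set ℂ × ℤ, ∃ T', x ∈ S → (P x ∈ x.1 ∧ HasDens x.1 (P x) (2 * q (tA M ε x.2)) ∧
      T' ∈ A ∧ P x ∈ T' ∧ HasDens T' (P x) (2 * q (-tA M ε x.2)) ∧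
      ∃ (g' : ℂ ≃ᵢ ℂ) (b : ℝ), T' = g' '' PF (tA M ε x.2) b ∧
        P x = g' ⟨0, -(tA M ε x.2/4)⟩ ∧ (b = 5/4 * ε ∨ b = 11/8 * ε)) := by
    intro x
    by_cases hx : x ∈ S
    · obtain ⟨h1, h2, h3⟩ := hS' x hx
      obtain ⟨a1, a2, T', a3, a4, a5, a6⟩ := stepA hε hε1 hT hA (mem_Near.1 h1).1 h2 h3
      exact ⟨T', fun _ => ⟨a1, a2, a3, a4, a5, a6⟩⟩
    · exact ⟨∅, fun h => absurd h hx⟩
  choose f hf using hex
  have hsl : ∀ c, ε ≤ tA M ε c ∧ tA M ε c ≤ 9/8 * ε := by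
    intro c; unfold tA; split_ifs <;> constructor <;> linarith
  refine Finset.card_le_card_of_injOn f ?_ ?_
  · intro x hx
    obtain ⟨a1, a2, a3, a4, a5, g', b, a6, a7, a8⟩ := hf x hx
    have h1 := near_step (hS' x hx).1 a3 a1 a4 (r := 0) (by rw [dist_self])
    rw [add_zero] at h1
    refine Finset.mem_coe.2 (Finset.mem_filter.2 ⟨h1, g', _, b, a6, ?_, a8⟩)
    unfold tA; split_ifs
    · exact Or.inl rfl
    · exact Or.inr rfl
  · intro x hx y hy hxy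
    obtain ⟨a1, a2, a3, a4, a5, g, b, a6, a7, a8⟩ := hf x hx
    obtain ⟨b1, b2, b3, b4, b5, g', b', b6, b7, b8⟩ := hf y hy
    have hxy' : f x = f y := hxy
    rw [← hxy'] at b3 b4 b5
    -- the two apex points agree
    have hbsl : IsSl ε b := by rcases a8 with h | h <;> rw [h] <;> right <;> constructor <;> linarith
    have hPP : P y = P x := by
      have c4 := b4
      have c5 := b5
      rw [a6] at c4 c5
      obtain ⟨c, e1, e2, e3⟩ := apex_of_dens hε hε1 ⟨0, by norm_num⟩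
        (fun _ => Or.inr ⟨(hsl x.2).1, by linarith [(hsl x.2).2]⟩) (fun _ => hbsl) g c4 (hsl y.2).1
        (by linarith [(hsl y.2).2]) c5
      have := int_lt_half e1
      subst this
      rw [e2, a7]
      simp
    rw [hPP] at b1 b2
    have hTT : x.1 = y.1 := uniq_notch hε hε1 hT hA a3 (mem_Near.1 (hS' x hx).1).1
      (mem_Near.1 (hS' y hy).1).1 a4 a1 b1 (hsl x.2).1 (by linarith [(hsl x.2).2]) (hsl x.2).1
      (hsl y.2).1 a5 a2 b2
    have hcc : x.2 = y.2 := by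
      have h1 : rep (PA M ε) y.1 ⟨y.2, 1 - tA M ε y.2 / 4⟩
          = rep (PA M ε) x.1 ⟨x.2, 1 - tA M ε x.2 / 4⟩ := hPP
      rw [hTT] at h1
      have h2 := (rep (PA M ε) y.1).injective h1
      have h3 := congrArg Complex.re h2
      simp only at h3
      exact_mod_cast h3.symm
    exact Prod.ext hTT hcc

theorem step2 (R : ℝ) : (NF ε hT R).card ≤ (NB ε hT (R + (2 * M + 7))).card * (2 * M + 1) := by
  set S := (NB ε hT (R + (2 * M + 7))) ×ˢ (Finset.Icc (-(M:ℤ)) (M:ℤ)) with hS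
  have hcard : S.card = (NB ε hT (R + (2 * M + 7))).card * (2 * M + 1) := by
    rw [hS, Finset.card_product, Int.card_Icc]
    congr 1
    omega
  rw [← hcard]
  have hex : ∀ T : Set ℂ, ∃ (x : Set ℂ × ℤ) (p : ℂ) (b : ℝ), T ∈ NF ε hT R →
      (p ∈ T ∧ HasDens T p (2 * q b) ∧ ε ≤ b ∧ b ≤ 3/2 * ε ∧ x.1 ∈ A ∧ p ∈ x.1 ∧
        HasDens x.1 p (2 * q (-b)) ∧ (∃ g' : ℂ ≃ᵢ ℂ, x.1 = g' '' PB M ε) ∧ |x.2| ≤ (M:ℤ) ∧
        p = rep (PB M ε) x.1 ⟨x.2, -(bB ε x.2/4)⟩) := by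
    intro T
    by_cases hx : T ∈ NF ε hT R
    · obtain ⟨h1, g, a, b, h2, h3, h4⟩ := Finset.mem_filter.1 hx
      obtain ⟨a1, a2, T', a3, a4, a5, a6, a7⟩ := stepF hε hε1 hT hA (mem_Near.1 h1).1 h2 h3 h4
      obtain ⟨c, c1, c2⟩ := a7 (rep (PB M ε) T') (rep_spec a6)
      refine ⟨(T', c), g ⟨0, 1 - b / 4⟩, b, fun _ => ⟨a1, a2, ?_, ?_, a3, a4, a5, a6, c1, c2⟩⟩
      · rcases h4 with h | h <;> linarith
      · rcases h4 with h | h <;> linarith
    · exact ⟨(∅, 0), 0, 0, fun h => absurd h hx⟩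
  choose f P B hf using hex
  refine Finset.card_le_card_of_injOn f ?_ ?_
  · intro T hTm
    obtain ⟨a1, a2, a3, a4, a5, a6, a7, a8, a9, a10⟩ := hf T hTm
    have h1 := near_step (Finset.mem_filter.1 hTm).1 a5 a1 a6 (r := 0) (by rw [dist_self])
    rw [add_zero] at h1
    refine Finset.mem_coe.2 ?_
    rw [hS, Finset.mem_product, Finset.mem_Icc]
    exact ⟨Finset.mem_filter.2 ⟨h1, a8⟩, abs_le.1 a9⟩
  · intro T₁ hT₁ T₂ hT₂ hxy
    obtain ⟨a1, a2, a3, a4, a5, a6, a7, a8, a9, a10⟩ := hf T₁ hT₁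
    obtain ⟨b1, b2, b3, b4, b5, b6, b7, b8, b9, b10⟩ := hf T₂ hT₂
    have hxy' : f T₁ = f T₂ := hxy
    rw [← hxy'] at b10
    have hPP : P T₂ = P T₁ := by rw [b10]; exact a10.symm
    rw [hPP] at b1 b2
    exact uniq_notch hε hε1 hT hA a5 (mem_Near.1 (Finset.mem_filter.1 hT₁).1).1
      (mem_Near.1 (Finset.mem_filter.1 hT₂).1).1 a6 a1 b1 a3 a4 a3 b3 a7 a2 b2

theorem step3 (R : ℝ) :
    (NB ε hT R).card ≤ (NA ε hT (R + (2 * M + 7) + (2 * M + 7))).card := by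
  have hex : ∀ T : Set ℂ, ∃ (T' : Set ℂ) (c : ℤ), T ∈ NB ε hT R →
      (T' ∈ A ∧ (∃ g' : ℂ ≃ᵢ ℂ, T' = g' '' PA M ε) ∧
      (∃ p ∈ T, ∃ p' ∈ T', dist p p' ≤ 2 * M + 7) ∧ |c| ≤ (M:ℤ) ∧
        ∀ x : ℝ, |x - c| < M + 1/2 → rep (PA M ε) T' ⟨x, 5/2⟩ ∈ interior T) := by
    intro T
    by_cases hx : T ∈ NB ε hT R
    · obtain ⟨h1, l, h2⟩ := Finset.mem_filter.1 hx
      obtain ⟨T', a1, a2, a3, a4⟩ := stepB hε hε1 hT hA (mem_Near.1 h1).1 h2
      obtain ⟨c, c1, c2⟩ := a4 (rep (PA M ε) T') (rep_spec a2)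
      exact ⟨T', c, fun _ => ⟨a1, a2, a3, c1, c2⟩⟩
    · exact ⟨∅, 0, fun h => absurd h hx⟩
  choose f C hf using hex
  refine Finset.card_le_card_of_injOn f ?_ ?_
  · intro T hTm
    obtain ⟨a1, a2, ⟨p, hp, p', hp', hd⟩, a4, a5⟩ := hf T hTm
    have h1 := near_step (Finset.mem_filter.1 hTm).1 a1 hp hp' hd
    exact Finset.mem_coe.2 (Finset.mem_filter.2 ⟨h1, a2⟩)
  · intro T₁ hT₁ T₂ hT₂ hxy
    obtain ⟨a1, a2, a3, a4, a5⟩ := hf T₁ hT₁
    obtain ⟨b1, b2, b3, b4, b5⟩ := hf T₂ hT₂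
    have hxy' : f T₁ = f T₂ := hxy
    by_contra hne
    have hd := hT.disj T₁ (mem_Near.1 (Finset.mem_filter.1 hT₁).1).1 T₂
      (mem_Near.1 (Finset.mem_filter.1 hT₂).1).1 hne
    have q1 : |(C T₁ : ℝ)| ≤ M := by exact_mod_cast a4
    have q2 : |(C T₂ : ℝ)| ≤ M := by exact_mod_cast b4
    have q1' := abs_le.1 q1
    have q2' := abs_le.1 q2
    have e1 := a5 (((C T₁ : ℝ) + C T₂) / 2) (by rw [abs_lt]; constructor <;> linarith)
    have e2 := b5 (((C T₁ : ℝ) + C T₂) / 2) (by rw [abs_lt]; constructor <;> linarith)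
    rw [← hxy'] at e2
    exact hd.le_bot ⟨e1, e2⟩

theorem step4 (R : ℝ) : (NA ε hT R).card * (2 * M + 3) ≤
    (NA ε hT (R + 4 * (2 * M + 7))).card * (2 * M + 1) := by
  have h1 := step1 hε hε1 hT hA R
  have h2 := step2 hε hε1 hT hA (R + (2 * M + 7))
  have h3 := step3 hε hε1 hT hA (R + (2 * M + 7) + (2 * M + 7))
  have e : R + (2 * M + 7) + (2 * M + 7) + (2 * M + 7) + (2 * M + 7)
      = R + 4 * (2 * (M:ℝ) + 7) := by ring
  rw [e] at h3
  exact h1.trans (h2.trans (Nat.mul_le_mul_right _ h3))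

theorem exists_A : ∃ R, 1 ≤ (NA ε hT R).card := by
  have key : ∀ T ∈ A, (∃ g : ℂ ≃ᵢ ℂ, T = g '' PA M ε) → ∃ R, 1 ≤ (NA ε hT R).card := by
    intro T hTA hg
    obtain ⟨x, hx⟩ := (hT.good T hTA).inner
    have hxT : x ∈ T := hx (mem_ball_self (by norm_num))
    refine ⟨dist x 0, Finset.card_pos.2 ⟨T, Finset.mem_filter.2 ⟨mem_Near.2 ⟨hTA, x, hxT, ?_⟩, hg⟩⟩⟩
    exact mem_closedBall.2 le_rfl
  have keyB : ∀ T ∈ A, (∃ g : ℂ ≃ᵢ ℂ, T = g '' PB M ε) → ∃ R, 1 ≤ (NA ε hT R).card := by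
    rintro T hTA ⟨l, hl⟩
    obtain ⟨T', a1, a2, _, _⟩ := stepB hε hε1 hT hA hTA hl
    exact key T' a1 a2
  have keyF : ∀ T ∈ A, ∀ (g : ℂ ≃ᵢ ℂ) (a b : ℝ), T = g '' PF a b → (a = ε ∨ a = 9/8 * ε) →
      (b = 5/4 * ε ∨ b = 11/8 * ε) → ∃ R, 1 ≤ (NA ε hT R).card := by
    intro T hTA g a b hg ha hb
    obtain ⟨_, _, T', a3, _, _, a6, _⟩ := stepF hε hε1 hT hA hTA hg ha hb
    exact keyB T' a3 a6
  have h0 : (0:ℂ) ∈ ⋃₀ A := by rw [hT.cover]; trivial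
  obtain ⟨T, hTA, _⟩ := h0
  obtain ⟨K, hK, g, hg⟩ := hA T hTA
  rcases hK with h | h | h | h | h
  · exact key T hTA ⟨g, by rw [hg, h]⟩
  · exact keyB T hTA ⟨g, by rw [hg, h]⟩
  · exact keyF T hTA g _ _ (by rw [hg, h]) (Or.inl rfl) (Or.inr rfl)
  · exact keyF T hTA g _ _ (by rw [hg, h]) (Or.inl rfl) (Or.inl rfl)
  · exact keyF T hTA g _ _ (by rw [hg, h]) (Or.inr rfl) (Or.inr rfl)

omit hε hε1 hA in
theorem card_bound {R : ℝ} (hR : 0 ≤ R) :
    ((NA ε hT R).card : ℝ) ≤ 64 * (R + (2 * M + 7)) ^ 2 := by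
  have hpi := Real.pi_pos
  have hM : (0:ℝ) ≤ M := Nat.cast_nonneg M
  set S := NA ε hT R
  have hS : ∀ T ∈ S, T ∈ A ∧ (T ∩ closedBall 0 R).Nonempty :=
    fun T h => mem_Near.1 (Finset.mem_filter.1 h).1
  have h1 : volume (⋃ T ∈ S, interior T) = ∑ T ∈ S, volume (interior T) := by
    apply measure_biUnion_finset
    · intro T hTm T' hTm' hne
      exact hT.disj T (hS T hTm).1 T' (hS T' hTm').1 hne
    · intro T _; exact isOpen_interior.measurableSet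
  have h2 : (⋃ T ∈ S, interior T) ⊆ closedBall (0:ℂ) (R + (2 * M + 7)) := by
    intro z hz
    simp only [mem_iUnion] at hz
    obtain ⟨T, hTS, hzT⟩ := hz
    obtain ⟨hTA, y, hy, hyR⟩ := hS T hTS
    have := (hT.good T hTA).diam z (interior_subset hzT) y hy
    rw [mem_closedBall] at hyR ⊢
    calc dist z 0 ≤ dist z y + dist y 0 := dist_triangle _ _ _
      _ ≤ (2 * M + 7) + R := add_le_add this hyR
      _ = R + (2 * M + 7) := by ring
  have h3 : ∀ T ∈ S, ENNReal.ofReal (π / 64) ≤ volume (interior T) := by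
    intro T hTS
    obtain ⟨x, hx⟩ := (hT.good T (hS T hTS).1).inner
    have h4 : ball x (1/8) ⊆ interior T := interior_maximal hx isOpen_ball
    refine le_trans (le_of_eq ?_) (measure_mono h4)
    rw [Complex.volume_ball, ← ENNReal.ofReal_pow (by norm_num), mul_comm,
      ← ENNReal.ofReal_coe_nnreal, NNReal.coe_real_pi, ← ENNReal.ofReal_mul (by positivity)]
    congr 1
    ring
  have h4 : (S.card : ℝ≥0∞) * ENNReal.ofReal (π / 64) ≤ ∑ T ∈ S, volume (interior T) := by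
    have := Finset.card_nsmul_le_sum S _ _ h3
    rwa [nsmul_eq_mul] at this
  have h5 : (S.card : ℝ≥0∞) * ENNReal.ofReal (π / 64) ≤
      ENNReal.ofReal ((R + (2 * M + 7)) ^ 2 * π) := by
    refine h4.trans ?_
    rw [← h1]
    refine (measure_mono h2).trans (le_of_eq ?_)
    rw [Complex.volume_closedBall, ← ENNReal.ofReal_pow (by positivity),
      ← ENNReal.ofReal_coe_nnreal, NNReal.coe_real_pi, ← ENNReal.ofReal_mul (by positivity)]
  rw [← ENNReal.ofReal_natCast, ← ENNReal.ofReal_mul (by positivity),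
    ENNReal.ofReal_le_ofReal_iff (by positivity)] at h5
  have h6 : (S.card : ℝ) * (π / 64) ≤ (64 * (R + (2 * M + 7)) ^ 2) * (π / 64) := by
    calc (S.card : ℝ) * (π / 64) ≤ (R + (2 * M + 7)) ^ 2 * π := h5
      _ = (64 * (R + (2 * M + 7)) ^ 2) * (π / 64) := by ring
  exact le_of_mul_le_mul_right h6 (by positivity)

include hT in
theorem no_tiling : False := by
  obtain ⟨R₀, hR₀⟩ := exists_A hε hε1 hT hA
  have hM : (0:ℝ) ≤ M := Nat.cast_nonneg M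
  set D : ℝ := 4 * (2 * M + 7) with hD
  have hDpos : 0 < D := by rw [hD]; positivity
  -- growth
  have hgrow : ∀ n : ℕ, (2 * (M:ℝ) + 3) ^ n ≤
      (2 * (M:ℝ) + 1) ^ n * ((NA ε hT (R₀ + n * D)).card : ℝ) := by
    intro n
    induction n with
    | zero =>
      simp only [pow_zero, Nat.cast_zero, zero_mul, add_zero, one_mul]
      exact_mod_cast hR₀
    | succ n ih =>
      have h1 := step4 hε hε1 hT hA (R₀ + n * D)
      have h2 : ((NA ε hT (R₀ + n * D)).card : ℝ) * (2 * M + 3) ≤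
          ((NA ε hT (R₀ + (n + 1 : ℕ) * D)).card : ℝ) * (2 * M + 1) := by
        have e : R₀ + n * D + 4 * (2 * M + 7) = R₀ + (n + 1 : ℕ) * D := by push_cast; rw [hD]; ring
        rw [e] at h1
        exact_mod_cast h1
      calc (2 * (M:ℝ) + 3) ^ (n + 1) = (2 * (M:ℝ) + 3) ^ n * (2 * M + 3) := pow_succ _ _
        _ ≤ ((2 * (M:ℝ) + 1) ^ n * ((NA ε hT (R₀ + n * D)).card : ℝ)) * (2 * M + 3) := by
            gcongr
        _ = (2 * (M:ℝ) + 1) ^ n * (((NA ε hT (R₀ + n * D)).card : ℝ) * (2 * M + 3)) := by ring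
        _ ≤ (2 * (M:ℝ) + 1) ^ n * (((NA ε hT (R₀ + (n + 1 : ℕ) * D)).card : ℝ) * (2 * M + 1)) := by
            gcongr
        _ = _ := by ring
  set r : ℝ := (2 * M + 3) / (2 * M + 1) with hr
  have hr1 : 1 < r := by rw [hr, one_lt_div (by positivity)]; linarith
  set C : ℝ := |R₀| + D + (2 * M + 7) with hC
  have hCpos : 0 < C := by rw [hC]; positivity
  have hbound : ∀ n : ℕ, 1 ≤ n → r ^ n ≤ 64 * C ^ 2 * (n:ℝ) ^ 2 := by
    intro n hn
    have hn' : (1:ℝ) ≤ n := by exact_mod_cast hn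
    have h1 : r ^ n ≤ ((NA ε hT (R₀ + n * D)).card : ℝ) := by
      rw [hr, div_pow, div_le_iff₀ (by positivity)]
      calc (2 * (M:ℝ) + 3) ^ n ≤ _ := hgrow n
        _ = _ := mul_comm _ _
    have h2 : (NA ε hT (R₀ + n * D)).card ≤ (NA ε hT (|R₀| + n * D)).card := by
      apply Finset.card_le_card
      intro T hTm
      obtain ⟨h3, h4⟩ := Finset.mem_filter.1 hTm
      obtain ⟨h5, y, hy, hyR⟩ := mem_Near.1 h3
      refine Finset.mem_filter.2 ⟨mem_Near.2 ⟨h5, y, hy, ?_⟩, h4⟩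
      exact closedBall_subset_closedBall (by linarith [le_abs_self R₀]) hyR
    have h3 := card_bound (ε := ε) hT (R := |R₀| + n * D) (by positivity)
    have h4 : |R₀| + n * D + (2 * M + 7) ≤ C * n := by
      rw [hC]
      nlinarith [abs_nonneg R₀]
    calc r ^ n ≤ ((NA ε hT (R₀ + n * D)).card : ℝ) := h1
      _ ≤ ((NA ε hT (|R₀| + n * D)).card : ℝ) := by exact_mod_cast h2
      _ ≤ 64 * (|R₀| + n * D + (2 * M + 7)) ^ 2 := h3
      _ ≤ 64 * (C * n) ^ 2 := by gcongr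
      _ = 64 * C ^ 2 * (n:ℝ) ^ 2 := by ring
  have hlim := tendsto_pow_const_div_const_pow_of_one_lt 2 hr1
  have hev : ∀ᶠ n : ℕ in Filter.atTop, (n:ℝ) ^ 2 / r ^ n < 1 / (64 * C ^ 2 * 2) :=
    hlim.eventually (gt_mem_nhds (by positivity))
  obtain ⟨N, hN⟩ := Filter.eventually_atTop.1 hev
  have h1 := hN (max N 1) (le_max_left _ _)
  have h2 := hbound (max N 1) (le_max_right _ _)
  have hrp : 0 < r ^ (max N 1) := by positivity
  rw [div_lt_div_iff₀ hrp (by positivity)] at h1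
  nlinarith

end

/-- The five prototiles admit no tiling of the plane. -/
theorem not_admitsTiling {M : ℕ} {ε : ℝ} (hε : 0 < ε) (hε1 : ε ≤ 1/12)
    (hεM : 3/2 * ε * (M + 3/2) < 1/4) : ¬ AdmitsTiling (Protos M ε) := by
  rintro ⟨A, _, hA, hd, hc⟩
  refine no_tiling (M := M) (ε := ε) (A := A) hε hε1 ⟨?_, hd, hc⟩ hA
  intro T hTA
  obtain ⟨K, hK, g, rfl⟩ := hA T hTA
  exact (good_proto hε hε1 hεM hK).image g

end Pool.Agent.Helper925_SC
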