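import Pool.Agent.Helper925_SC.Chain
import Pool.Agent.Helper925_SC.NoTiling

/-! Every tile can be surrounded many times; the number of the prototiles. -/

open Set Metric Topology

namespace Pool.Agent.Helper925_SC

theorem sUnion_img (e : ℂ ≃ᵢ ℂ) (A : Set (Set ℂ)) :
    ⋃₀ ((fun T => e '' T) '' A) = e '' (⋃₀ A) := by
  rw [sUnion_image, sUnion_eq_biUnion, image_iUnion₂]

theorem interior_img (e : ℂ ≃ᵢ ℂ) (T : Set ℂ) : interior (e '' T) = e '' interior T :=
  (e.toHomeomorph.image_interior T).symm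

theorem isTile_img {S : Set (Set ℂ)} {T : Set ℂ} (h : IsTile S T) (e : ℂ ≃ᵢ ℂ) :
    IsTile S (e '' T) := by
  obtain ⟨K, hK, g, rfl⟩ := h
  refine ⟨K, hK, g.trans e, ?_⟩
  rw [image_image]
  rfl

theorem isPatch_img {S A : Set (Set ℂ)} (h : IsPatch S A) (e : ℂ ≃ᵢ ℂ) :
    IsPatch S ((fun T => e '' T) '' A) := by
  obtain ⟨h1, h2, h3, h4⟩ := h
  refine ⟨h1.image _, ?_, ?_, ?_⟩
  · rintro _ ⟨T, hT, rfl⟩
    exact isTile_img (h2 T hT) e
  · rintro _ ⟨T, hT, rfl⟩ _ ⟨T', hT', rfl⟩ hne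
    have hne' : T ≠ T' := fun h => hne (by rw [h])
    simp only
    rw [interior_img, interior_img]
    exact (disjoint_image_iff e.injective).2 (h3 T hT T' hT' hne')
  · rw [sUnion_img]
    exact h4.image e.toHomeomorph

theorem surrounds_img {A B : Set (Set ℂ)} (h : Surrounds B A) (e : ℂ ≃ᵢ ℂ) :
    Surrounds ((fun T => e '' T) '' B) ((fun T => e '' T) '' A) := by
  refine ⟨image_mono h.1, ?_⟩
  rw [sUnion_img, sUnion_img, interior_img]
  exact image_mono h.2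

theorem isPatch_singleton {S : Set (Set ℂ)} (hS : ∀ P ∈ S, IsDisk P) {T : Set ℂ}
    (hT : IsTile S T) : IsPatch S {T} := by
  refine ⟨finite_singleton T, ?_, ?_, ?_⟩
  · intro T' hT'
    rw [mem_singleton_iff.1 hT']
    exact hT
  · intro T₁ h₁ T₂ h₂ hne
    exact absurd ((mem_singleton_iff.1 h₁).trans (mem_singleton_iff.1 h₂).symm) hne
  · rw [sUnion_singleton]
    obtain ⟨K, hK, g, rfl⟩ := hT
    exact (hS K hK).image g.toHomeomorph

/-- Every tile from the five prototiles can be surrounded `k` times. -/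
theorem canSurround_tile {M : ℕ} {ε : ℝ} {k : ℕ} (hM : 4 * k + 8 ≤ M) (hε : 0 < ε)
    (hεM : ε * (8 * M * (2 * M + 3)) ≤ 1) (hD : ∀ P ∈ Protos M ε, IsDisk P) {T : Set ℂ}
    (hT : IsTile (Protos M ε) T) : CanSurround (Protos M ε) k {T} := by
  have hM' : (8:ℝ) ≤ M := by exact_mod_cast (by omega : 8 ≤ M)
  have hε1 : ε ≤ 1/12 := by
    have : (12:ℝ) ≤ 8 * M * (2 * M + 3) := by nlinarith
    have h2 : ε * 12 ≤ ε * (8 * M * (2 * M + 3)) := mul_le_mul_of_nonneg_left this hε.le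
    linarith
  have hεQ : ∀ i : ℕ, i ≤ k → 3/2 * ε * ((((2 * i + 2 : ℤ) : ℝ) + 1/2) * (2 * M + 3) + 1/4)
      < 1/2 := by
    intro i hi
    have h1 : (i:ℝ) ≤ k := by exact_mod_cast hi
    have h2 : 4 * (k:ℝ) + 8 ≤ M := by exact_mod_cast hM
    push_cast
    have h3 : (2 * (i:ℝ) + 2 + 1/2) * (2 * M + 3) ≤ (M/2) * (2 * M + 3) := by
      gcongr; linarith
    have h4 : (2 * (i:ℝ) + 2 + 1/2) * (2 * M + 3) + 1/4 ≤ 8 * M * (2 * M + 3) / 8 := by
      nlinarith
    calc 3/2 * ε * ((2 * (i:ℝ) + 2 + 1/2) * (2 * M + 3) + 1/4)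
        ≤ 3/2 * ε * (8 * M * (2 * M + 3) / 8) := by gcongr
      _ = 3/16 * (ε * (8 * M * (2 * M + 3))) := by ring
      _ ≤ 3/16 * 1 := by gcongr
      _ < 1/2 := by norm_num
  obtain ⟨K, hK, g, hg⟩ := hT
  obtain ⟨n, j, h1, h2, g', hg'⟩ := proto_occurs (ε := ε) (by omega : 1 ≤ M) hK
  set e : ℂ ≃ᵢ ℂ := g'.symm.trans g with he
  have hTe : T = e '' TL M ε n j := by
    rw [hg, hg', image_image]
    congr 1
    funext x
    simp [he]
  have hpatch : ∀ i : ℕ, i ≤ k → IsPatch (Protos M ε) (PT M ε (2 * i + 2) (i + 1)) := by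
    intro i hi
    exact isPatch_PT hε hε1 (by omega) (by omega) (by omega) (hεQ i hi)
  refine ⟨fun i => if i = 0 then {T} else (fun T => e '' T) '' PT M ε (2 * i + 2) (i + 1),
    ?_, ?_, ?_⟩
  · simp
  · intro i hi
    simp only
    split_ifs with h0
    · exact isPatch_singleton hD ⟨K, hK, g, hg⟩
    · exact isPatch_img (hpatch i hi) e
  · intro i hi
    simp only
    rw [if_neg (Nat.succ_ne_zero i)]
    split_ifs with h0
    · subst h0
      have hs := surrounds_PT (M := M) (ε := ε) (Q := 2) (J := 1) hε hε1 (by norm_num) (by omega)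
      have hmem : TL M ε n j ∈ PT M ε 2 1 := ⟨n, j, h1, h2, rfl⟩
      have e1 : (2 * ((0 + 1 : ℕ) : ℤ) + 2) = 2 + 2 := by norm_num
      have e2 : (((0 + 1 : ℕ) : ℤ) + 1) = 1 + 1 := by norm_num
      rw [e1, e2]
      constructor
      · rw [singleton_subset_iff]
        exact ⟨TL M ε n j, hs.1 hmem, hTe.symm⟩
      · rw [sUnion_singleton, sUnion_img, interior_img, hTe]
        exact image_mono ((subset_sUnion_of_mem hmem).trans hs.2)
    · have hs := surrounds_PT (M := M) (ε := ε) (Q := 2 * i + 2) (J := i + 1) hε hε1 (by omega)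
        (by omega)
      have e1 : (2 * ((i + 1 : ℕ) : ℤ) + 2) = 2 * i + 2 + 2 := by push_cast; ring
      have e2 : (((i + 1 : ℕ) : ℤ) + 1) = i + 1 + 1 := by push_cast; ring
      rw [e1, e2]
      exact surrounds_img hs e

/-! ### The number of the prototiles -/

theorem PF_mem_top {a b y : ℝ} (ha : 0 ≤ a) (hb : b ≤ 3) :
    (⟨0, 1 - b/4⟩ : ℂ) ∈ PF a y ↔ y ≤ b := by
  unfold PF Slab
  have h1 : V (fun _ => a) (0:ℝ) = a / 4 := by
    rw [V_eq _ (c := 0) (by norm_num)]; norm_num; ring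
  have h2 : V (fun _ => y) (0:ℝ) = y / 4 := by
    rw [V_eq _ (c := 0) (by norm_num)]; norm_num; ring
  constructor
  · rintro ⟨-, -, h⟩
    simp only at h
    rw [h2] at h
    linarith
  · intro h
    refine ⟨by norm_num, ?_, ?_⟩
    · simp only
      rw [h1]
      linarith
    · simp only
      rw [h2]
      linarith

theorem PF_mem_bot {a b y : ℝ} (ha : 0 ≤ a) (hb : b ≤ 3) :
    (⟨0, -(a/4)⟩ : ℂ) ∈ PF y b ↔ a ≤ y := by
  unfold PF Slab
  have h1 : V (fun _ => y) (0:ℝ) = y / 4 := by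
    rw [V_eq _ (c := 0) (by norm_num)]; norm_num; ring
  have h2 : V (fun _ => b) (0:ℝ) = b / 4 := by
    rw [V_eq _ (c := 0) (by norm_num)]; norm_num; ring
  constructor
  · rintro ⟨-, h, -⟩
    simp only at h
    rw [h1] at h
    linarith
  · intro h
    refine ⟨by norm_num, ?_, ?_⟩
    · simp only
      rw [h1]
      linarith
    · simp only
      rw [h2]
      linarith

theorem corner_mem {w : ℝ} {b t : ℤ → ℝ} {m : ℝ} (hb : Bd m b) (ht : Bd m t) (hm : m ≤ 1)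
    {x : ℝ} : (⟨x, 1/2⟩ : ℂ) ∈ Slab w b t ↔ |x| ≤ w := by
  constructor
  · rintro ⟨h, -, -⟩
    exact h
  · intro h
    have h1 := V_nonneg hb x
    have h2 := V_le ht x
    refine ⟨h, ?_, ?_⟩
    · simp only; linarith
    · simp only; linarith

theorem ncard_Protos {M : ℕ} {ε : ℝ} (hM : 1 ≤ M) (hε : 0 < ε) (hε1 : ε ≤ 1/12) :
    (Protos M ε).ncard = 5 := by
  have hM' : (1:ℝ) ≤ M := by exact_mod_cast hM
  have hm : 3/2 * ε ≤ 1 := by linarith
  have bA := Bd_of_sl hε (tA_sl (M := M) hε)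
  have b0 : Bd (3/2 * ε) (fun _ => (0:ℝ)) := Bd_of_sl hε fun _ => zero_sl
  have bB' := Bd_of_sl hε (bB_sl hε)
  have bc : ∀ c : ℝ, 0 ≤ c → c ≤ 11/8 * ε → Bd (3/2 * ε) (fun _ => c) :=
    fun c h1 h2 _ => ⟨h1, by linarith⟩
  have cA : ∀ x : ℝ, (⟨x, 1/2⟩ : ℂ) ∈ PA M ε ↔ |x| ≤ M + 1 + 1/2 :=
    fun x => corner_mem b0 bA hm
  have cB : ∀ x : ℝ, (⟨x, 1/2⟩ : ℂ) ∈ PB M ε ↔ |x| ≤ M + 1/2 :=
    fun x => corner_mem bB' b0 hm
  have cF : ∀ a b x : ℝ, 0 ≤ a → a ≤ 11/8 * ε → 0 ≤ b → b ≤ 11/8 * ε →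
      ((⟨x, 1/2⟩ : ℂ) ∈ PF a b ↔ |x| ≤ 1/2) :=
    fun a b x h1 h2 h3 h4 => corner_mem (bc a h1 h2) (bc b h3 h4) hm
  have nAB : PA M ε ≠ PB M ε := by
    intro h
    have h1 := (cA (M + 1 + 1/2)).2 (by rw [abs_of_nonneg (by positivity)])
    rw [h, cB, abs_of_nonneg (by positivity)] at h1
    linarith
  have nAF : ∀ a b : ℝ, 0 ≤ a → a ≤ 11/8 * ε → 0 ≤ b → b ≤ 11/8 * ε → PA M ε ≠ PF a b := by
    intro a b h1 h2 h3 h4 h
    have h5 := (cA (M + 1 + 1/2)).2 (by rw [abs_of_nonneg (by positivity)])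
    rw [h, cF a b _ h1 h2 h3 h4, abs_of_nonneg (by positivity)] at h5
    linarith
  have nBF : ∀ a b : ℝ, 0 ≤ a → a ≤ 11/8 * ε → 0 ≤ b → b ≤ 11/8 * ε → PB M ε ≠ PF a b := by
    intro a b h1 h2 h3 h4 h
    have h5 := (cB (M + 1/2)).2 (by rw [abs_of_nonneg (by positivity)])
    rw [h, cF a b _ h1 h2 h3 h4, abs_of_nonneg (by positivity)] at h5
    linarith
  have n34 : PF ε (11/8 * ε) ≠ PF ε (5/4 * ε) := by
    intro h
    have h1 := (PF_mem_top (a := ε) (b := 5/4 * ε) (y := 5/4 * ε) hε.le (by linarith)).2 le_rfl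
    rw [← h, PF_mem_top hε.le (by linarith)] at h1
    linarith
  have n35 : PF ε (11/8 * ε) ≠ PF (9/8 * ε) (11/8 * ε) := by
    intro h
    have h1 := (PF_mem_bot (a := 9/8 * ε) (b := 11/8 * ε) (y := 9/8 * ε) (by linarith)
      (by linarith)).2 le_rfl
    rw [← h, PF_mem_bot (by linarith) (by linarith)] at h1
    linarith
  have n45 : PF ε (5/4 * ε) ≠ PF (9/8 * ε) (11/8 * ε) := by
    intro h
    have h1 := (PF_mem_bot (a := 9/8 * ε) (b := 11/8 * ε) (y := 9/8 * ε) (by linarith)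
      (by linarith)).2 le_rfl
    rw [← h, PF_mem_bot (by linarith) (by linarith)] at h1
    linarith
  unfold Protos
  rw [ncard_insert_of_notMem, ncard_insert_of_notMem, ncard_insert_of_notMem, ncard_pair n45]
  · rintro (h | h)
    · exact n34 h
    · exact n35 h
  · rintro (h | h | h)
    · exact nBF _ _ hε.le (by linarith) (by linarith) le_rfl h
    · exact nBF _ _ hε.le (by linarith) (by linarith) (by linarith) h
    · exact nBF _ _ (by linarith) (by linarith) (by linarith) le_rfl h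
  · rintro (h | h | h | h)
    · exact nAB h
    · exact nAF _ _ hε.le (by linarith) (by linarith) le_rfl h
    · exact nAF _ _ hε.le (by linarith) (by linarith) (by linarith) h
    · exact nAF _ _ (by linarith) (by linarith) (by linarith) le_rfl h

/-- For every `k` there are five disks that do not tile the plane although every single tile can
be surrounded `k` times. -/
theorem five (k : ℕ) : ∃ S : Set (Set ℂ), S.ncard = 5 ∧ (∀ P ∈ S, IsDisk P) ∧ ¬ AdmitsTiling S ∧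
    (∃ A, IsPatch S A ∧ A.ncard = 1) ∧ ∀ A, IsPatch S A → A.ncard = 1 → CanSurround S k A := by
  set M : ℕ := 4 * k + 8 with hM
  set ε : ℝ := 1 / (8 * M * (2 * M + 3)) with hε'
  have hM' : (8:ℝ) ≤ M := by exact_mod_cast (by omega : 8 ≤ M)
  have hpos : (0:ℝ) < 8 * M * (2 * M + 3) := by positivity
  have hε : 0 < ε := by rw [hε']; positivity
  have hεe : ε * (8 * M * (2 * M + 3)) = 1 := by
    rw [hε']; field_simp
  have hε1 : ε ≤ 1/12 := by
    have : (12:ℝ) ≤ 8 * M * (2 * M + 3) := by nlinarith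
    have h2 : ε * 12 ≤ ε * (8 * M * (2 * M + 3)) := mul_le_mul_of_nonneg_left this hε.le
    linarith
  have hεM : 3/2 * ε * (M + 3/2) < 1/4 := by
    have h1 : 3/2 * ε * (M + 3/2) * (32 * M) = 3 := by
      have : 3/2 * ε * (M + 3/2) * (32 * M) = 3 * (ε * (8 * M * (2 * M + 3))) := by ring
      rw [this, hεe]; ring
    by_contra h2
    push Not at h2
    have h3 : 1/4 * (32 * (M:ℝ)) ≤ 3/2 * ε * (M + 3/2) * (32 * M) := by gcongr
    linarith
  have hD : ∀ P ∈ Protos M ε, IsDisk P := fun P hP => isDisk_proto hε hε1 hεM hP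
  refine ⟨Protos M ε, ncard_Protos (by omega) hε hε1, hD, not_admitsTiling hε hε1 hεM, ?_, ?_⟩
  · refine ⟨{PA M ε}, isPatch_singleton hD ?_, ncard_singleton _⟩
    exact ⟨PA M ε, Or.inl rfl, IsometryEquiv.refl ℂ, (image_id _).symm⟩
  · intro A hA hA1
    obtain ⟨T, rfl⟩ := ncard_eq_one.1 hA1
    exact canSurround_tile (by omega) hε hεe.le hD (hA.2.1 T (mem_singleton T))

end Pool.Agent.Helper925_SC
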