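import Pool.Agent.Helper925_SC.Cube

/-! The induction. -/

set_option autoImplicit false

namespace Pool.Agent.Helper925_SC

open Finset

/-- the statement to be proved by induction -/
def Near {n : ℕ} (k : ℕ) (F : Finset (Fin n → Bool)) : Prop :=
  ∃ (T : Finset (Fin n)) (a : Fin n → Bool), T.card + k = n ∧
    ((symmDiff F (cube T a)).card : ℝ) ≤ W F + 2 ^ k * psi (F.card / 2 ^ k)

theorem near_zero {n : ℕ} (F : Finset (Fin n → Bool)) : Near 0 F := by
  have hcube : ∀ a : Fin n → Bool, cube univ a = {a} := by
    intro a
    ext x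
    rw [mem_cube, mem_singleton]
    constructor
    · intro h
      funext i
      exact h i (mem_univ i)
    · rintro rfl i _
      rfl
  have hT : (univ : Finset (Fin n)).card + 0 = n := by simp
  have hW := W_nonneg F
  rcases F.eq_empty_or_nonempty with rfl | ⟨a, ha⟩
  · refine ⟨univ, fun _ => false, hT, ?_⟩
    rw [hcube]
    have e1 : symmDiff (∅ : Finset (Fin n → Bool)) {fun _ => false} = {fun _ => false} := by
      ext x; simp [mem_symmDiff]
    rw [e1, card_singleton, card_empty]
    have e2 : psi (((0 : ℕ) : ℝ) / 2 ^ 0) = 1 := by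
      norm_num [psi]
    rw [e2]
    norm_num
    exact hW
  · refine ⟨univ, a, hT, ?_⟩
    rw [hcube]
    have h1 := card_symmDiff' F {a}
    have e1 : F ∩ {a} = {a} := by
      rw [inter_comm]; exact Finset.inter_eq_left.2 (singleton_subset_iff.2 ha)
    rw [e1, card_singleton] at h1
    have hpos : 0 < F.card := card_pos.2 ⟨a, ha⟩
    have h2 : (symmDiff F {a}).card + 1 = F.card := by omega
    have h3 : ((symmDiff F {a}).card : ℝ) = F.card - 1 := by
      have : ((symmDiff F {a}).card : ℝ) + 1 = F.card := by exact_mod_cast h2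
      linarith
    rw [h3, pow_zero, div_one, one_mul]
    have h4 : (F.card : ℝ) - 1 ≤ psi F.card := by
      rcases Nat.lt_or_ge 1 F.card with h | h
      · have h5 : (2 : ℝ) ≤ F.card := by exact_mod_cast h
        rw [psi_gt _ (by linarith)]
        have := hat5 (F.card : ℝ)
        linarith
      · have h5 : F.card = 1 := by omega
        rw [h5, Nat.cast_one, psi_gt _ (by norm_num)]
        have := hat3 (1 : ℝ)
        linarith
    linarith

theorem scale (k : ℕ) (z q : ℝ) (hz : 0 ≤ z) (hq : 0 ≤ q) :
    2 ^ k * D (z / 2 ^ k) (q / 2 ^ k) = D z q := by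
  rw [← D_smul (2 ^ k) _ _ (by positivity) (by positivity) (by positivity)]
  congr 1 <;> field_simp

/-- lifting a subcube of the half with first coordinate `c` -/
theorem liftA {n : ℕ} (_k : ℕ) (F : Finset (Fin (n + 1) → Bool)) (c : Bool) (T : Finset (Fin n))
    (a : Fin n → Bool) :
    (symmDiff F (cube (insert 0 (T.map (Fin.succEmb n))) (Fin.cons c a))).card =
      (symmDiff (sec c F) (cube T a)).card + (sec (!c) F).card := by
  have he : ∀ A : Finset (Fin n → Bool), symmDiff A ∅ = A := by
    intro A; ext x; simp [mem_symmDiff]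
  rw [card_sec, sec_symmDiff, sec_symmDiff]
  cases c
  · rw [sec_cube_zero, sec_cube_zero' true false (by simp), he]
    simp
  · rw [sec_cube_zero, sec_cube_zero' false true (by simp), he]
    simp [add_comm]

theorem liftB {n : ℕ} (F : Finset (Fin (n + 1) → Bool)) (c : Bool) (T : Finset (Fin n))
    (a : Fin n → Bool) :
    (symmDiff F (cube (T.map (Fin.succEmb n)) (Fin.cons false a))).card + 2 * (sec false F ∩ sec true F).card ≤
      2 * (symmDiff (sec c F) (cube T a)).card + (sec false F).card + (sec true F).card := by
  rw [card_sec, sec_symmDiff, sec_symmDiff, sec_cube_succ, sec_cube_succ]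
  have h1 := card_symmDiff' (sec false F) (sec true F)
  cases c
  · have h2 := symmDiff_tri (sec true F) (sec false F) (cube T a)
    rw [symmDiff_comm (sec true F) (sec false F)] at h2
    omega
  · have h2 := symmDiff_tri (sec false F) (sec true F) (cube T a)
    omega

theorem card_ins {n : ℕ} (T : Finset (Fin n)) :
    (insert 0 (T.map (Fin.succEmb n))).card = T.card + 1 := by
  rw [card_insert_of_notMem, card_map]
  intro h
  obtain ⟨i, _, hi⟩ := mem_map.1 h
  exact Fin.succ_ne_zero i hi

theorem near_all : ∀ (n k : ℕ), k ≤ n → ∀ F : Finset (Fin n → Bool), Near k F := by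
  intro n
  induction n with
  | zero =>
    intro k hk F
    have : k = 0 := by omega
    subst this
    exact near_zero F
  | succ n ih =>
    intro k hk F
    rcases Nat.eq_zero_or_pos k with rfl | hkpos
    · exact near_zero F
    obtain ⟨k', rfl⟩ : ∃ k', k = k' + 1 := ⟨k - 1, by omega⟩
    -- choose the majority half
    obtain ⟨c, hc⟩ : ∃ c : Bool, (sec (!c) F).card ≤ (sec c F).card := by
      rcases le_total (sec true F).card (sec false F).card with h | h
      · exact ⟨false, h⟩
      · exact ⟨true, h⟩
    have hcr : ((sec (!c) F).card : ℝ) ≤ (sec c F).card := by exact_mod_cast hc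
    set m0 : ℝ := ((sec c F).card : ℝ) with hm0
    set m1 : ℝ := ((sec (!c) F).card : ℝ) with hm1
    have hm1n : 0 ≤ m1 := Nat.cast_nonneg _
    have hm0n : 0 ≤ m0 := Nat.cast_nonneg _
    set I : ℝ := ((sec false F ∩ sec true F).card : ℝ) with hI
    have hIle : I ≤ m1 := by
      have : (sec false F ∩ sec true F).card ≤ (sec (!c) F).card := by
        cases c
        · exact Finset.card_le_card Finset.inter_subset_right
        · exact Finset.card_le_card Finset.inter_subset_left
      rw [hI, hm1]
      exact_mod_cast this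
    have hWs : W F = W (sec c F) + W (sec (!c) F) + 2 * D m0 m1 - 4 * I := by
      rw [W_sec]
      cases c
      · rfl
      · rw [hm0, hm1, D_comm]
        simp only [Bool.not_true]
        ring
    have hcard : (F.card : ℝ) = m0 + m1 := by
      rw [card_sec F]
      push_cast
      cases c
      · rfl
      · rw [hm0, hm1]; simp only [Bool.not_true]; ring
    have hW0 := W_nonneg (sec c F)
    have hW1 := W_nonneg (sec (!c) F)
    set t : ℝ := 2 ^ (k' + 1) with ht
    have htpos : 0 < t := by rw [ht]; positivity
    have hDs : t * D (m0 / t) (m1 / t) = D m0 m1 := scale (k' + 1) m0 m1 hm0n hm1n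
    have hy : m0 / t + m1 / t = (F.card : ℝ) / t := by rw [hcard]; ring
    have e0 : t * (m0 / t) = m0 := by field_simp
    have e1 : t * (m1 / t) = m1 := by field_simp
    rcases star (m0 / t) (m1 / t) (by positivity) (div_le_div_of_nonneg_right hcr htpos.le) with
      hA | hB
    · -- first alternative
      have hA' : t * psi (m0 / t) + m1 ≤ t * psi (F.card / t) + 2 * D m0 m1 - 4 * m1 := by
        have := mul_le_mul_of_nonneg_left hA htpos.le
        rw [hy] at this
        have e2 : t * (psi (m0 / t) + m1 / t) = t * psi (m0 / t) + m1 := by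
          rw [mul_add, e1]
        have e3 : t * (psi (F.card / t) + 2 * D (m0 / t) (m1 / t) - 4 * (m1 / t)) =
            t * psi (F.card / t) + 2 * D m0 m1 - 4 * m1 := by
          rw [← hDs]
          linear_combination (-4) * e1
        rw [e2, e3] at this
        exact this
      rcases Nat.lt_or_ge n (k' + 1) with hn | hn
      · -- the whole cube
        have hnk : n = k' := by omega
        refine ⟨∅, fun _ => false, by rw [card_empty]; omega, ?_⟩
        have hu : cube (∅ : Finset (Fin (n + 1))) (fun _ => false) = univ := by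
          ext x; simp [cube]
        rw [hu]
        have h1 := card_symmDiff' F univ
        rw [inter_univ, card_univ] at h1
        have hcu : (Fintype.card (Fin (n + 1) → Bool) : ℝ) = t := by
          rw [ht]; simp [hnk]
        have h2 : ((symmDiff F univ).card : ℝ) = t - F.card := by
          have : ((symmDiff F univ).card : ℝ) + 2 * F.card =
              F.card + (Fintype.card (Fin (n + 1) → Bool) : ℝ) := by exact_mod_cast h1
          rw [hcu] at this
          linarith
        rw [h2, ← ht]
        have hz : m0 / t ≤ 1 / 2 := by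
          rw [div_le_div_iff₀ htpos (by norm_num), one_mul]
          have h3 : (sec c F).card ≤ 2 ^ n := by
            have := Finset.card_le_univ (sec c F)
            simpa using this
          have h4 : m0 ≤ 2 ^ n := by rw [hm0]; exact_mod_cast h3
          rw [ht, pow_succ, ← hnk]
          linarith
        rw [psi_half _ hz] at hA'
        have e4 : t * (1 - m0 / t) = t - m0 := by rw [mul_sub, mul_one, e0]
        rw [e4] at hA'
        rw [hWs, hcard]
        rw [hcard] at hA'
        linarith
      · obtain ⟨T, a, hT, hd⟩ := ih (k' + 1) hn (sec c F)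
        refine ⟨insert 0 (T.map (Fin.succEmb n)), Fin.cons c a, by rw [card_ins]; omega, ?_⟩
        rw [liftA (k' + 1)]
        push_cast
        rw [← ht, ← hm1, hWs]
        rw [← ht, ← hm0] at hd
        linarith
    · -- second alternative
      obtain ⟨T0, a0, hT0, hd0⟩ := ih k' (by omega) (sec c F)
      obtain ⟨T1, a1, hT1, hd1⟩ := ih k' (by omega) (sec (!c) F)
      have hk2 : (2 : ℝ) ^ k' = t / 2 := by rw [ht, pow_succ]; ring
      have hB' : t * psi (2 * (m0 / t)) / 2 + t * psi (2 * (m1 / t)) / 2 + (m0 - m1) ≤
          t * psi (F.card / t) + 2 * D m0 m1 - 4 * m1 := by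
        have := mul_le_mul_of_nonneg_left hB htpos.le
        rw [hy] at this
        have e2 : t * (psi (2 * (m0 / t)) / 2 + psi (2 * (m1 / t)) / 2 + (m0 / t - m1 / t)) =
            t * psi (2 * (m0 / t)) / 2 + t * psi (2 * (m1 / t)) / 2 + (m0 - m1) := by
          linear_combination e0 - e1
        have e3 : t * (psi (F.card / t) + 2 * D (m0 / t) (m1 / t) - 4 * (m1 / t)) =
            t * psi (F.card / t) + 2 * D m0 m1 - 4 * m1 := by
          rw [← hDs]
          linear_combination (-4) * e1
        rw [e2, e3] at this
        exact this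
      have q0 : m0 / 2 ^ k' = 2 * (m0 / t) := by rw [hk2]; field_simp
      have q1 : m1 / 2 ^ k' = 2 * (m1 / t) := by rw [hk2]; field_simp
      rw [← hm0, q0, hk2] at hd0
      rw [← hm1, q1, hk2] at hd1
      have b0 := liftB F c T0 a0
      have b1 := liftB F (!c) T1 a1
      have hs : ((sec false F).card : ℝ) + (sec true F).card = m0 + m1 := by
        rw [← hcard, card_sec F]; push_cast; ring
      have b0' : ((symmDiff F (cube (T0.map (Fin.succEmb n)) (Fin.cons false a0))).card : ℝ) +
          2 * I ≤ 2 * ((symmDiff (sec c F) (cube T0 a0)).card : ℝ) + (m0 + m1) := by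
        rw [← hs, ← add_assoc, hI]
        exact_mod_cast b0
      have b1' : ((symmDiff F (cube (T1.map (Fin.succEmb n)) (Fin.cons false a1))).card : ℝ) +
          2 * I ≤ 2 * ((symmDiff (sec (!c) F) (cube T1 a1)).card : ℝ) + (m0 + m1) := by
        rw [← hs, ← add_assoc, hI]
        exact_mod_cast b1
      have key : ∀ x0 x1 : ℝ, x0 + 2 * I ≤ 2 * (W (sec c F) + t / 2 * psi (2 * (m0 / t))) + (m0 + m1) →
          x1 + 2 * I ≤ 2 * (W (sec (!c) F) + t / 2 * psi (2 * (m1 / t))) + (m0 + m1) →
          x0 ≤ W F + t * psi (F.card / t) ∨ x1 ≤ W F + t * psi (F.card / t) := by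
        intro x0 x1 h0 h1
        by_contra hno
        push Not at hno
        obtain ⟨g0, g1⟩ := hno
        rw [hWs] at g0 g1
        linarith
      rcases key _ _ (b0'.trans (by linarith)) (b1'.trans (by linarith)) with h | h
      · exact ⟨T0.map (Fin.succEmb n), Fin.cons false a0, by rw [card_map]; omega, by
          rw [← ht]; exact h⟩
      · exact ⟨T1.map (Fin.succEmb n), Fin.cons false a1, by rw [card_map]; omega, by
          rw [← ht]; exact h⟩

/-- for `|F| = 2^k` some subcube of dimension `k` is close to `F` -/
theorem pow_two_core {n : ℕ} (k : ℕ) (F : Finset (Fin n → Bool)) (hF : F.card = 2 ^ k) :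
    ∃ (T : Finset (Fin n)) (a : Fin n → Bool), T.card + k = n ∧
      (symmDiff F (cube T a)).card + 2 * E2 F ≤ 2 * (k * 2 ^ k) := by
  have hk : k ≤ n := by
    have h1 := Finset.card_le_univ F
    rw [hF] at h1
    have h2 : Fintype.card (Fin n → Bool) = 2 ^ n := by simp
    rw [h2] at h1
    exact (Nat.pow_le_pow_iff_right (by norm_num)).1 h1
  obtain ⟨T, a, hT, hd⟩ := near_all n k hk F
  refine ⟨T, a, hT, ?_⟩
  have hFr : (F.card : ℝ) = 2 ^ k := by rw [hF]; push_cast; rfl
  have e1 : psi ((F.card : ℝ) / 2 ^ k) = 0 := by
    rw [hFr, div_self (by positivity), psi_gt _ (by norm_num)]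
    apply le_antisymm
    · apply hat_le <;> norm_num
    · exact hat3 1
  rw [e1, mul_zero, add_zero] at hd
  have e2 : W F = 2 * (k * 2 ^ k - E2 F) := by
    unfold W eta
    rw [hFr, Real.logb_pow, Real.logb_self_eq_one (by norm_num)]
    ring
  rw [e2] at hd
  have : ((symmDiff F (cube T a)).card : ℝ) + 2 * E2 F ≤ 2 * (k * 2 ^ k) := by linarith
  exact_mod_cast this

end Pool.Agent.Helper925_SC
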