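import Pool.Agent.Helper925_SC.Tiling

/-! Matching of notches and apexes. -/

open Set Metric Topology MeasureTheory
open scoped ENNReal Real

namespace Pool.Agent.Helper925_SC

theorem Tiling.pair {D : ℝ} {A : Set (Set ℂ)} (h : Tiling D A)
    (hq : ∀ T ∈ A, ∀ p ∈ T, ∃ d, HasDens T p d ∧ 1/4 ≤ d ∧ (d = 1/4 ∨ 7/16 ≤ d))
    {T : Set ℂ} (hT : T ∈ A) {p : ℂ} (hp : p ∈ T) {d₀ : ℝ} (hd₀ : HasDens T p d₀)
    (h1 : 7/16 ≤ d₀) (h2 : d₀ ≤ 9/16) (h3 : d₀ ≠ 1/2) :
    ∃ T' ∈ A, T' ≠ T ∧ p ∈ T' ∧ HasDens T' p (1 - d₀) ∧ ∀ T'' ∈ A, p ∈ T'' → T'' = T ∨ T'' = T' := by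
  classical
  -- the finite set of tiles through p
  have hfin : {T | T ∈ A ∧ p ∈ T}.Finite := by
    refine (h.finite p 1).subset ?_
    rintro T ⟨hTA, hpT⟩
    exact ⟨hTA, p, hpT, mem_closedBall_self (by norm_num)⟩
  set F := hfin.toFinset with hF
  have hFm : ∀ T, T ∈ F ↔ T ∈ A ∧ p ∈ T := by
    intro T; rw [hF, Set.Finite.mem_toFinset]; rfl
  have hex : ∀ T : Set ℂ, ∃ d, T ∈ F → (HasDens T p d ∧ 1/4 ≤ d ∧ (d = 1/4 ∨ 7/16 ≤ d)) := by
    intro T
    by_cases hTF : T ∈ F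
    · obtain ⟨d, hd⟩ := hq T ((hFm T).1 hTF).1 p ((hFm T).1 hTF).2
      exact ⟨d, fun _ => hd⟩
    · exact ⟨0, fun hh => absurd hh hTF⟩
  choose d hd using hex
  have hsum := h.sum_dens p F hFm d (fun T hTF => ⟨(hd T hTF).1, by have := (hd T hTF).2.1; linarith⟩)
  have hTF : T ∈ F := (hFm T).2 ⟨hT, hp⟩
  have hdT : d T = d₀ := (hd T hTF).1.unique hd₀ (by have := (hd T hTF).2.1; linarith) (by linarith)
  rw [← Finset.add_sum_erase F d hTF, hdT] at hsum
  set G := F.erase T with hG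
  have hGF : ∀ T' ∈ G, T' ∈ F ∧ T' ≠ T := fun T' hT' =>
    ⟨Finset.mem_of_mem_erase hT', Finset.ne_of_mem_erase hT'⟩
  have hlow : (G.card : ℝ) * (1/4) ≤ ∑ T' ∈ G, d T' := by
    have := Finset.card_nsmul_le_sum G d (1/4) (fun T' hT' => (hd T' (hGF T' hT').1).2.1)
    simpa using this
  have hcard : G.card ≤ 2 := by
    by_contra hcon
    push Not at hcon
    have : (3:ℝ) ≤ (G.card : ℝ) := by exact_mod_cast hcon
    linarith
  interval_cases hc : G.card
  · rw [Finset.card_eq_zero] at hc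
    rw [hc, Finset.sum_empty] at hsum
    linarith
  · obtain ⟨T', hT'⟩ := Finset.card_eq_one.1 hc
    have hT'G : T' ∈ G := by rw [hT']; exact Finset.mem_singleton_self _
    obtain ⟨hT'F, hne⟩ := hGF T' hT'G
    rw [hT', Finset.sum_singleton] at hsum
    have hdT' : d T' = 1 - d₀ := by linarith
    refine ⟨T', ((hFm T').1 hT'F).1, hne, ((hFm T').1 hT'F).2, ?_, ?_⟩
    · rw [← hdT']; exact (hd T' hT'F).1
    · intro T'' hT'' hp''
      by_cases h4 : T'' = T
      · exact Or.inl h4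
      · right
        have : T'' ∈ G := Finset.mem_erase.2 ⟨h4, (hFm T'').2 ⟨hT'', hp''⟩⟩
        rw [hT'] at this
        exact Finset.mem_singleton.1 this
  · obtain ⟨T₁, T₂, h12, hT'⟩ := Finset.card_eq_two.1 hc
    have e1 : T₁ ∈ G := by rw [hT']; simp
    have e2 : T₂ ∈ G := by rw [hT']; simp
    rw [hT', Finset.sum_pair h12] at hsum
    have a1 := (hd T₁ (hGF T₁ e1).1).2
    have a2 := (hd T₂ (hGF T₂ e2).1).2
    exfalso
    rcases a1.2 with b1 | b1
    · rcases a2.2 with b2 | b2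
      · apply h3; linarith
      · linarith
    · linarith [a2.1]

/-- The slopes in use: zero, or between `ε` and `3ε/2`. -/
def IsSl (ε x : ℝ) : Prop := x = 0 ∨ (ε ≤ x ∧ x ≤ 3/2 * ε)

theorem q_strictMono : StrictMono q := by
  intro a b hab
  have := Real.arctan_strictMono hab
  have hpi := Real.pi_pos
  unfold q
  gcongr

theorem q_eq (x : ℝ) : q x = 1/4 + Real.arctan x / (2 * π) := by
  have hpi := Real.pi_pos
  unfold q
  field_simp
  ring

theorem arctan_le_self' {x : ℝ} (hx : 0 ≤ x) : Real.arctan x ≤ x := by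
  rcases hx.eq_or_lt with h | h
  · rw [← h, Real.arctan_zero]
  · have h1 : 0 < Real.arctan x := by
      rw [← Real.arctan_zero]; exact Real.arctan_strictMono h
    have := Real.lt_tan h1 (Real.arctan_lt_pi_div_two x)
    rw [Real.tan_arctan] at this
    exact this.le

theorem q_lt_of_double {ε a x : ℝ} (hε : 0 < ε) (hε1 : ε ≤ 1/12) (ha : ε ≤ a) (hx : x ≤ 3/2 * ε) :
    q x - 1/4 < 2 * (q a - 1/4) := by
  have hpi := Real.pi_pos
  have h1 : Real.arctan x ≤ Real.arctan (3/2 * ε) := Real.arctan_strictMono.monotone hx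
  have h2 : Real.arctan ε ≤ Real.arctan a := Real.arctan_strictMono.monotone ha
  have h3 : Real.arctan (3/2 * ε) < 2 * Real.arctan ε := by
    rw [Real.two_mul_arctan (by linarith) (by linarith)]
    apply Real.arctan_strictMono
    rw [lt_div_iff₀ (by nlinarith)]
    nlinarith [sq_nonneg ε, mul_pos hε hε]
  have h4 : Real.arctan x / (2 * π) < (2 * Real.arctan a) / (2 * π) :=
    div_lt_div_of_pos_right (by linarith) (by positivity)
  rw [q_eq, q_eq]
  have h5 : (2 * Real.arctan a) / (2 * π) = 2 * (Real.arctan a / (2 * π)) := by ring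
  linarith

theorem q_bound {ε x : ℝ} (hε : 0 < ε) (hε1 : ε ≤ 1/12) (hx : IsSl ε x) :
    1/4 ≤ q x ∧ q x ≤ 1/4 + 1/32 := by
  have hpi := Real.pi_gt_three
  have hx0 : 0 ≤ x := by rcases hx with h | h <;> linarith
  have hx1 : x ≤ 1/8 := by rcases hx with h | h <;> linarith
  constructor
  · rw [← q_zero]; exact q_strictMono.monotone hx0
  · have : Real.arctan x ≤ x := arctan_le_self' hx0
    unfold q
    rw [div_le_iff₀ (by positivity)]
    nlinarith

section char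

variable {ε w : ℝ} {b t : ℤ → ℝ} (hε : 0 < ε) (hε1 : ε ≤ 1/12)
  (hb : ∀ c, IsSl ε (b c)) (ht : ∀ c, IsSl ε (t c))

include hε hε1 hb ht

theorem apex_char {p : ℂ} {a : ℝ} (ha : ε ≤ a) (ha' : a ≤ 3/2 * ε)
    (h : DensCase w b t p (2 * q (-a))) :
    ∃ c : ℤ, |(c:ℝ)| < w ∧ p = ⟨c, -(b c / 4)⟩ ∧ b c = a := by
  have hq := q_bound hε hε1 (x := a) (Or.inr ⟨ha, ha'⟩)
  have hqa : 1/4 < q a := by rw [← q_zero]; exact q_strictMono (by linarith)
  rw [q_neg] at h
  rcases h with h | h | h | ⟨c, _, _, h⟩ | ⟨c, h1, h2, h⟩ | ⟨c, h⟩ | ⟨c, h⟩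
  · linarith
  · linarith
  · linarith
  · have := (q_bound hε hε1 (ht c)).1; linarith
  · refine ⟨c, h1, h2, ?_⟩
    rw [q_neg] at h
    exact q_strictMono.injective (by linarith)
  · rw [q_neg] at h
    have hle : t c ≤ 3/2 * ε := by rcases ht c with h' | h' <;> linarith
    have := q_lt_of_double hε hε1 ha hle
    linarith
  · have := (q_bound hε hε1 (hb c)).1; linarith

theorem notch_char {p : ℂ} {a : ℝ} (ha : ε ≤ a) (ha' : a ≤ 3/2 * ε)
    (h : DensCase w b t p (2 * q a)) :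
    ∃ c : ℤ, |(c:ℝ)| < w ∧ p = ⟨c, 1 - t c / 4⟩ ∧ t c = a := by
  have hq := q_bound hε hε1 (x := a) (Or.inr ⟨ha, ha'⟩)
  have hqa : 1/4 < q a := by rw [← q_zero]; exact q_strictMono (by linarith)
  rcases h with h | h | h | ⟨c, h1, h2, h⟩ | ⟨c, _, _, h⟩ | ⟨c, h⟩ | ⟨c, h⟩
  · linarith
  · linarith
  · linarith
  · refine ⟨c, h1, h2, ?_⟩
    exact q_strictMono.injective (by linarith)
  · rw [q_neg] at h
    have := (q_bound hε hε1 (hb c)).1; linarith
  · rw [q_neg] at h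
    have := (q_bound hε hε1 (ht c)).1; linarith
  · have hle : b c ≤ 3/2 * ε := by rcases hb c with h' | h' <;> linarith
    have := q_lt_of_double hε hε1 ha hle
    linarith

theorem dens_range {p : ℂ} {d : ℝ} (h : DensCase w b t p d) : 1/4 ≤ d ∧ (d = 1/4 ∨ 7/16 ≤ d) := by
  rcases h with h | h | h | ⟨c, h1, h2, h⟩ | ⟨c, _, _, h⟩ | ⟨c, h⟩ | ⟨c, h⟩
  · exact ⟨h.ge, Or.inl h⟩
  · exact ⟨by linarith, Or.inr (by linarith)⟩
  · exact ⟨by linarith, Or.inr (by linarith)⟩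
  · have := (q_bound hε hε1 (ht c)).1
    exact ⟨by linarith, Or.inr (by linarith)⟩
  · rw [q_neg] at h
    have := (q_bound hε hε1 (hb c)).2
    exact ⟨by linarith, Or.inr (by linarith)⟩
  · rw [q_neg] at h
    have := (q_bound hε hε1 (ht c)).2
    exact ⟨by linarith, Or.inr (by linarith)⟩
  · have := (q_bound hε hε1 (hb c)).1
    exact ⟨by linarith, Or.inr (by linarith)⟩

end char

end Pool.Agent.Helper925_SC
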