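import Mathlib

/-! The function `D(z,q) = (z+q) log (z+q) - z log z - q log q` (base 2). -/

set_option autoImplicit false

namespace Pool.Agent.Helper925_SC

/-- `x log₂ x` -/
noncomputable def eta (x : ℝ) : ℝ := x * Real.logb 2 x

/-- `(z+q) log₂ (z+q) - z log₂ z - q log₂ q` -/
noncomputable def D (z q : ℝ) : ℝ := eta (z + q) - eta z - eta q

theorem log2_pos : 0 < Real.log 2 := Real.log_pos (by norm_num)

theorem eta_zero : eta 0 = 0 := by simp [eta]

theorem eta_one : eta 1 = 0 := by simp [eta]

theorem eta_mul (t x : ℝ) (ht : 0 < t) (hx : 0 ≤ x) :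
    eta (t * x) = t * eta x + t * x * Real.logb 2 t := by
  rcases eq_or_lt_of_le hx with h | h
  · rw [← h]; simp [eta]
  · unfold eta
    rw [Real.logb_mul ht.ne' h.ne']
    ring

theorem D_smul (t z q : ℝ) (ht : 0 ≤ t) (hz : 0 ≤ z) (hq : 0 ≤ q) :
    D (t * z) (t * q) = t * D z q := by
  rcases eq_or_lt_of_le ht with h | h
  · rw [← h]; simp [D, eta_zero]
  · unfold D
    rw [← mul_add, eta_mul t _ h (by linarith), eta_mul t z h hz, eta_mul t q h hq]
    ring

theorem D_zero (z : ℝ) : D z 0 = 0 := by simp [D, eta_zero]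

theorem D_comm (z q : ℝ) : D z q = D q z := by
  unfold D; rw [add_comm]; ring

/-- the term `z (log Y - log z)` -/
theorem term_le (z Y w : ℝ) (hz : 0 ≤ z) (hzY : z ≤ Y) (hw : 0 < w) :
    z * (Real.log Y - Real.log z) ≤ z * Real.log w + Y / w - z := by
  rcases eq_or_lt_of_le hz with h | h
  · subst h
    have : 0 ≤ Y / w := by positivity
    simp only [zero_mul, zero_add, sub_zero]
    exact this
  · have hY : 0 < Y := lt_of_lt_of_le h hzY
    have h1 := Real.log_le_sub_one_of_pos (x := Y / (z * w)) (by positivity)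
    rw [Real.log_div hY.ne' (by positivity), Real.log_mul h.ne' hw.ne'] at h1
    have h2 := mul_le_mul_of_nonneg_left h1 hz
    have h3 : z * (Y / (z * w) - 1) = Y / w - z := by
      field_simp
    rw [h3] at h2
    linarith

theorem logsum (z z' Y Y' : ℝ) (hz : 0 ≤ z) (hz' : 0 ≤ z') (hY : z ≤ Y) (hY' : z' ≤ Y') :
    z * (Real.log Y - Real.log z) + z' * (Real.log Y' - Real.log z') ≤
      (z + z') * (Real.log (Y + Y') - Real.log (z + z')) := by
  rcases eq_or_lt_of_le (add_nonneg hz hz') with h | h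
  · have h1 : z = 0 := by linarith
    have h2 : z' = 0 := by linarith
    subst h1; subst h2; simp
  · have hYY : 0 < Y + Y' := by linarith
    have hw : 0 < (Y + Y') / (z + z') := by positivity
    have h1 := term_le z Y _ hz hY hw
    have h2 := term_le z' Y' _ hz' hY' hw
    rw [Real.log_div hYY.ne' h.ne'] at h1 h2
    have h3 : Y / ((Y + Y') / (z + z')) + Y' / ((Y + Y') / (z + z')) = z + z' := by
      field_simp
    linarith

theorem eta_eq (x : ℝ) : eta x = x * Real.log x / Real.log 2 := by
  unfold eta Real.logb; ring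

theorem D_add (z q z' q' : ℝ) (hz : 0 ≤ z) (hq : 0 ≤ q) (hz' : 0 ≤ z') (hq' : 0 ≤ q') :
    D z q + D z' q' ≤ D (z + z') (q + q') := by
  have h1 := logsum z z' (z + q) (z' + q') hz hz' (by linarith) (by linarith)
  have h2 := logsum q q' (z + q) (z' + q') hq hq' (by linarith) (by linarith)
  have e : z + z' + (q + q') = z + q + (z' + q') := by ring
  unfold D
  simp only [eta_eq]
  rw [e]
  have hl := log2_pos
  have h3 : ((z + q) * Real.log (z + q) - z * Real.log z - q * Real.log q) +
      ((z' + q') * Real.log (z' + q') - z' * Real.log z' - q' * Real.log q') ≤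
      (z + q + (z' + q')) * Real.log (z + q + (z' + q')) - (z + z') * Real.log (z + z') -
        (q + q') * Real.log (q + q') := by linarith
  have h4 := div_le_div_of_nonneg_right h3 hl.le
  calc _ = (((z + q) * Real.log (z + q) - z * Real.log z - q * Real.log q) +
      ((z' + q') * Real.log (z' + q') - z' * Real.log z' - q' * Real.log q')) / Real.log 2 := by ring
    _ ≤ _ := h4
    _ = _ := by ring

theorem D_self (q : ℝ) (hq : 0 ≤ q) : D q q = 2 * q := by
  rcases eq_or_lt_of_le hq with h | h
  · rw [← h]; simp [D, eta_zero]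
  · have e : q + q = 2 * q := by ring
    unfold D
    rw [e, eta_mul 2 q (by norm_num) hq]
    have : Real.logb 2 2 = 1 := Real.logb_self_eq_one (by norm_num)
    rw [this]; ring

theorem D_ge (z q : ℝ) (hq : 0 ≤ q) (hzq : q ≤ z) : 2 * q ≤ D z q := by
  have h1 := D_add (z - q) 0 q q (by linarith) le_rfl hq hq
  rw [D_zero, D_self q hq] at h1
  have e : z - q + q = z := by ring
  rw [e, zero_add, zero_add] at h1
  exact h1

/-- numeric lower bounds -/
theorem D_num (a b s R N : ℕ) (ha : 0 < a) (hb : 0 < b) (hs : 0 < s) (hN : 0 < N)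
    (h : 2 ^ R * (a ^ (s * a) * b ^ (s * b)) ≤ (a + b) ^ (s * (a + b))) :
    (R : ℝ) / (s * N) ≤ D ((a : ℝ) / N) ((b : ℝ) / N) := by
  have ha' : (0 : ℝ) < a := by exact_mod_cast ha
  have hb' : (0 : ℝ) < b := by exact_mod_cast hb
  have hs' : (0 : ℝ) < s := by exact_mod_cast hs
  have hN' : (0 : ℝ) < N := by exact_mod_cast hN
  have e1 : D ((a : ℝ) / N) ((b : ℝ) / N) = (1 / N) * D a b := by
    rw [← D_smul (1 / N) a b (by positivity) ha'.le hb'.le]
    congr 1 <;> ring
  rw [e1]
  have h1 : (R : ℝ) + (s * a) * Real.logb 2 a + (s * b) * Real.logb 2 b ≤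
      (s * (a + b)) * Real.logb 2 (a + b) := by
    have h2 : ((2 : ℝ) ^ R * ((a : ℝ) ^ (s * a) * (b : ℝ) ^ (s * b))) ≤
        ((a : ℝ) + b) ^ (s * (a + b)) := by exact_mod_cast h
    have h3 := Real.logb_le_logb_of_le (b := 2) (by norm_num) (by positivity) h2
    rw [Real.logb_mul (by positivity) (by positivity), Real.logb_mul (by positivity) (by positivity),
      Real.logb_pow, Real.logb_pow, Real.logb_pow, Real.logb_pow,
      Real.logb_self_eq_one (by norm_num)] at h3
    push_cast at h3
    linarith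
  have h4 : (R : ℝ) ≤ s * D a b := by
    unfold D eta
    linarith
  rw [div_le_iff₀ (by positivity)]
  calc (R : ℝ) ≤ s * D a b := h4
    _ = 1 / N * D a b * (s * N) := by field_simp

end Pool.Agent.Helper925_SC
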