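import Pool.Agent.Helper925_SC.Protos

/-! Large patches made of horizontal rows of tiles. -/

open Set Metric Topology

namespace Pool.Agent.Helper925_SC

section

open Classical

/-- slopes of the interfaces between a row of copies of `PA` and the row above it -/
noncomputable def muU (M : ℕ) (ε : ℝ) : ℤ → ℝ :=
  fun c => if ∃ i : ℤ, |c - i * (2 * M + 3)| ≤ M then ε else 9/8 * ε

/-- slopes of the interfaces between a row of copies of `PB` and the row below it -/
noncomputable def muT (M : ℕ) (ε : ℝ) : ℤ → ℝ :=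
  fun c => if (2 * (M:ℤ) + 1) ∣ c then 5/4 * ε else 11/8 * ε

/-- slopes of the interface below row `n` -/
noncomputable def mu (M : ℕ) (ε : ℝ) (n : ℤ) : ℤ → ℝ :=
  if n % 3 = 0 then fun _ => 0 else if n % 3 = 1 then muU M ε else muT M ε

/-- width of the tiles of row `n` -/
def wd (M : ℕ) (n : ℤ) : ℤ := if n % 3 = 0 then 2 * M + 3 else if n % 3 = 1 then 1 else 2 * M + 1

/-- range of the indices of the tiles used in row `n` -/
def kap (M : ℕ) (n q : ℤ) : ℤ := if n % 3 = 1 then q * (2 * M + 3) + M + 1 else q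

/-- the interface below row `n` -/
noncomputable def IF (M : ℕ) (ε : ℝ) (n : ℤ) (x : ℝ) : ℝ := n - V (mu M ε n) x

/-- the tile number `j` of row `n` -/
noncomputable def TL (M : ℕ) (ε : ℝ) (n j : ℤ) : Set ℂ :=
  {z | |z.re - ((j * wd M n : ℤ) : ℝ)| ≤ (wd M n : ℝ) / 2 ∧ IF M ε n z.re ≤ z.im ∧
    z.im ≤ IF M ε (n + 1) z.re}

variable {M : ℕ} {ε : ℝ}

theorem muU_cases (c : ℤ) : muU M ε c = ε ∨ muU M ε c = 9/8 * ε := by
  unfold muU; split_ifs
  · exact Or.inl rfl
  · exact Or.inr rfl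

theorem muT_cases (c : ℤ) : muT M ε c = 5/4 * ε ∨ muT M ε c = 11/8 * ε := by
  unfold muT; split_ifs
  · exact Or.inl rfl
  · exact Or.inr rfl

theorem Bd_mu (hε : 0 < ε) (n : ℤ) : Bd (3/2 * ε) (mu M ε n) := by
  intro c
  unfold mu
  split_ifs
  · constructor <;> simp only <;> linarith
  · rcases muU_cases (M := M) (ε := ε) c with h | h <;> rw [h] <;> constructor <;> linarith
  · rcases muT_cases (M := M) (ε := ε) c with h | h <;> rw [h] <;> constructor <;> linarith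

theorem wd_pos (n : ℤ) : 1 ≤ wd M n := by
  unfold wd; split_ifs <;> omega

theorem mod_cases (n : ℤ) : n % 3 = 0 ∨ n % 3 = 1 ∨ n % 3 = 2 := by omega

theorem TL_image (n j : ℤ) (b t : ℤ → ℝ)
    (hb : ∀ c : ℤ, 2 * |c - j * wd M n| ≤ wd M n → b (c - j * wd M n) = mu M ε n c)
    (ht : ∀ c : ℤ, 2 * |c - j * wd M n| ≤ wd M n → t (c - j * wd M n) = mu M ε (n + 1) c) :
    TL M ε n j = (IsometryEquiv.addRight (⟨((j * wd M n : ℤ) : ℝ), n⟩ : ℂ)) ''
      Slab ((wd M n : ℝ) / 2) b t := by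
  set a : ℤ := j * wd M n with ha
  have hint : ∀ (x : ℝ) (c : ℤ), |x - (a : ℝ)| ≤ (wd M n : ℝ) / 2 → |x - c| < 1/4 →
      2 * |c - a| ≤ wd M n := by
    intro x c h1 h2
    have h3 : |(c:ℝ) - a| ≤ |x - c| + |x - a| := by
      have := abs_sub_le (c:ℝ) x a
      rwa [abs_sub_comm (c:ℝ) x] at this
    have h4 : 2 * |(c:ℝ) - a| < wd M n + 1 := by linarith
    have h5 : 2 * |c - a| < wd M n + 1 := by exact_mod_cast h4
    omega
  have hB : ∀ x : ℝ, |x - (a : ℝ)| ≤ (wd M n : ℝ) / 2 → V b (x - a) = V (mu M ε n) x := by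
    intro x hx
    rw [V_shift]
    exact V_congr fun c hc => hb c (hint x c hx hc)
  have hT : ∀ x : ℝ, |x - (a : ℝ)| ≤ (wd M n : ℝ) / 2 → V t (x - a) = V (mu M ε (n + 1)) x := by
    intro x hx
    rw [V_shift]
    exact V_congr fun c hc => ht c (hint x c hx hc)
  ext z
  constructor
  · rintro ⟨h1, h2, h3⟩
    refine ⟨z - ⟨(a:ℝ), n⟩, ⟨?_, ?_, ?_⟩, ?_⟩
    · simpa only [Complex.sub_re] using h1
    · simp only [Complex.sub_re, Complex.sub_im]
      rw [hB _ h1]
      unfold IF at h2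
      linarith
    · simp only [Complex.sub_re, Complex.sub_im]
      rw [hT _ h1]
      unfold IF at h3
      push_cast at h3
      linarith
    · simp
  · rintro ⟨y, ⟨h1, h2, h3⟩, rfl⟩
    have e1 : (IsometryEquiv.addRight (⟨(a:ℝ), n⟩ : ℂ) y).re = y.re + a := by simp
    have e2 : (IsometryEquiv.addRight (⟨(a:ℝ), n⟩ : ℂ) y).im = y.im + n := by simp
    have h4 : |(y.re + (a:ℝ)) - (a:ℝ)| ≤ (wd M n : ℝ) / 2 := by simpa using h1
    refine ⟨?_, ?_, ?_⟩
    · rw [e1]; exact h4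
    · rw [e1, e2]
      have := hB _ h4
      rw [add_sub_cancel_right] at this
      unfold IF
      linarith
    · rw [e1, e2]
      have := hT _ h4
      rw [add_sub_cancel_right] at this
      unfold IF
      push_cast
      linarith

theorem TL_A {n : ℤ} (hn : n % 3 = 0) (j : ℤ) : ∃ g : ℂ ≃ᵢ ℂ, TL M ε n j = g '' PA M ε := by
  have hw : wd M n = 2 * M + 3 := by unfold wd; rw [if_pos hn]
  have hm : mu M ε n = fun _ => 0 := by unfold mu; rw [if_pos hn]
  have hm' : mu M ε (n + 1) = muU M ε := by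
    unfold mu; rw [if_neg (by omega), if_pos (by omega)]
  refine ⟨IsometryEquiv.addRight (⟨((j * wd M n : ℤ) : ℝ), n⟩ : ℂ), ?_⟩
  rw [TL_image n j (fun _ => 0) (tA M ε)]
  · unfold PA
    congr 2
    rw [hw]; push_cast; ring
  · intro c _; rw [hm]
  · intro c hc
    rw [hm']
    rw [hw] at hc ⊢
    unfold tA muU
    by_cases h : |c - j * (2 * (M:ℤ) + 3)| ≤ M
    · rw [if_pos h, if_pos ⟨j, h⟩]
    · rw [if_neg h, if_neg]
      rintro ⟨i, hi⟩
      rcases lt_trichotomy i j with hij | hij | hij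
      · have h1 : (j - i) * (2 * (M:ℤ) + 3) ≥ 2 * M + 3 := by nlinarith
        have h2 := abs_le.1 hi
        have h3 := abs_le.1 (show |c - j * (2 * (M:ℤ) + 3)| ≤ M + 1 by omega)
        have e : (j - i) * (2 * (M:ℤ) + 3) = j * (2 * (M:ℤ) + 3) - i * (2 * (M:ℤ) + 3) := by ring
        linarith [h2.1, h2.2, h3.1, h3.2]
      · rw [hij] at hi; exact h hi
      · have h1 : (i - j) * (2 * (M:ℤ) + 3) ≥ 2 * M + 3 := by nlinarith
        have h2 := abs_le.1 hi
        have h3 := abs_le.1 (show |c - j * (2 * (M:ℤ) + 3)| ≤ M + 1 by omega)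
        have e : (i - j) * (2 * (M:ℤ) + 3) = i * (2 * (M:ℤ) + 3) - j * (2 * (M:ℤ) + 3) := by ring
        linarith [h2.1, h2.2, h3.1, h3.2]

theorem TL_F {n : ℤ} (hn : n % 3 = 1) (j : ℤ) :
    ∃ g : ℂ ≃ᵢ ℂ, TL M ε n j = g '' PF (muU M ε j) (muT M ε j) := by
  have hw : wd M n = 1 := by unfold wd; rw [if_neg (by omega), if_pos hn]
  have hm : mu M ε n = muU M ε := by unfold mu; rw [if_neg (by omega), if_pos hn]
  have hm' : mu M ε (n + 1) = muT M ε := by
    unfold mu; rw [if_neg (by omega), if_neg (by omega)]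
  refine ⟨IsometryEquiv.addRight (⟨((j * wd M n : ℤ) : ℝ), n⟩ : ℂ), ?_⟩
  have key : ∀ c : ℤ, 2 * |c - j * wd M n| ≤ wd M n → c = j := by
    intro c hc
    rw [hw] at hc
    have h1 : |c - j * 1| < 1 := by omega
    have := Int.abs_lt_one_iff.1 h1
    omega
  rw [TL_image n j (fun _ => muU M ε j) (fun _ => muT M ε j)]
  · unfold PF
    congr 2
    rw [hw]; push_cast; ring
  · intro c hc; rw [hm, key c hc]
  · intro c hc; rw [hm', key c hc]

theorem TL_B {n : ℤ} (hn : n % 3 = 2) (j : ℤ) : ∃ g : ℂ ≃ᵢ ℂ, TL M ε n j = g '' PB M ε := by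
  have hw : wd M n = 2 * M + 1 := by unfold wd; rw [if_neg (by omega), if_neg (by omega)]
  have hm : mu M ε n = muT M ε := by unfold mu; rw [if_neg (by omega), if_neg (by omega)]
  have hm' : mu M ε (n + 1) = fun _ => 0 := by
    unfold mu; rw [if_pos (by omega)]
  refine ⟨IsometryEquiv.addRight (⟨((j * wd M n : ℤ) : ℝ), n⟩ : ℂ), ?_⟩
  rw [TL_image n j (bB ε) (fun _ => 0)]
  · unfold PB
    congr 2
    rw [hw]; push_cast; ring
  · intro c hc
    rw [hm]
    rw [hw] at hc ⊢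
    unfold bB muT
    by_cases h : c - j * (2 * (M:ℤ) + 1) = 0
    · rw [if_pos h, if_pos ⟨j, by linarith⟩]
    · rw [if_neg h, if_neg]
      rintro ⟨i, hi⟩
      apply h
      have h1 : c - j * (2 * (M:ℤ) + 1) = (i - j) * (2 * (M:ℤ) + 1) := by rw [hi]; ring
      rw [h1] at hc ⊢
      rw [abs_mul, abs_of_nonneg (show (0:ℤ) ≤ 2 * M + 1 by omega)] at hc
      have h2 : |i - j| < 1 := by
        by_contra h3
        push Not at h3
        nlinarith
      rw [Int.abs_lt_one_iff.1 h2]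
      ring
  · intro c _; rw [hm']

/-- Where the central slope of `PB` meets the row below, the slope there is `ε`. -/
theorem muU_of_muT {q j : ℤ} (hq : 2 * q < M) (hj : |j| ≤ q * (2 * M + 3) + M + 1)
    (h : (2 * (M:ℤ) + 1) ∣ j) : muU M ε j = ε := by
  obtain ⟨i, rfl⟩ := h
  have h1 : |i| ≤ q := by
    by_contra h2
    push Not at h2
    rw [abs_mul, abs_of_nonneg (show (0:ℤ) ≤ 2 * M + 1 by omega)] at hj
    have h3 : q + 1 ≤ |i| := h2
    nlinarith
  unfold muU
  rw [if_pos]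
  refine ⟨i, ?_⟩
  have e : (2 * (M:ℤ) + 1) * i - i * (2 * M + 3) = -(2 * i) := by ring
  rw [e, abs_neg, abs_mul, abs_two]
  omega

theorem TL_isTile {n j q : ℤ} (hq : 2 * q < M) (hj : |j| ≤ kap M n q) :
    IsTile (Protos M ε) (TL M ε n j) := by
  rcases mod_cases n with hn | hn | hn
  · obtain ⟨g, hg⟩ := TL_A (M := M) (ε := ε) hn j
    exact ⟨PA M ε, Or.inl rfl, g, hg⟩
  · obtain ⟨g, hg⟩ := TL_F (M := M) (ε := ε) hn j
    refine ⟨_, ?_, g, hg⟩
    unfold kap at hj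
    rw [if_pos hn] at hj
    rcases muT_cases (M := M) (ε := ε) j with h | h
    · by_cases hd : (2 * (M:ℤ) + 1) ∣ j
      · have := muU_of_muT (ε := ε) hq hj hd
        rw [this, h]
        exact Or.inr (Or.inr (Or.inr (Or.inl rfl)))
      · have h2 : muT M ε j = 11/8 * ε := by unfold muT; rw [if_neg hd]
        rcases muU_cases (M := M) (ε := ε) j with h' | h'
        · rw [h', h2]
          exact Or.inr (Or.inr (Or.inl rfl))
        · rw [h', h2]
          exact Or.inr (Or.inr (Or.inr (Or.inr rfl)))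
    · rcases muU_cases (M := M) (ε := ε) j with h' | h'
      · rw [h', h]
        exact Or.inr (Or.inr (Or.inl rfl))
      · rw [h', h]
        exact Or.inr (Or.inr (Or.inr (Or.inr rfl)))
  · obtain ⟨g, hg⟩ := TL_B (M := M) (ε := ε) hn j
    exact ⟨PB M ε, Or.inr (Or.inl rfl), g, hg⟩

/-- Each of the five prototiles occurs close to the origin. -/
theorem proto_occurs (hM : 1 ≤ M) {K : Set ℂ} (hK : K ∈ Protos M ε) :
    ∃ n j : ℤ, |n - 1| ≤ 1 ∧ |j| ≤ kap M n (2 - |n - 1|) ∧ ∃ g : ℂ ≃ᵢ ℂ, TL M ε n j = g '' K := by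
  have hM' : (1:ℤ) ≤ M := by exact_mod_cast hM
  have hU0 : muU M ε 0 = ε := by
    unfold muU
    rw [if_pos]
    exact ⟨0, by simp⟩
  have hU1 : muU M ε 1 = ε := by
    unfold muU
    rw [if_pos]
    refine ⟨0, ?_⟩
    rw [zero_mul, sub_zero, abs_one]
    exact hM'
  have hUM : muU M ε (M + 1) = 9/8 * ε := by
    unfold muU
    rw [if_neg]
    rintro ⟨i, hi⟩
    have h1 := abs_le.1 hi
    rcases le_or_gt i 0 with h | h
    · have : i * (2 * (M:ℤ) + 3) ≤ 0 := by nlinarith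
      linarith [h1.1, h1.2]
    · have : 2 * (M:ℤ) + 3 ≤ i * (2 * (M:ℤ) + 3) := by nlinarith
      linarith [h1.1, h1.2]
  have hT0 : muT M ε 0 = 5/4 * ε := by
    unfold muT
    rw [if_pos (dvd_zero _)]
  have hT1 : muT M ε 1 = 11/8 * ε := by
    unfold muT
    rw [if_neg]
    intro h
    have := Int.le_of_dvd one_pos h
    omega
  have hTM : muT M ε (M + 1) = 11/8 * ε := by
    unfold muT
    rw [if_neg]
    intro h
    have := Int.le_of_dvd (by omega) h
    omega
  rcases hK with h | h | h | h | h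
  · obtain ⟨g, hg⟩ := TL_A (M := M) (ε := ε) (n := 0) (by norm_num) 0
    exact ⟨0, 0, by norm_num, by unfold kap; norm_num, g, by rw [h, hg]⟩
  · obtain ⟨g, hg⟩ := TL_B (M := M) (ε := ε) (n := 2) (by norm_num) 0
    exact ⟨2, 0, by norm_num, by unfold kap; norm_num, g, by rw [h, hg]⟩
  · obtain ⟨g, hg⟩ := TL_F (M := M) (ε := ε) (n := 1) (by norm_num) 1
    refine ⟨1, 1, by norm_num, ?_, g, by rw [h, hg, hU1, hT1]⟩
    unfold kap
    norm_num
    omega
  · obtain ⟨g, hg⟩ := TL_F (M := M) (ε := ε) (n := 1) (by norm_num) 0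
    refine ⟨1, 0, by norm_num, ?_, g, by rw [h, hg, hU0, hT0]⟩
    unfold kap
    norm_num
    omega
  · obtain ⟨g, hg⟩ := TL_F (M := M) (ε := ε) (n := 1) (by norm_num) (M + 1)
    have h' : K = PF (9/8 * ε) (11/8 * ε) := h
    refine ⟨1, M + 1, by norm_num, ?_, g, by rw [h', hg, hUM, hTM]⟩
    unfold kap
    norm_num
    rw [abs_of_nonneg (by omega)]
    omega

/-! ### Interiors of the tiles -/

theorem IF_continuous (hε : 0 < ε) (n : ℤ) : Continuous (IF M ε n) :=
  continuous_const.sub (V_continuous (Bd_mu hε n))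

theorem IF_le (hε : 0 < ε) (n : ℤ) (x : ℝ) : IF M ε n x ≤ n := by
  have := V_nonneg (Bd_mu (M := M) hε n) x
  unfold IF; linarith

theorem IF_ge (hε : 0 < ε) (n : ℤ) (x : ℝ) : n - 3/8 * ε ≤ IF M ε n x := by
  have := V_le (Bd_mu (M := M) hε n) x
  unfold IF; linarith

theorem IF_lt (hε : 0 < ε) (hε1 : ε ≤ 1/12) {n n' : ℤ} (h : n < n') (x : ℝ) :
    IF M ε n x < IF M ε n' x := by
  have h1 := IF_le (M := M) hε n x
  have h2 := IF_ge (M := M) hε n' x
  have h3 : (n:ℝ) + 1 ≤ n' := by exact_mod_cast h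
  linarith

theorem IF_mono (hε : 0 < ε) (hε1 : ε ≤ 1/12) {n n' : ℤ} (h : n ≤ n') (x : ℝ) :
    IF M ε n x ≤ IF M ε n' x := by
  rcases h.lt_or_eq with h | h
  · exact (IF_lt hε hε1 h x).le
  · rw [h]

theorem interior_TL {n j : ℤ} {z : ℂ} (hz : z ∈ interior (TL M ε n j)) :
    |z.re - ((j * wd M n : ℤ) : ℝ)| < (wd M n : ℝ) / 2 ∧ IF M ε n z.re < z.im ∧
    z.im < IF M ε (n + 1) z.re := by
  rw [mem_interior_iff_mem_nhds, Metric.mem_nhds_iff] at hz
  obtain ⟨δ, hδ, hball⟩ := hz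
  have hmem : ∀ v : ℂ, ‖v‖ < δ → z + v ∈ TL M ε n j := by
    intro v hv
    apply hball
    rw [mem_ball, dist_eq_norm]
    simpa using hv
  have hd : |δ| / 2 < δ := by rw [abs_of_pos hδ]; linarith
  have h1 := hmem ((δ / 2 : ℝ) : ℂ) (by simpa using hd)
  have h2 := hmem ((-(δ / 2) : ℝ) : ℂ) (by simpa using hd)
  have h3 := hmem (((δ / 2 : ℝ) : ℂ) * Complex.I) (by simpa using hd)
  have h4 := hmem (((-(δ / 2) : ℝ) : ℂ) * Complex.I) (by simpa using hd)
  unfold TL at h1 h2 h3 h4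
  simp only [Set.mem_ofPred_eq, Complex.add_re, Complex.add_im, Complex.ofReal_re, Complex.ofReal_im,
    Complex.mul_re, Complex.mul_im, Complex.I_re, Complex.I_im, mul_zero, mul_one,
    add_zero, sub_self] at h1 h2 h3 h4
  obtain ⟨a1, -, -⟩ := h1
  obtain ⟨b1, -, -⟩ := h2
  obtain ⟨-, -, c3⟩ := h3
  obtain ⟨-, d2, -⟩ := h4
  have a1' := abs_le.1 a1
  have b1' := abs_le.1 b1
  refine ⟨?_, by linarith, by linarith⟩
  rw [abs_lt]
  constructor
  · linarith [b1'.1]
  · linarith [a1'.2]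

theorem TL_disjoint (hε : 0 < ε) (hε1 : ε ≤ 1/12) {n j n' j' : ℤ}
    (hne : TL M ε n j ≠ TL M ε n' j') :
    Disjoint (interior (TL M ε n j)) (interior (TL M ε n' j')) := by
  rw [Set.disjoint_left]
  intro z hz hz'
  obtain ⟨h1, h2, h3⟩ := interior_TL hz
  obtain ⟨h1', h2', h3'⟩ := interior_TL hz'
  have hnn : n = n' := by
    rcases lt_trichotomy n n' with h | h | h
    · exact absurd (h3.trans_le (IF_mono hε hε1 (show n + 1 ≤ n' by omega) z.re)) (not_lt.2 h2'.le)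
    · exact h
    · exact absurd (h3'.trans_le (IF_mono hε hε1 (show n' + 1 ≤ n by omega) z.re)) (not_lt.2 h2.le)
  subst hnn
  apply hne
  have h4 : |((j * wd M n : ℤ) : ℝ) - ((j' * wd M n : ℤ) : ℝ)| < wd M n := by
    have := abs_sub_le ((j * wd M n : ℤ) : ℝ) z.re ((j' * wd M n : ℤ) : ℝ)
    rw [abs_sub_comm ((j * wd M n : ℤ) : ℝ) z.re] at this
    linarith
  have h5 : |j * wd M n - j' * wd M n| < wd M n := by exact_mod_cast h4
  rw [← sub_mul, abs_mul, abs_of_pos (show 0 < wd M n by linarith [wd_pos (M := M) n])] at h5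
  have h6 : |j - j'| < 1 := by
    by_contra h7
    push Not at h7
    have := wd_pos (M := M) n
    nlinarith
  have h7 := Int.abs_lt_one_iff.1 h6
  rw [show j = j' by omega]

end

end Pool.Agent.Helper925_SC
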