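import Pool.Agent.Helper925_SC.SlabDens

/-! Rigidity: a slab whose apex fills a notch of another slab sits straight above it. -/

open Set Metric Topology

namespace Pool.Agent.Helper925_SC

theorem nonneg_of_forall {x k : ℝ} (h : ∀ η : ℝ, 0 < η → 0 ≤ x + η * k) : 0 ≤ x := by
  by_contra hcon
  push Not at hcon
  have hk : 0 ≤ |k| := abs_nonneg k
  have h1 := h (-x / (2 * (|k| + 1))) (by apply div_pos <;> linarith)
  have h2 : k ≤ |k| := le_abs_self k
  have e : -x / (2 * (|k| + 1)) * (2 * (|k| + 1)) = -x := by field_simp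
  have hp : 0 < -x / (2 * (|k| + 1)) := by apply div_pos <;> linarith
  set y := -x / (2 * (|k| + 1))
  nlinarith

/-- the algebraic core: a rotation that maps the cone `y > s|x|` into itself is trivial -/
theorem cone_core {s α β : ℝ} (hs : 0 < s) (hab : α ^ 2 + β ^ 2 = 1)
    (h1 : ∀ y, s < y → s * |α - β * y| ≤ β + α * y)
    (h2 : ∀ y, s < y → s * |α + β * y| ≤ -β + α * y) : α = 1 ∧ β = 0 := by
  have hβ0 : 0 ≤ β * (1 + s ^ 2) := by
    apply nonneg_of_forall (k := α + s * β)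
    intro η hη
    have := h1 (s + η) (by linarith)
    have h3 := le_abs_self (α - β * (s + η))
    nlinarith
  have hβ1 : 0 ≤ -(β * (1 + s ^ 2)) := by
    apply nonneg_of_forall (k := α - s * β)
    intro η hη
    have := h2 (s + η) (by linarith)
    have h3 := le_abs_self (α + β * (s + η))
    nlinarith
  have hβ : β = 0 := by nlinarith [sq_nonneg s]
  subst hβ
  have h3 := h1 (s + 1) (by linarith)
  have h4 := abs_nonneg (α - 0 * (s + 1))
  have hα : 0 ≤ α := by
    have : 0 ≤ 0 + α * (s + 1) := le_trans (by positivity) h3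
    by_contra hcon
    push Not at hcon
    nlinarith
  have : (α - 1) * (α + 1) = 0 := by nlinarith
  rcases mul_eq_zero.1 this with h5 | h5
  · exact ⟨by linarith, rfl⟩
  · linarith

variable {m w₁ w₂ : ℝ} {b₁ t₁ b₂ t₂ : ℤ → ℝ}

/-- small steps up from an apex stay inside -/
theorem apex_step (hb : Bd m b₂) (ht : Bd m t₂) (hm : m ≤ 1) {c : ℤ} (hc : |(c:ℝ)| < w₂) {s x y : ℝ}
    (hs : b₂ c = s) (hxy : s * |x| < y) :
    ∃ r₀ > 0, ∀ r, 0 < r → r ≤ r₀ → (⟨c + r * x, -(s/4) + r * y⟩ : ℂ) ∈ OSlab w₂ b₂ t₂ := by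
  have hs0 : 0 ≤ s := by rw [← hs]; exact (hb c).1
  have hs1 : s ≤ 1 := by rw [← hs]; exact (hb c).2.trans hm
  have hcc := abs_lt.1 hc
  have hy : 0 < y := lt_of_le_of_lt (by positivity) hxy
  set X := |x| + 1 with hX
  have hXpos : 0 < X := by positivity
  have hxX : |x| ≤ X := by linarith
  refine ⟨min ((w₂ - |(c:ℝ)|) / (2 * X)) (min (1 / (4 * X)) (1 / (2 * y))), ?_, ?_⟩
  · refine lt_min (div_pos (by linarith) (by positivity)) (lt_min (by positivity) (by positivity))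
  · intro r hr hr'
    have r1 : r ≤ (w₂ - |(c:ℝ)|) / (2 * X) := hr'.trans (min_le_left _ _)
    have r2 : r ≤ 1 / (4 * X) := hr'.trans ((min_le_right _ _).trans (min_le_left _ _))
    have r3 : r ≤ 1 / (2 * y) := hr'.trans ((min_le_right _ _).trans (min_le_right _ _))
    rw [le_div_iff₀ (by positivity)] at r1 r2 r3
    have hrx : |r * x| ≤ r * X := by rw [abs_mul, abs_of_pos hr]; gcongr
    have hrx' := abs_le.1 hrx
    have hV : V b₂ (c + r * x) = s * (1/4 - |r * x|) := by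
      rw [V_eq b₂ (c := c) (by rw [add_sub_cancel_left]; linarith), add_sub_cancel_left, hs,
        max_eq_right (by linarith)]
    have hVt := V_le ht (c + r * x)
    refine ⟨?_, ?_, ?_⟩
    · simp only
      have h5 := abs_add_le (c:ℝ) (r * x)
      linarith
    · simp only
      rw [hV]
      have h6 : |r * x| = r * |x| := by rw [abs_mul, abs_of_pos hr]
      rw [h6]
      nlinarith
    · simp only
      linarith

/-- small steps down from a notch stay inside -/
theorem notch_step (hb : Bd m b₁) (ht : Bd m t₁) (hm : m ≤ 1) {c : ℤ} (hc : |(c:ℝ)| < w₁) {s x y : ℝ}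
    (hs : t₁ c = s) (hxy : y < s * |x|) :
    ∃ r₀ > 0, ∀ r, 0 < r → r ≤ r₀ → (⟨c + r * x, 1 - s/4 + r * y⟩ : ℂ) ∈ OSlab w₁ b₁ t₁ := by
  have hs0 : 0 ≤ s := by rw [← hs]; exact (ht c).1
  have hs1 : s ≤ 1 := by rw [← hs]; exact (ht c).2.trans hm
  have hcc := abs_lt.1 hc
  set X := |x| + 1 with hX
  have hXpos : 0 < X := by positivity
  have hxX : |x| ≤ X := by linarith
  set Y := |y| + 1 with hY
  have hYpos : 0 < Y := by positivity
  have hyY : |y| ≤ Y := by linarith
  refine ⟨min ((w₁ - |(c:ℝ)|) / (2 * X)) (min (1 / (4 * X)) (1 / (2 * Y))), ?_, ?_⟩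
  · refine lt_min (div_pos (by linarith) (by positivity)) (lt_min (by positivity) (by positivity))
  · intro r hr hr'
    have r1 : r ≤ (w₁ - |(c:ℝ)|) / (2 * X) := hr'.trans (min_le_left _ _)
    have r2 : r ≤ 1 / (4 * X) := hr'.trans ((min_le_right _ _).trans (min_le_left _ _))
    have r3 : r ≤ 1 / (2 * Y) := hr'.trans ((min_le_right _ _).trans (min_le_right _ _))
    rw [le_div_iff₀ (by positivity)] at r1 r2 r3
    have hrx : |r * x| ≤ r * X := by rw [abs_mul, abs_of_pos hr]; gcongr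
    have hry : |r * y| ≤ r * Y := by rw [abs_mul, abs_of_pos hr]; gcongr
    have hrx' := abs_le.1 hrx
    have hry' := abs_le.1 hry
    have hV : V t₁ (c + r * x) = s * (1/4 - |r * x|) := by
      rw [V_eq t₁ (c := c) (by rw [add_sub_cancel_left]; linarith), add_sub_cancel_left, hs,
        max_eq_right (by linarith)]
    have hVb := V_nonneg hb (c + r * x)
    refine ⟨?_, ?_, ?_⟩
    · simp only
      have h5 := abs_add_le (c:ℝ) (r * x)
      linarith
    · simp only
      linarith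
    · simp only
      rw [hV]
      have h6 : |r * x| = r * |x| := by rw [abs_mul, abs_of_pos hr]
      rw [h6]
      nlinarith

theorem rigid (hb₁ : Bd m b₁) (ht₁ : Bd m t₁) (hb₂ : Bd m b₂) (ht₂ : Bd m t₂) (hm : m ≤ 1)
    {c₁ c₂ : ℤ} (hc₁ : |(c₁:ℝ)| < w₁) (hc₂ : |(c₂:ℝ)| < w₂) {s : ℝ} (hs : 0 < s) (hs₁ : t₁ c₁ = s)
    (hs₂ : b₂ c₂ = s) (g h : ℂ ≃ᵢ ℂ)
    (hp : g ⟨c₁, 1 - s/4⟩ = h ⟨c₂, -(s/4)⟩)
    (hd : Disjoint (interior (g '' Slab w₁ b₁ t₁)) (interior (h '' Slab w₂ b₂ t₂))) :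
    (∀ z, h z = g (z + ⟨c₁ - c₂, 1⟩)) ∨ (∀ z, h z = g (-(starRingEnd ℂ) z + ⟨c₁ + c₂, 1⟩)) := by
  set e : ℂ ≃ᵢ ℂ := h.trans g.symm with he
  have hge : ∀ z, g (e z) = h z := by intro z; simp [he]
  have hep : e ⟨c₂, -(s/4)⟩ = ⟨c₁, 1 - s/4⟩ := by
    apply g.injective; rw [hge, hp]
  have hdis : ∀ z, z ∈ OSlab w₂ b₂ t₂ → e z ∈ OSlab w₁ b₁ t₁ → False := by
    intro z hz1 hz2
    have a1 : h z ∈ interior (h '' Slab w₂ b₂ t₂) := by
      have : interior (h '' Slab w₂ b₂ t₂) = h '' interior (Slab w₂ b₂ t₂) :=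
        (h.toHomeomorph.image_interior _).symm
      rw [this]
      exact mem_image_of_mem _ (OSlab_subset_interior hb₂ ht₂ hz1)
    have a2 : h z ∈ interior (g '' Slab w₁ b₁ t₁) := by
      have : interior (g '' Slab w₁ b₁ t₁) = g '' interior (Slab w₁ b₁ t₁) :=
        (g.toHomeomorph.image_interior _).symm
      rw [this, ← hge]
      exact mem_image_of_mem _ (OSlab_subset_interior hb₁ ht₁ hz2)
    exact hd.le_bot ⟨a2, a1⟩
  set L := e.toRealLinearIsometryEquiv with hL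
  have heL : ∀ z, e z = L z + e 0 := by intro z; simp [hL]
  -- cone condition
  have hcone : ∀ x y : ℝ, s * |x| < y → s * |(L ⟨x, y⟩).re| ≤ (L ⟨x, y⟩).im := by
    intro x y hxy
    by_contra hcon
    push Not at hcon
    obtain ⟨r₁, hr₁, h1⟩ := apex_step hb₂ ht₂ hm hc₂ hs₂ hxy
    obtain ⟨r₂, hr₂, h2⟩ := notch_step hb₁ ht₁ hm hc₁ hs₁ hcon
    set r := min r₁ r₂ with hr
    have hr0 : 0 < r := lt_min hr₁ hr₂
    have a1 := h1 r hr0 (min_le_left _ _)
    have a2 := h2 r hr0 (min_le_right _ _)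
    apply hdis _ a1
    have : e ⟨c₂ + r * x, -(s/4) + r * y⟩
        = ⟨c₁ + r * (L ⟨x, y⟩).re, 1 - s/4 + r * (L ⟨x, y⟩).im⟩ := by
      have e1 : (⟨c₂ + r * x, -(s/4) + r * y⟩ : ℂ) = ⟨c₂, -(s/4)⟩ + (r : ℝ) • (⟨x, y⟩ : ℂ) := by
        apply Complex.ext <;> simp
      have e2 : (⟨c₁, 1 - s/4⟩ : ℂ) = L ⟨c₂, -(s/4)⟩ + e 0 := by rw [← heL, hep]
      rw [heL, e1, map_add, map_smul, add_right_comm, ← e2]
      apply Complex.ext <;> simp
    rw [this]
    exact a2
  have h0 : e 0 = ⟨c₁, 1 - s/4⟩ - L ⟨c₂, -(s/4)⟩ := by rw [← hep, heL ⟨c₂, -(s/4)⟩]; ring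
  obtain ⟨a, ha⟩ := linear_isometry_complex L
  have hnorm : (a : ℂ).re ^ 2 + (a : ℂ).im ^ 2 = 1 := by
    have := Circle.normSq_coe a
    rw [Complex.normSq_apply] at this
    nlinarith
  rcases ha with ha | ha
  · have hLz : ∀ z, L z = a * z := by intro z; rw [ha]; simp
    have hcore := cone_core hs hnorm (by
      intro y hy
      have := hcone 1 y (by simpa using hy)
      rw [hLz] at this
      simp only [Complex.mul_re, Complex.mul_im] at this
      calc s * |(a:ℂ).re - (a:ℂ).im * y| = s * |(a:ℂ).re * 1 - (a:ℂ).im * y| := by rw [mul_one]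
        _ ≤ (a:ℂ).re * y + (a:ℂ).im * 1 := this
        _ = (a:ℂ).im + (a:ℂ).re * y := by ring) (by
      intro y hy
      have := hcone (-1) y (by simpa using hy)
      rw [hLz] at this
      simp only [Complex.mul_re, Complex.mul_im] at this
      have e3 : (a:ℂ).re * -1 - (a:ℂ).im * y = -((a:ℂ).re + (a:ℂ).im * y) := by ring
      rw [e3, abs_neg] at this
      calc s * |(a:ℂ).re + (a:ℂ).im * y| ≤ (a:ℂ).re * y + (a:ℂ).im * -1 := this
        _ = -(a:ℂ).im + (a:ℂ).re * y := by ring)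
    have ha1 : (a : ℂ) = 1 := Complex.ext (by simpa using hcore.1) (by simpa using hcore.2)
    left
    intro z
    rw [← hge, heL, h0, hLz, hLz, ha1]
    congr 1
    apply Complex.ext <;> simp
  · have hLz : ∀ z, L z = a * (starRingEnd ℂ) z := by intro z; rw [ha]; simp
    have hcore := cone_core (α := -(a:ℂ).re) (β := (a:ℂ).im) hs (by rw [neg_sq]; exact hnorm) (by
      intro y hy
      have := hcone 1 y (by simpa using hy)
      rw [hLz] at this
      simp only [Complex.mul_re, Complex.mul_im, Complex.conj_re, Complex.conj_im] at this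
      have e3 : -(a:ℂ).re - (a:ℂ).im * y = -((a:ℂ).re * 1 - (a:ℂ).im * -y) := by ring
      rw [e3, abs_neg]
      calc s * |(a:ℂ).re * 1 - (a:ℂ).im * -y| ≤ (a:ℂ).re * -y + (a:ℂ).im * 1 := this
        _ = (a:ℂ).im + -(a:ℂ).re * y := by ring) (by
      intro y hy
      have := hcone (-1) y (by simpa using hy)
      rw [hLz] at this
      simp only [Complex.mul_re, Complex.mul_im, Complex.conj_re, Complex.conj_im] at this
      have e3 : (a:ℂ).re * -1 - (a:ℂ).im * -y = -(a:ℂ).re + (a:ℂ).im * y := by ring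
      rw [e3] at this
      calc s * |-(a:ℂ).re + (a:ℂ).im * y| ≤ (a:ℂ).re * -y + (a:ℂ).im * -1 := this
        _ = -(a:ℂ).im + -(a:ℂ).re * y := by ring)
    have ha1 : (a : ℂ) = -1 := Complex.ext (by simp; linarith [hcore.1]) (by simpa using hcore.2)
    right
    intro z
    rw [← hge, heL, h0, hLz, hLz, ha1]
    congr 1
    apply Complex.ext <;> simp

end Pool.Agent.Helper925_SC
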