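import Pool.Agent.Helper925_SC.Match
import Pool.Agent.Helper925_SC.Rigid

/-! The five prototiles. -/

open Set Metric Topology MeasureTheory
open scoped ENNReal Real

namespace Pool.Agent.Helper925_SC

/-- upper slopes of the prototile `PA` -/
noncomputable def tA (M : ℕ) (ε : ℝ) : ℤ → ℝ := fun c => if |c| ≤ M then ε else 9/8 * ε

/-- lower slopes of the prototile `PB` -/
noncomputable def bB (ε : ℝ) : ℤ → ℝ := fun c => if c = 0 then 5/4 * ε else 11/8 * ε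

/-- The prototile `PA`: width `2M+3`, flat below, with `2M+3` notches above, the two outermost
ones of slope `9ε/8` and the others of slope `ε`. -/
noncomputable def PA (M : ℕ) (ε : ℝ) : Set ℂ := Slab (M + 1 + 1/2) (fun _ => 0) (tA M ε)

/-- The prototile `PB`: width `2M+1`, flat above, with `2M+1` bumps below, the middle one of
slope `5ε/4` and the others of slope `11ε/8`. -/
noncomputable def PB (M : ℕ) (ε : ℝ) : Set ℂ := Slab (M + 1/2) (bB ε) (fun _ => 0)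

/-- The prototile of width one with a bump of slope `a` below and a notch of slope `b` above. -/
noncomputable def PF (a b : ℝ) : Set ℂ := Slab (1/2) (fun _ => a) (fun _ => b)

/-- The set of the five prototiles. -/
noncomputable def Protos (M : ℕ) (ε : ℝ) : Set (Set ℂ) :=
  {PA M ε, PB M ε, PF ε (11/8 * ε), PF ε (5/4 * ε), PF (9/8 * ε) (11/8 * ε)}

section

variable {M : ℕ} {ε : ℝ}

theorem tA_sl (hε : 0 < ε) (c : ℤ) : IsSl ε (tA M ε c) := by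
  unfold tA; split_ifs <;> right <;> constructor <;> linarith

theorem bB_sl (hε : 0 < ε) (c : ℤ) : IsSl ε (bB ε c) := by
  unfold bB; split_ifs <;> right <;> constructor <;> linarith

theorem zero_sl : IsSl ε 0 := Or.inl rfl

theorem Bd_of_sl (hε : 0 < ε) {μ : ℤ → ℝ} (h : ∀ c, IsSl ε (μ c)) : Bd (3/2 * ε) μ := by
  intro c
  rcases h c with h | h
  · rw [h]; constructor <;> linarith
  · exact ⟨by linarith, h.2⟩

/-- Every prototile is a slab with slopes in the allowed range. -/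
theorem Protos_slab (hε : 0 < ε) {K : Set ℂ} (hK : K ∈ Protos M ε) :
    ∃ (w : ℝ) (b t : ℤ → ℝ), K = Slab w b t ∧ (∃ k : ℕ, w = k + 1/2) ∧ w ≤ M + 3/2 ∧
      (∀ c, IsSl ε (b c)) ∧ (∀ c, IsSl ε (t c)) := by
  have hM : (0:ℝ) ≤ M := Nat.cast_nonneg M
  rcases hK with h | h | h | h | h
  · exact ⟨_, _, _, h, ⟨M + 1, by push_cast; ring⟩, by linarith, fun _ => zero_sl, tA_sl hε⟩
  · exact ⟨_, _, _, h, ⟨M, rfl⟩, by linarith, bB_sl hε, fun _ => zero_sl⟩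
  · exact ⟨_, _, _, h, ⟨0, by norm_num⟩, by linarith, fun _ => Or.inr ⟨le_rfl, by linarith⟩,
      fun _ => Or.inr ⟨by linarith, by linarith⟩⟩
  · exact ⟨_, _, _, h, ⟨0, by norm_num⟩, by linarith, fun _ => Or.inr ⟨le_rfl, by linarith⟩,
      fun _ => Or.inr ⟨by linarith, by linarith⟩⟩
  · exact ⟨_, _, _, h, ⟨0, by norm_num⟩, by linarith, fun _ => Or.inr ⟨by linarith, by linarith⟩,
      fun _ => Or.inr ⟨by linarith, by linarith⟩⟩

theorem good_slab (hε : 0 < ε) (hε1 : ε ≤ 1/12) (hεM : 3/2 * ε * (M + 3/2) < 1/4) {w : ℝ}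
    {b t : ℤ → ℝ} (hw : ∃ k : ℕ, w = k + 1/2) (hwM : w ≤ M + 3/2)
    (hb : ∀ c, IsSl ε (b c)) (ht : ∀ c, IsSl ε (t c)) : Good (2 * M + 7) (Slab w b t) := by
  have hb' := Bd_of_sl hε hb
  have ht' := Bd_of_sl hε ht
  have hm : 3/2 * ε ≤ 1 := by linarith
  obtain ⟨k, hk⟩ := hw
  have hw0 : 1/2 ≤ w := by rw [hk]; have : (0:ℝ) ≤ k := Nat.cast_nonneg k; linarith
  have hmw : 3/2 * ε * w < 1/4 := by
    refine lt_of_le_of_lt ?_ hεM
    gcongr
  refine ⟨isClosed_Slab hb' ht', ?_, ?_, ?_⟩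
  · exact null_frontier_of_star ⟨0, 1/2⟩ (isCompact_Slab hb' ht' hm)
      (fun z hz s hs0 hs1 => star_Slab hb' ht' hm (by linarith) hmw hz hs0 hs1)
  · refine ⟨⟨0, 1/2⟩, ?_⟩
    intro z hz
    rw [mem_ball, dist_eq_norm] at hz
    have h1 := abs_lt.1 (re_lt_of_norm hz)
    have h2 := abs_lt.1 (im_lt_of_norm hz)
    simp only [Complex.sub_re, Complex.sub_im, sub_zero] at h1 h2
    have v1 := V_nonneg hb' z.re
    have v2 := V_le ht' z.re
    refine ⟨?_, ?_, ?_⟩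
    · rw [abs_le]; constructor <;> linarith
    · linarith
    · linarith
  · intro p hp p' hp'
    have h1 := mem_closedBall_zero_iff.1 (Slab_subset_closedBall hb' ht' hm hp)
    have h2 := mem_closedBall_zero_iff.1 (Slab_subset_closedBall hb' ht' hm hp')
    calc dist p p' ≤ ‖p‖ + ‖p'‖ := dist_le_norm_add_norm p p'
      _ ≤ 2 * M + 7 := by linarith

theorem good_proto (hε : 0 < ε) (hε1 : ε ≤ 1/12) (hεM : 3/2 * ε * (M + 3/2) < 1/4) {K : Set ℂ}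
    (hK : K ∈ Protos M ε) : Good (2 * M + 7) K := by
  obtain ⟨w, b, t, rfl, hw, hwM, hb, ht⟩ := Protos_slab hε hK
  exact good_slab hε hε1 hεM hw hwM hb ht

theorem isDisk_proto (hε : 0 < ε) (hε1 : ε ≤ 1/12) (hεM : 3/2 * ε * (M + 3/2) < 1/4) {K : Set ℂ}
    (hK : K ∈ Protos M ε) : IsDisk K := by
  obtain ⟨w, b, t, rfl, ⟨k, hk⟩, hwM, hb, ht⟩ := Protos_slab hε hK
  have hw0 : 1/2 ≤ w := by rw [hk]; have : (0:ℝ) ≤ k := Nat.cast_nonneg k; linarith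
  refine isDisk_Slab (Bd_of_sl hε hb) (Bd_of_sl hε ht) (by linarith) (by linarith) ?_
  refine lt_of_le_of_lt ?_ hεM
  gcongr

theorem dens_proto (hε : 0 < ε) (hε1 : ε ≤ 1/12) {K : Set ℂ}
    (hK : K ∈ Protos M ε) (g : ℂ ≃ᵢ ℂ) {p : ℂ} (hp : p ∈ g '' K) :
    ∃ d, HasDens (g '' K) p d ∧ 1/4 ≤ d ∧ (d = 1/4 ∨ 7/16 ≤ d) := by
  obtain ⟨w, b, t, rfl, hw, hwM, hb, ht⟩ := Protos_slab hε hK
  obtain ⟨p, hp, rfl⟩ := hp
  obtain ⟨d, h1, h2⟩ := Slab_dens (Bd_of_sl hε hb) (Bd_of_sl hε ht) (by linarith) hw hp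
  exact ⟨d, h1.image g, dens_range hε hε1 hb ht h2⟩

/-- A point of `g '' Slab w b t` with the local density of an apex is an apex. -/
theorem apex_of_dens (hε : 0 < ε) (hε1 : ε ≤ 1/12) {w : ℝ} {b t : ℤ → ℝ}
    (hw : ∃ k : ℕ, w = k + 1/2) (hb : ∀ c, IsSl ε (b c)) (ht : ∀ c, IsSl ε (t c))
    (g : ℂ ≃ᵢ ℂ) {p : ℂ} (hp : p ∈ g '' Slab w b t) {a : ℝ} (ha : ε ≤ a) (ha' : a ≤ 3/2 * ε)
    (hd : HasDens (g '' Slab w b t) p (2 * q (-a))) :
    ∃ c : ℤ, |(c:ℝ)| < w ∧ p = g ⟨c, -(b c / 4)⟩ ∧ b c = a := by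
  obtain ⟨p, hp, rfl⟩ := hp
  obtain ⟨d, h1, h2⟩ := Slab_dens (Bd_of_sl hε hb) (Bd_of_sl hε ht) (by linarith) hw hp
  have h3 := dens_range hε hε1 hb ht h2
  have h4 : d = 2 * q (-a) := (h1.image g).unique hd (by linarith [h3.1]) (by
    have := q_nonneg (-a); linarith)
  rw [h4] at h2
  obtain ⟨c, c1, c2, c3⟩ := apex_char hε hε1 hb ht ha ha' h2
  exact ⟨c, c1, by rw [c2], c3⟩

theorem notch_of_dens (hε : 0 < ε) (hε1 : ε ≤ 1/12) {w : ℝ} {b t : ℤ → ℝ}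
    (hw : ∃ k : ℕ, w = k + 1/2) (hb : ∀ c, IsSl ε (b c)) (ht : ∀ c, IsSl ε (t c))
    (g : ℂ ≃ᵢ ℂ) {p : ℂ} (hp : p ∈ g '' Slab w b t) {a : ℝ} (ha : ε ≤ a) (ha' : a ≤ 3/2 * ε)
    (hd : HasDens (g '' Slab w b t) p (2 * q a)) :
    ∃ c : ℤ, |(c:ℝ)| < w ∧ p = g ⟨c, 1 - t c / 4⟩ ∧ t c = a := by
  obtain ⟨p, hp, rfl⟩ := hp
  obtain ⟨d, h1, h2⟩ := Slab_dens (Bd_of_sl hε hb) (Bd_of_sl hε ht) (by linarith) hw hp
  have h3 := dens_range hε hε1 hb ht h2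
  have h4 : d = 2 * q a := (h1.image g).unique hd (by linarith [h3.1]) (by
    have := q_nonneg a; linarith)
  rw [h4] at h2
  obtain ⟨c, c1, c2, c3⟩ := notch_char hε hε1 hb ht ha ha' h2
  exact ⟨c, c1, by rw [c2], c3⟩

theorem int_lt_half {c : ℤ} (h : |(c:ℝ)| < 1/2) : c = 0 := by
  have h1 : |(c:ℝ)| < 1 := by linarith
  have : |c| < 1 := by exact_mod_cast h1
  exact Int.abs_lt_one_iff.1 this

theorem int_lt_Mhalf {c : ℤ} {M : ℕ} (h : |(c:ℝ)| < M + 1/2) : |c| ≤ M := by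
  have h1 : |(c:ℝ)| < M + 1 := by linarith
  have : |c| < (M:ℤ) + 1 := by exact_mod_cast h1
  omega

end

end Pool.Agent.Helper925_SC
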