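import Pool.Agent.Helper925_SC.Basic

/-! Profiles made of small V-shaped notches, and the slabs bounded by two such profiles. -/

open Set Metric Topology

namespace Pool.Agent.Helper925_SC

/-- The profile: a hat of half-width `1/4` and slope `μ c` around every integer `c`. -/
noncomputable def V (μ : ℤ → ℝ) (x : ℝ) : ℝ := μ (round x) * max 0 (1/4 - |x - round x|)

/-- The slab of half-width `w` with lower profile `-V b` and upper profile `1 - V t`. -/
def Slab (w : ℝ) (b t : ℤ → ℝ) : Set ℂ :=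
  {z | |z.re| ≤ w ∧ -V b z.re ≤ z.im ∧ z.im ≤ 1 - V t z.re}

theorem V_eq (μ : ℤ → ℝ) {x : ℝ} {c : ℤ} (h : |x - c| ≤ 3/4) :
    V μ x = μ c * max 0 (1/4 - |x - c|) := by
  by_cases hc : round x = c
  · rw [V, hc]
  · have h1 : |x - round x| ≤ 1/2 := abs_sub_round x
    have h2 : (1:ℝ) ≤ |(round x : ℝ) - c| := by
      have : (1:ℤ) ≤ |round x - c| := Int.one_le_abs (sub_ne_zero.2 hc)
      exact_mod_cast this
    have h3 : |(round x : ℝ) - c| ≤ |x - round x| + |x - c| := by
      have := abs_sub_le (round x : ℝ) x c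
      rwa [abs_sub_comm (round x : ℝ) x] at this
    have h4 : max 0 (1/4 - |x - round x|) = 0 := max_eq_left (by linarith)
    have h5 : max 0 (1/4 - |x - c|) = 0 := max_eq_left (by linarith)
    rw [V, h4, h5, mul_zero, mul_zero]

/-- The slopes lie in `[0, m]`. -/
def Bd (m : ℝ) (μ : ℤ → ℝ) : Prop := ∀ c, 0 ≤ μ c ∧ μ c ≤ m

theorem Bd.nonneg_m {m : ℝ} {μ : ℤ → ℝ} (h : Bd m μ) : 0 ≤ m := (h 0).1.trans (h 0).2

theorem V_nonneg {m : ℝ} {μ : ℤ → ℝ} (h : Bd m μ) (x : ℝ) : 0 ≤ V μ x :=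
  mul_nonneg (h _).1 (le_max_left _ _)

theorem V_le {m : ℝ} {μ : ℤ → ℝ} (h : Bd m μ) (x : ℝ) : V μ x ≤ m / 4 := by
  have h1 : max 0 (1/4 - |x - round x|) ≤ 1/4 :=
    max_le (by norm_num) (by linarith [abs_nonneg (x - round x)])
  have h2 : 0 ≤ max 0 (1/4 - |x - round x|) := le_max_left _ _
  rw [V]
  have := mul_le_mul (h (round x)).2 h1 h2 h.nonneg_m
  linarith

theorem V_lip {m : ℝ} {μ : ℤ → ℝ} (h : Bd m μ) (x y : ℝ) : |V μ x - V μ y| ≤ m * |x - y| := by
  have hm := h.nonneg_m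
  by_cases hxy : |x - y| ≤ 1/4
  · have hx : |x - round x| ≤ 1/2 := abs_sub_round x
    have hy : |y - round x| ≤ 3/4 := by
      have := abs_sub_le y x (round x : ℝ)
      rw [abs_sub_comm y x] at this
      linarith
    rw [V_eq μ (c := round x) (by linarith), V_eq μ hy, ← mul_sub, abs_mul, abs_of_nonneg (h _).1]
    have h1 : |max 0 (1/4 - |x - round x|) - max 0 (1/4 - |y - round x|)| ≤ |x - y| := by
      rw [max_comm 0 (1/4 - |x - (round x : ℝ)|), max_comm 0 (1/4 - |y - (round x : ℝ)|)]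
      refine (abs_max_sub_max_le_abs (1/4 - |x - (round x : ℝ)|) (1/4 - |y - (round x : ℝ)|)
        0).trans ?_
      have e1 : (1/4 - |x - (round x : ℝ)|) - (1/4 - |y - (round x : ℝ)|)
          = |y - (round x : ℝ)| - |x - (round x : ℝ)| := by ring
      rw [e1]
      refine (abs_abs_sub_abs_le_abs_sub _ _).trans ?_
      have e2 : y - (round x : ℝ) - (x - (round x : ℝ)) = -(x - y) := by ring
      rw [e2, abs_neg]
    have := mul_le_mul (h (round x)).2 h1 (abs_nonneg _) hm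
    exact this
  · push Not at hxy
    have h1 := V_nonneg h x
    have h2 := V_nonneg h y
    have h3 := V_le h x
    have h4 := V_le h y
    have : |V μ x - V μ y| ≤ m / 4 := by rw [abs_le]; constructor <;> linarith
    nlinarith

theorem V_continuous {m : ℝ} {μ : ℤ → ℝ} (h : Bd m μ) : Continuous (V μ) := by
  have : LipschitzWith (Real.toNNReal m) (V μ) := by
    refine LipschitzWith.of_dist_le_mul ?_
    intro x y
    rw [Real.dist_eq, Real.dist_eq, Real.coe_toNNReal _ h.nonneg_m]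
    exact V_lip h x y
  exact this.continuous

theorem V_congr {μ μ' : ℤ → ℝ} {x : ℝ} (h : ∀ c : ℤ, |x - c| < 1/4 → μ c = μ' c) :
    V μ x = V μ' x := by
  by_cases hx : |x - round x| < 1/4
  · rw [V, V, h _ hx]
  · push Not at hx
    have : max 0 (1/4 - |x - round x|) = 0 := max_eq_left (by linarith)
    rw [V, V, this, mul_zero, mul_zero]

theorem V_shift (μ : ℤ → ℝ) (x : ℝ) (k : ℤ) : V μ (x - k) = V (fun c => μ (c - k)) x := by
  rw [V, V, round_sub_intCast]
  push_cast
  congr 3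
  ring_nf

theorem V_neg {μ : ℤ → ℝ} (x : ℝ) : V μ (-x) = V (fun c => μ (-c)) x := by
  have h1 : |x - round x| ≤ 1/2 := abs_sub_round x
  have h2 : |(-x) - ((-round x : ℤ) : ℝ)| = |x - round x| := by
    push_cast
    rw [← abs_neg]
    congr 1
    ring
  rw [V_eq μ (c := -round x) (by rw [h2]; linarith), h2, V]

variable {w m : ℝ} {b t : ℤ → ℝ}

theorem isClosed_Slab (hb : Bd m b) (ht : Bd m t) : IsClosed (Slab w b t) := by
  have h1 := V_continuous hb
  have h2 := V_continuous ht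
  refine IsClosed.inter ?_ (IsClosed.inter ?_ ?_)
  · exact isClosed_le (Complex.continuous_re.abs) continuous_const
  · exact isClosed_le ((h1.comp Complex.continuous_re).neg) Complex.continuous_im
  · exact isClosed_le Complex.continuous_im (continuous_const.sub (h2.comp Complex.continuous_re))

/-- The open part of a slab. -/
def OSlab (w : ℝ) (b t : ℤ → ℝ) : Set ℂ :=
  {z | |z.re| < w ∧ -V b z.re < z.im ∧ z.im < 1 - V t z.re}

theorem isOpen_OSlab (hb : Bd m b) (ht : Bd m t) : IsOpen (OSlab w b t) := by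
  have h1 := V_continuous hb
  have h2 := V_continuous ht
  refine IsOpen.inter ?_ (IsOpen.inter ?_ ?_)
  · exact isOpen_lt (Complex.continuous_re.abs) continuous_const
  · exact isOpen_lt ((h1.comp Complex.continuous_re).neg) Complex.continuous_im
  · exact isOpen_lt Complex.continuous_im (continuous_const.sub (h2.comp Complex.continuous_re))

theorem OSlab_subset : OSlab w b t ⊆ Slab w b t :=
  fun _ h => ⟨h.1.le, h.2.1.le, h.2.2.le⟩

theorem OSlab_subset_interior (hb : Bd m b) (ht : Bd m t) : OSlab w b t ⊆ interior (Slab w b t) :=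
  interior_maximal OSlab_subset (isOpen_OSlab hb ht)

theorem Slab_subset_closedBall (hb : Bd m b) (ht : Bd m t) (hm : m ≤ 1) :
    Slab w b t ⊆ closedBall 0 (w + 2) := by
  rintro z ⟨h1, h2, h3⟩
  rw [mem_closedBall_zero_iff]
  have h4 := V_le hb z.re
  have h5 := V_nonneg ht z.re
  have h6 : |z.im| ≤ 2 := by rw [abs_le]; constructor <;> linarith
  have := Complex.norm_le_abs_re_add_abs_im z
  linarith

theorem isCompact_Slab (hb : Bd m b) (ht : Bd m t) (hm : m ≤ 1) : IsCompact (Slab w b t) :=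
  (isCompact_closedBall (0:ℂ) (w + 2)).of_isClosed_subset (isClosed_Slab hb ht)
    (Slab_subset_closedBall hb ht hm)

theorem half_mem_Slab (hb : Bd m b) (ht : Bd m t) (hm : m ≤ 1) (hw : 0 < w) :
    (⟨0, 1/2⟩ : ℂ) ∈ Slab w b t := by
  have h4 := V_nonneg hb 0
  have h5 := V_le ht 0
  refine ⟨by simpa using hw.le, ?_, ?_⟩ <;> simp only <;> linarith

theorem star_Slab (hb : Bd m b) (ht : Bd m t) (hm : m ≤ 1) (hw : 0 < w) (hmw : m * w < 1/4)
    {z : ℂ} (hz : z ∈ Slab w b t) {s : ℝ} (hs0 : 0 ≤ s) (hs1 : s < 1) :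
    (⟨0, 1/2⟩ : ℂ) + s • (z - ⟨0, 1/2⟩) ∈ interior (Slab w b t) := by
  apply OSlab_subset_interior hb ht
  obtain ⟨h1, h2, h3⟩ := hz
  have hre : ((⟨0, 1/2⟩ : ℂ) + s • (z - ⟨0, 1/2⟩)).re = s * z.re := by simp
  have him : ((⟨0, 1/2⟩ : ℂ) + s • (z - ⟨0, 1/2⟩)).im = 1/2 + s * (z.im - 1/2) := by simp
  have hm0 := hb.nonneg_m
  have hd : |z.re - s * z.re| ≤ (1 - s) * w := by
    have : z.re - s * z.re = (1 - s) * z.re := by ring
    rw [this, abs_mul, abs_of_pos (by linarith : 0 < 1 - s)]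
    exact mul_le_mul_of_nonneg_left h1 (by linarith)
  have e1 := V_lip hb z.re (s * z.re)
  have e2 := V_lip ht z.re (s * z.re)
  have e3 : m * |z.re - s * z.re| ≤ m * ((1 - s) * w) := mul_le_mul_of_nonneg_left hd hm0
  have e1' := abs_le.1 (e1.trans e3)
  have e2' := abs_le.1 (e2.trans e3)
  have f1 := V_le hb z.re
  have f2 := V_le ht z.re
  have f3 := V_nonneg hb z.re
  have f4 := V_nonneg ht z.re
  refine ⟨?_, ?_, ?_⟩
  · rw [hre, abs_mul, abs_of_nonneg hs0]
    nlinarith [abs_nonneg z.re]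
  · rw [hre, him]
    nlinarith
  · rw [hre, him]
    nlinarith

theorem isDisk_Slab (hb : Bd m b) (ht : Bd m t) (hm : m ≤ 1) (hw : 0 < w) (hmw : m * w < 1/4) :
    IsDisk (Slab w b t) :=
  isDisk_of_star ⟨0, 1/2⟩ (isCompact_Slab hb ht hm) ⟨_, half_mem_Slab hb ht hm hw⟩
    (fun _ hz _ hs0 hs1 => star_Slab hb ht hm hw hmw hz hs0 hs1)

end Pool.Agent.Helper925_SC
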