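import Pool.Agent.Helper925_SC.Slab
import Pool.Agent.Helper925_SC.Dens

/-! Local densities of slabs. -/

open Set Metric Topology MeasureTheory
open scoped ENNReal Real

namespace Pool.Agent.Helper925_SC

/-- The slope, to the right of `c + u`, of a hat of slope `m` centred at `c`. -/
noncomputable def RS (u m : ℝ) : ℝ :=
  if u < -(1/4) then 0 else if u < 0 then m else if u < 1/4 then -m else 0

theorem V_rslope (μ : ℤ → ℝ) {x : ℝ} {c : ℤ} (h : |x - c| ≤ 1/2) :
    ∃ δ > 0, ∀ y, x ≤ y → y ≤ x + δ → V μ y = V μ x + RS (x - c) (μ c) * (y - x) := by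
  have hx := V_eq μ (x := x) (c := c) (by linarith)
  have habs := abs_le.1 h
  have key : ∀ y, x ≤ y → y ≤ x + 1/4 → V μ y = μ c * max 0 (1/4 - |y - c|) := by
    intro y h1 h2
    apply V_eq
    rw [abs_le]; constructor <;> linarith
  rcases lt_or_ge (x - c) (-(1/4)) with h1 | h1
  · refine ⟨min (1/4) (-(1/4) - (x - c)), lt_min (by norm_num) (by linarith), fun y hy1 hy2 => ?_⟩
    have a1 := min_le_left (1/4) (-(1/4) - (x - c))
    have a2 := min_le_right (1/4) (-(1/4) - (x - c))
    rw [key y hy1 (by linarith), hx, RS, if_pos h1]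
    rw [abs_of_neg (by linarith : y - c < 0), abs_of_neg (by linarith : x - c < 0),
      max_eq_left (by linarith), max_eq_left (by linarith)]
    ring
  rcases lt_or_ge (x - c) 0 with h2 | h2
  · refine ⟨min (1/4) (-(x - c)), lt_min (by norm_num) (by linarith), fun y hy1 hy2 => ?_⟩
    have a1 := min_le_left (1/4) (-(x - c))
    have a2 := min_le_right (1/4) (-(x - c))
    rw [key y hy1 (by linarith), hx, RS, if_neg (not_lt.2 h1), if_pos h2]
    rw [abs_of_nonpos (by linarith : y - c ≤ 0), abs_of_neg (by linarith : x - c < 0),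
      max_eq_right (by linarith), max_eq_right (by linarith)]
    ring
  rcases lt_or_ge (x - c) (1/4) with h3 | h3
  · refine ⟨min (1/4) (1/4 - (x - c)), lt_min (by norm_num) (by linarith), fun y hy1 hy2 => ?_⟩
    have a1 := min_le_left (1/4) (1/4 - (x - c))
    have a2 := min_le_right (1/4) (1/4 - (x - c))
    rw [key y hy1 (by linarith), hx, RS, if_neg (not_lt.2 h1), if_neg (not_lt.2 h2), if_pos h3]
    rw [abs_of_nonneg (by linarith : 0 ≤ y - c), abs_of_nonneg (by linarith : 0 ≤ x - c),
      max_eq_right (by linarith), max_eq_right (by linarith)]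
    ring
  · refine ⟨1/4, by norm_num, fun y hy1 hy2 => ?_⟩
    rw [key y hy1 (by linarith), hx, RS, if_neg (not_lt.2 h1), if_neg (not_lt.2 h2),
      if_neg (not_lt.2 h3)]
    rw [abs_of_nonneg (by linarith : 0 ≤ y - c), abs_of_nonneg (by linarith : 0 ≤ x - c),
      max_eq_left (by linarith), max_eq_left (by linarith)]
    ring

variable {w m : ℝ} {b t : ℤ → ℝ}

theorem re_lt_of_norm {z : ℂ} {δ : ℝ} (h : ‖z‖ < δ) : |z.re| < δ :=
  (Complex.abs_re_le_norm z).trans_lt h

theorem im_lt_of_norm {z : ℂ} {δ : ℝ} (h : ‖z‖ < δ) : |z.im| < δ :=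
  (Complex.abs_im_le_norm z).trans_lt h

/-- right boundary -/
theorem RD_right (x y : ℝ) (hx : w ≤ x) : RD (Slab w b t) ⟨x, y⟩ 0 := by
  refine RD_zero (δ := 1) one_pos ?_
  rintro z _ hz ⟨h1, _⟩
  have := (abs_le.1 h1).2
  simp only [Complex.add_re] at this
  linarith

/-- interior -/
theorem RD_inner (hb : Bd m b) (ht : Bd m t) (hm : m ≤ 1) {x y : ℝ} (hx : -w ≤ x) (hx' : x < w)
    (h1 : -V b x < y) (h2 : y < 1 - V t x) : RD (Slab w b t) ⟨x, y⟩ (1/2) := by
  have hm0 := hb.nonneg_m
  set δ := min (w - x) (min ((y + V b x)/2) ((1 - V t x - y)/2)) with hδ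
  have hδpos : 0 < δ := lt_min (by linarith) (lt_min (by linarith) (by linarith))
  refine RD_of_eq (X := HP) (fun t ht => volume_HP ht) hδpos ?_
  intro z hz
  have d1 : δ ≤ w - x := min_le_left _ _
  have d2 : δ ≤ (y + V b x)/2 := (min_le_right _ _).trans (min_le_left _ _)
  have d3 : δ ≤ (1 - V t x - y)/2 := (min_le_right _ _).trans (min_le_right _ _)
  have hre := abs_lt.1 (re_lt_of_norm hz)
  have him := abs_lt.1 (im_lt_of_norm hz)
  simp only [HP, mem_ofPred_eq, Slab, Complex.add_re, Complex.add_im]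
  constructor
  · rintro ⟨_, h⟩; exact h
  · intro h
    have l1 := V_lip hb (x + z.re) x
    have l2 := V_lip ht (x + z.re) x
    rw [add_sub_cancel_left, abs_of_pos h] at l1 l2
    have l1' := abs_le.1 l1
    have l2' := abs_le.1 l2
    refine ⟨⟨?_, ?_, ?_⟩, h⟩
    · rw [abs_le]; constructor <;> linarith
    · nlinarith
    · nlinarith

/-- top -/
theorem RD_top (hb : Bd m b) (ht : Bd m t) (hm : m ≤ 1) {x : ℝ} {c : ℤ} (hx : -w ≤ x) (hx' : x < w)
    (hc : |x - c| ≤ 1/2) :
    RD (Slab w b t) ⟨x, 1 - V t x⟩ (q (-RS (x - c) (t c))) := by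
  obtain ⟨δ₀, hδ₀, hsl⟩ := V_rslope t hc
  set δ := min (w - x) (min δ₀ (1/2)) with hδ
  have hδpos : 0 < δ := lt_min (by linarith) (lt_min hδ₀ (by norm_num))
  refine RD_of_eq (X := CW (-RS (x - c) (t c))) (fun t ht => volume_CW _ ht) hδpos ?_
  intro z hz
  have d1 : δ ≤ w - x := min_le_left _ _
  have d2 : δ ≤ δ₀ := (min_le_right _ _).trans (min_le_left _ _)
  have d3 : δ ≤ 1/2 := (min_le_right _ _).trans (min_le_right _ _)
  have hre := abs_lt.1 (re_lt_of_norm hz)
  have him := abs_lt.1 (im_lt_of_norm hz)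
  simp only [CW, mem_ofPred_eq, Slab, Complex.add_re, Complex.add_im]
  have v1 := V_le ht x
  constructor
  · rintro ⟨⟨a1, a2, a3⟩, h⟩
    refine ⟨h, ?_⟩
    have := hsl (x + z.re) (by linarith) (by linarith)
    rw [this] at a3
    rw [add_sub_cancel_left] at a3
    linarith
  · rintro ⟨h, h'⟩
    have := hsl (x + z.re) (by linarith) (by linarith)
    have v2 := V_nonneg hb (x + z.re)
    refine ⟨⟨?_, ?_, ?_⟩, h⟩
    · rw [abs_le]; constructor <;> linarith
    · linarith
    · rw [this, add_sub_cancel_left]; linarith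

/-- bottom -/
theorem RD_bot (hb : Bd m b) (ht : Bd m t) (hm : m ≤ 1) {x : ℝ} {c : ℤ} (hx : -w ≤ x) (hx' : x < w)
    (hc : |x - c| ≤ 1/2) :
    RD (Slab w b t) ⟨x, -V b x⟩ (q (RS (x - c) (b c))) := by
  obtain ⟨δ₀, hδ₀, hsl⟩ := V_rslope b hc
  set δ := min (w - x) (min δ₀ (1/2)) with hδ
  have hδpos : 0 < δ := lt_min (by linarith) (lt_min hδ₀ (by norm_num))
  refine RD_of_eq (X := UW (-RS (x - c) (b c)))
    (fun t ht => by rw [volume_UW _ ht, neg_neg]) hδpos ?_
  intro z hz
  have d1 : δ ≤ w - x := min_le_left _ _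
  have d2 : δ ≤ δ₀ := (min_le_right _ _).trans (min_le_left _ _)
  have d3 : δ ≤ 1/2 := (min_le_right _ _).trans (min_le_right _ _)
  have hre := abs_lt.1 (re_lt_of_norm hz)
  have him := abs_lt.1 (im_lt_of_norm hz)
  simp only [UW, mem_ofPred_eq, Slab, Complex.add_re, Complex.add_im]
  have v1 := V_nonneg hb x
  constructor
  · rintro ⟨⟨a1, a2, a3⟩, h⟩
    refine ⟨h, ?_⟩
    have := hsl (x + z.re) (by linarith) (by linarith)
    rw [this] at a2
    rw [add_sub_cancel_left] at a2
    linarith
  · rintro ⟨h, h'⟩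
    have := hsl (x + z.re) (by linarith) (by linarith)
    have v2 := V_le ht (x + z.re)
    refine ⟨⟨?_, ?_, ?_⟩, h⟩
    · rw [abs_le]; constructor <;> linarith
    · rw [this, add_sub_cancel_left]; linarith
    · linarith

theorem Bd.neg {μ : ℤ → ℝ} (h : Bd m μ) : Bd m (fun c => μ (-c)) := fun c => h (-c)

theorem reflect_Slab (w : ℝ) (b t : ℤ → ℝ) :
    (fun z : ℂ => -(starRingEnd ℂ) z) '' Slab w b t =
      Slab w (fun c => b (-c)) (fun c => t (-c)) := by
  have hinv : ∀ z : ℂ, -(starRingEnd ℂ) (-(starRingEnd ℂ) z) = z := by intro z; simp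
  have hsub : ∀ (b t : ℤ → ℝ) (z : ℂ), z ∈ Slab w b t →
      -(starRingEnd ℂ) z ∈ Slab w (fun c => b (-c)) (fun c => t (-c)) := by
    rintro b t z ⟨h1, h2, h3⟩
    have e1 := V_neg (μ := fun c => b (-c)) z.re
    have e2 := V_neg (μ := fun c => t (-c)) z.re
    simp only [neg_neg] at e1 e2
    refine ⟨?_, ?_, ?_⟩
    · simpa using h1
    · simpa [e1] using h2
    · simpa [e2] using h3
  apply Subset.antisymm
  · rintro _ ⟨z, hz, rfl⟩
    exact hsub b t z hz
  · intro z hz
    refine ⟨-(starRingEnd ℂ) z, ?_, hinv z⟩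
    have := hsub _ _ z hz
    simpa using this

theorem LD_aux {x y : ℝ} {d : ℝ}
    (h : RD (Slab w (fun c => b (-c)) (fun c => t (-c))) ⟨-x, y⟩ d) :
    LD (Slab w b t) ⟨x, y⟩ d := by
  apply LD_of_RD
  rw [reflect_Slab]
  have : -(starRingEnd ℂ) (⟨x, y⟩ : ℂ) = ⟨-x, y⟩ := by
    apply Complex.ext <;> simp
  rwa [this]

theorem LD_left (x y : ℝ) (hx : x ≤ -w) : LD (Slab w b t) ⟨x, y⟩ 0 :=
  LD_aux (RD_right (-x) y (by linarith))

theorem LD_inner (hb : Bd m b) (ht : Bd m t) (hm : m ≤ 1) {x y : ℝ} (hx : -w < x) (hx' : x ≤ w)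
    (h1 : -V b x < y) (h2 : y < 1 - V t x) : LD (Slab w b t) ⟨x, y⟩ (1/2) := by
  apply LD_aux
  have e1 := V_neg (μ := fun c => b (-c)) x
  have e2 := V_neg (μ := fun c => t (-c)) x
  simp only [neg_neg] at e1 e2
  exact RD_inner hb.neg ht.neg hm (by linarith) (by linarith) (by rw [e1]; exact h1)
    (by rw [e2]; exact h2)

theorem LD_top (hb : Bd m b) (ht : Bd m t) (hm : m ≤ 1) {x : ℝ} {c : ℤ} (hx : -w < x) (hx' : x ≤ w)
    (hc : |x - c| ≤ 1/2) :
    LD (Slab w b t) ⟨x, 1 - V t x⟩ (q (-RS (-(x - c)) (t c))) := by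
  apply LD_aux
  have e2 := V_neg (μ := fun c => t (-c)) x
  simp only [neg_neg] at e2
  have h4 : (-x) - ((-c : ℤ) : ℝ) = -(x - c) := by push_cast; ring
  have := RD_top hb.neg ht.neg hm (x := -x) (c := -c) (w := w) (by linarith) (by linarith)
    (by rw [h4, abs_neg]; exact hc)
  rw [h4, e2] at this
  simpa using this

theorem LD_bot (hb : Bd m b) (ht : Bd m t) (hm : m ≤ 1) {x : ℝ} {c : ℤ} (hx : -w < x) (hx' : x ≤ w)
    (hc : |x - c| ≤ 1/2) :
    LD (Slab w b t) ⟨x, -V b x⟩ (q (RS (-(x - c)) (b c))) := by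
  apply LD_aux
  have e2 := V_neg (μ := fun c => b (-c)) x
  simp only [neg_neg] at e2
  have h4 : (-x) - ((-c : ℤ) : ℝ) = -(x - c) := by push_cast; ring
  have := RD_bot hb.neg ht.neg hm (x := -x) (c := -c) (w := w) (by linarith) (by linarith)
    (by rw [h4, abs_neg]; exact hc)
  rw [h4, e2] at this
  simpa using this

/-- The possible local densities of a slab at its points. -/
def DensCase (w : ℝ) (b t : ℤ → ℝ) (p : ℂ) (d : ℝ) : Prop :=
  d = 1/4 ∨ d = 1/2 ∨ d = 1 ∨
    (∃ c : ℤ, |(c:ℝ)| < w ∧ p = ⟨c, 1 - t c / 4⟩ ∧ d = 2 * q (t c)) ∨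
    (∃ c : ℤ, |(c:ℝ)| < w ∧ p = ⟨c, -(b c / 4)⟩ ∧ d = 2 * q (-b c)) ∨
    (∃ c : ℤ, d = 1/4 + q (-t c)) ∨ (∃ c : ℤ, d = 1/4 + q (b c))

theorem V_at_int (μ : ℤ → ℝ) (c : ℤ) : V μ c = μ c / 4 := by
  rw [V, round_intCast]
  simp
  ring

theorem Slab_dens (hb : Bd m b) (ht : Bd m t) (hm : m ≤ 1) (hw : ∃ k : ℕ, w = k + 1/2) {p : ℂ}
    (hp : p ∈ Slab w b t) : ∃ d, HasDens (Slab w b t) p d ∧ DensCase w b t p d := by
  obtain ⟨x, y⟩ := p
  obtain ⟨h1, h2, h3⟩ := hp
  simp only at h1 h2 h3
  have hx := abs_le.1 h1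
  obtain ⟨k, hk⟩ := hw
  have hw0 : 0 < w := by rw [hk]; positivity
  have hbd1 : V b x ≤ m/4 := V_le hb x
  have hbd2 : V t x ≤ m/4 := V_le ht x
  have hbd3 : 0 ≤ V b x := V_nonneg hb x
  -- the six regions
  rcases lt_or_eq_of_le hx.2 with hxr | hxr
  · rcases lt_or_eq_of_le hx.1 with hxl | hxl
    · -- |x| < w
      set c := round x with hc
      have hcx : |x - c| ≤ 1/2 := abs_sub_round x
      rcases lt_or_eq_of_le h3 with h3 | h3
      · rcases lt_or_eq_of_le h2 with h2 | h2
        · refine ⟨1/2 + 1/2, hasDens_of_RD_LD (RD_inner hb ht hm hxl.le hxr h2 h3)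
            (LD_inner hb ht hm hxl hxr.le h2 h3) (by norm_num) (by norm_num), ?_⟩
          right; right; left; norm_num
        · -- bottom
          have hD := hasDens_of_RD_LD (RD_bot hb ht hm hxl.le hxr hcx)
            (LD_bot hb ht hm hxl hxr.le hcx) (q_nonneg _) (q_nonneg _)
          rw [h2] at hD
          refine ⟨_, hD, ?_⟩
          rcases lt_trichotomy (x - c) 0 with hu | hu | hu
          · rcases lt_trichotomy (x - c) (-(1/4)) with hv | hv | hv
            · right; left
              rw [RS, if_pos hv, RS, if_neg (by linarith), if_neg (by linarith),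
                if_neg (by linarith), q_zero]
              norm_num
            · right; right; right; right; right; right
              refine ⟨c, ?_⟩
              rw [RS, if_neg (by linarith), if_pos hu, RS, if_neg (by linarith),
                if_neg (by linarith), if_neg (by linarith), q_zero]
              ring
            · right; left
              rw [RS, if_neg (by linarith), if_pos hu, RS, if_neg (by linarith),
                if_neg (by linarith), if_pos (by linarith), q_neg]
              ring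
          · right; right; right; right; left
            have hxc : x = c := by linarith
            refine ⟨c, ?_, ?_, ?_⟩
            · rw [← hxc]; exact abs_lt.2 ⟨hxl, hxr⟩
            · rw [← h2, hxc, V_at_int]
            · rw [hu, neg_zero, RS, if_neg (by norm_num), if_neg (by norm_num), if_pos (by norm_num)]
              ring
          · rcases lt_trichotomy (x - c) (1/4) with hv | hv | hv
            · right; left
              rw [RS, if_neg (by linarith), if_neg (by linarith), if_pos hv, RS,
                if_neg (by linarith), if_pos (by linarith), q_neg]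
              ring
            · right; right; right; right; right; right
              refine ⟨c, ?_⟩
              rw [RS, if_neg (by linarith), if_neg (by linarith), if_neg (by linarith), RS,
                if_neg (by linarith), if_pos (by linarith), q_zero]
            · right; left
              rw [RS, if_neg (by linarith), if_neg (by linarith), if_neg (by linarith), RS,
                if_pos (by linarith), q_zero]
              norm_num
      · -- top
        have hD := hasDens_of_RD_LD (RD_top hb ht hm hxl.le hxr hcx)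
          (LD_top hb ht hm hxl hxr.le hcx) (q_nonneg _) (q_nonneg _)
        rw [← h3] at hD
        refine ⟨_, hD, ?_⟩
        rcases lt_trichotomy (x - c) 0 with hu | hu | hu
        · rcases lt_trichotomy (x - c) (-(1/4)) with hv | hv | hv
          · right; left
            rw [RS, if_pos hv, RS, if_neg (by linarith), if_neg (by linarith),
              if_neg (by linarith), neg_zero, q_zero]
            norm_num
          · right; right; right; right; right; left
            refine ⟨c, ?_⟩
            rw [RS, if_neg (by linarith), if_pos hu, RS, if_neg (by linarith),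
              if_neg (by linarith), if_neg (by linarith), neg_zero, q_zero]
            ring
          · right; left
            rw [RS, if_neg (by linarith), if_pos hu, RS, if_neg (by linarith),
              if_neg (by linarith), if_pos (by linarith), q_neg, neg_neg]
            ring
        · right; right; right; left
          have hxc : x = c := by linarith
          refine ⟨c, ?_, ?_, ?_⟩
          · rw [← hxc]; exact abs_lt.2 ⟨hxl, hxr⟩
          · rw [h3, hxc, V_at_int]
          · rw [hu, neg_zero, RS, if_neg (by norm_num), if_neg (by norm_num), if_pos (by norm_num),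
              neg_neg]
            ring
        · rcases lt_trichotomy (x - c) (1/4) with hv | hv | hv
          · right; left
            rw [RS, if_neg (by linarith), if_neg (by linarith), if_pos hv, RS,
              if_neg (by linarith), if_pos (by linarith), q_neg]
            ring
          · right; right; right; right; right; left
            refine ⟨c, ?_⟩
            rw [RS, if_neg (by linarith), if_neg (by linarith), if_neg (by linarith), RS,
              if_neg (by linarith), if_pos (by linarith), neg_zero, q_zero]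
          · right; left
            rw [RS, if_neg (by linarith), if_neg (by linarith), if_neg (by linarith), RS,
              if_pos (by linarith), neg_zero, q_zero]
            norm_num
    · -- x = -w
      have hcx : |x - ((-(k:ℤ) : ℤ) : ℝ)| ≤ 1/2 := by
        rw [← hxl, hk]; push_cast
        rw [show (-((k:ℝ) + 1/2) - -(k:ℝ)) = -(1/2) by ring, abs_neg, abs_of_pos (by norm_num)]
      have hu : x - ((-(k:ℤ) : ℤ) : ℝ) = -(1/2) := by
        rw [← hxl, hk]; push_cast; ring
      rcases lt_or_eq_of_le h3 with h3 | h3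
      · rcases lt_or_eq_of_le h2 with h2 | h2
        · refine ⟨1/2 + 0, hasDens_of_RD_LD (RD_inner hb ht hm hxl.le hxr h2 h3)
            (LD_left x y hxl.ge) (by norm_num) le_rfl, ?_⟩
          right; left; norm_num
        · have hD := hasDens_of_RD_LD (RD_bot hb ht hm hxl.le hxr hcx)
            (LD_left x _ hxl.ge) (q_nonneg _) le_rfl
          rw [h2] at hD
          refine ⟨_, hD, ?_⟩
          left
          rw [hu, RS, if_pos (by norm_num), q_zero]
          norm_num
      · have hD := hasDens_of_RD_LD (RD_top hb ht hm hxl.le hxr hcx)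
            (LD_left x _ hxl.ge) (q_nonneg _) le_rfl
        rw [← h3] at hD
        refine ⟨_, hD, ?_⟩
        left
        rw [hu, RS, if_pos (by norm_num), neg_zero, q_zero]
        norm_num
  · -- x = w
    have hcx : |x - (((k:ℤ) : ℤ) : ℝ)| ≤ 1/2 := by
      rw [hxr, hk]; push_cast
      rw [show (((k:ℝ) + 1/2) - (k:ℝ)) = (1/2) by ring, abs_of_pos (by norm_num)]
    have hu : x - (((k:ℤ) : ℤ) : ℝ) = (1/2) := by
      rw [hxr, hk]; push_cast; ring
    rcases lt_or_eq_of_le h3 with h3 | h3
    · rcases lt_or_eq_of_le h2 with h2 | h2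
      · refine ⟨0 + 1/2, hasDens_of_RD_LD (RD_right x y hxr.ge)
          (LD_inner hb ht hm (by linarith) hxr.le h2 h3) le_rfl (by norm_num), ?_⟩
        right; left; norm_num
      · have hD := hasDens_of_RD_LD (RD_right x _ hxr.ge)
          (LD_bot hb ht hm (by linarith) hxr.le hcx) le_rfl (q_nonneg _)
        rw [h2] at hD
        refine ⟨_, hD, ?_⟩
        left
        rw [hu, RS, if_pos (by norm_num), q_zero]
        norm_num
    · have hD := hasDens_of_RD_LD (RD_right x _ hxr.ge)
          (LD_top hb ht hm (by linarith) hxr.le hcx) le_rfl (q_nonneg _)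
      rw [← h3] at hD
      refine ⟨_, hD, ?_⟩
      left
      rw [hu, RS, if_pos (by norm_num), neg_zero, q_zero]
      norm_num

theorem Slab_dens_notch (hb : Bd m b) (ht : Bd m t) (hm : m ≤ 1) {c : ℤ} (hc : |(c:ℝ)| < w) :
    HasDens (Slab w b t) ⟨c, 1 - t c / 4⟩ (2 * q (t c)) := by
  have hcx : |(c:ℝ) - c| ≤ 1/2 := by simp
  have hx := abs_lt.1 hc
  have hD := hasDens_of_RD_LD (RD_top hb ht hm hx.1.le hx.2 hcx)
          (LD_top hb ht hm hx.1 hx.2.le hcx) (q_nonneg _) (q_nonneg _)
  rw [V_at_int, sub_self, neg_zero, RS, if_neg (by norm_num), if_neg (by norm_num),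
    if_pos (by norm_num), neg_neg] at hD
  rwa [two_mul]

theorem Slab_dens_apex (hb : Bd m b) (ht : Bd m t) (hm : m ≤ 1) {c : ℤ} (hc : |(c:ℝ)| < w) :
    HasDens (Slab w b t) ⟨c, -(b c / 4)⟩ (2 * q (-b c)) := by
  have hcx : |(c:ℝ) - c| ≤ 1/2 := by simp
  have hx := abs_lt.1 hc
  have hD := hasDens_of_RD_LD (RD_bot hb ht hm hx.1.le hx.2 hcx)
          (LD_bot hb ht hm hx.1 hx.2.le hcx) (q_nonneg _) (q_nonneg _)
  rw [V_at_int, sub_self, neg_zero, RS, if_neg (by norm_num), if_neg (by norm_num),
    if_pos (by norm_num)] at hD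
  rwa [two_mul]

end Pool.Agent.Helper925_SC
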