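import Mathlib

/-! A compact plane set that is strictly star-shaped about a point is a closed topological disk. -/

open Set Metric Topology Pointwise

namespace Pool.Agent.Helper925_SC

/-- A subset of the plane is a closed topological disk if it is homeomorphic
to the closed unit disk. -/
def IsDisk (S : Set ℂ) : Prop := Nonempty (S ≃ₜ (Metric.closedBall (0 : ℂ) 1))

section star

variable {S : Set ℂ}

theorem star_zero_mem (hne : S.Nonempty)
    (hst : ∀ z ∈ S, ∀ s : ℝ, 0 ≤ s → s < 1 → s • z ∈ interior S) : (0 : ℂ) ∈ interior S := by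
  obtain ⟨z, hz⟩ := hne
  have := hst z hz 0 le_rfl one_pos
  simpa using this

theorem gauge_lt_iff_star (hne : S.Nonempty)
    (hst : ∀ z ∈ S, ∀ s : ℝ, 0 ≤ s → s < 1 → s • z ∈ interior S) {r : ℝ} (hr : 0 < r) (x : ℂ) :
    gauge S x < r ↔ x ∈ r • interior S := by
  have h0 : S ∈ 𝓝 (0 : ℂ) := mem_interior_iff_mem_nhds.1 (star_zero_mem hne hst)
  have habs : Absorbent ℝ S := absorbent_nhds_zero h0
  constructor
  · intro h
    obtain ⟨b, hb0, hbr, hxb⟩ := exists_lt_of_gauge_lt habs h
    obtain ⟨y, hy, rfl⟩ := hxb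
    refine ⟨(b / r) • y, hst y hy _ (by positivity) ((div_lt_one hr).2 hbr), ?_⟩
    simp only [smul_smul]
    congr 1
    field_simp
  · rintro ⟨y, hy, rfl⟩
    have h1 : gauge (interior S) y < 1 := gauge_lt_one_of_mem_of_isOpen isOpen_interior hy
    have h2 : gauge S y ≤ gauge (interior S) y :=
      gauge_mono (absorbent_nhds_zero (isOpen_interior.mem_nhds (star_zero_mem hne hst)))
        interior_subset y
    simp only [gauge_smul_of_nonneg hr.le, smul_eq_mul]
    nlinarith

theorem gauge_le_iff_star (hc : IsCompact S) (hne : S.Nonempty)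
    (hst : ∀ z ∈ S, ∀ s : ℝ, 0 ≤ s → s < 1 → s • z ∈ interior S) {r : ℝ} (hr : 0 < r) (x : ℂ) :
    gauge S x ≤ r ↔ x ∈ r • S := by
  constructor
  · intro h
    -- for all n, x ∈ (r + 1/(n+1)) • S
    have h1 : ∀ n : ℕ, (r + 1 / ((n : ℝ) + 1))⁻¹ • x ∈ S := by
      intro n
      have hp : (0 : ℝ) < 1 / ((n : ℝ) + 1) := by positivity
      have h2 : gauge S x < r + 1 / ((n : ℝ) + 1) := by linarith
      have h3 := (gauge_lt_iff_star hne hst (by linarith : (0:ℝ) < r + 1 / ((n : ℝ) + 1)) x).1 h2
      obtain ⟨y, hy, rfl⟩ := h3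
      simp only [smul_smul]
      rw [inv_mul_cancel₀ (by linarith), one_smul]
      exact interior_subset hy
    have h2 : Filter.Tendsto (fun n : ℕ => (r + 1 / ((n : ℝ) + 1))⁻¹ • x) Filter.atTop
        (𝓝 ((r + 0)⁻¹ • x)) := by
      refine Filter.Tendsto.smul_const ?_ x
      refine Filter.Tendsto.inv₀ ?_ (by linarith)
      exact tendsto_const_nhds.add tendsto_one_div_add_atTop_nhds_zero_nat
    have h3 : r⁻¹ • x ∈ S := by
      have := hc.isClosed.mem_of_tendsto h2 (Filter.Eventually.of_forall h1)
      simpa using this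
    refine ⟨r⁻¹ • x, h3, ?_⟩
    show r • (r⁻¹ • x) = x
    rw [smul_smul, mul_inv_cancel₀ hr.ne', one_smul]
  · intro h
    exact gauge_le_of_mem hr.le h

theorem continuous_gauge_star (hc : IsCompact S) (hne : S.Nonempty)
    (hst : ∀ z ∈ S, ∀ s : ℝ, 0 ≤ s → s < 1 → s • z ∈ interior S) : Continuous (gauge S) := by
  rw [OrderTopology.continuous_iff]
  intro a
  constructor
  · -- preimage of Ioi a open
    rcases lt_or_ge 0 a with ha | ha
    · have : gauge S ⁻¹' Ioi a = (a • S)ᶜ := by
        ext x
        simp only [mem_preimage, mem_Ioi, mem_compl_iff, ← gauge_le_iff_star hc hne hst ha x, not_le]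
      rw [this]
      exact (hc.smul a).isClosed.isOpen_compl
    · rcases lt_or_eq_of_le ha with ha | ha
      · have : gauge S ⁻¹' Ioi a = univ := by
          ext x
          simp only [mem_preimage, mem_Ioi, mem_univ, iff_true]
          exact lt_of_lt_of_le ha (gauge_nonneg x)
        rw [this]; exact isOpen_univ
      · have h0 : S ∈ 𝓝 (0 : ℂ) := mem_interior_iff_mem_nhds.1 (star_zero_mem hne hst)
        have habs : Absorbent ℝ S := absorbent_nhds_zero h0
        have hb : Bornology.IsVonNBounded ℝ S := (NormedSpace.isVonNBounded_iff ℝ).2 hc.isBounded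
        have : gauge S ⁻¹' Ioi a = {0}ᶜ := by
          ext x
          simp only [mem_preimage, mem_Ioi, mem_compl_iff, mem_singleton_iff, ha]
          exact gauge_pos habs hb
        rw [this]
        exact isOpen_compl_singleton
  · rcases lt_or_ge 0 a with ha | ha
    · have : gauge S ⁻¹' Iio a = a • interior S := by
        ext x
        simp only [mem_preimage, mem_Iio, gauge_lt_iff_star hne hst ha x]
      rw [this]
      exact isOpen_interior.smul₀ ha.ne'
    · have : gauge S ⁻¹' Iio a = ∅ := by
        ext x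
        simp only [mem_preimage, mem_Iio, mem_empty_iff_false, iff_false, not_lt]
        exact le_trans ha (gauge_nonneg x)
      rw [this]; exact isOpen_empty

theorem isDisk_of_star_zero (hc : IsCompact S) (hne : S.Nonempty)
    (hst : ∀ z ∈ S, ∀ s : ℝ, 0 ≤ s → s < 1 → s • z ∈ interior S) : IsDisk S := by
  have h0 : S ∈ 𝓝 (0 : ℂ) := mem_interior_iff_mem_nhds.1 (star_zero_mem hne hst)
  have habs : Absorbent ℝ S := absorbent_nhds_zero h0
  have hb : Bornology.IsVonNBounded ℝ S := (NormedSpace.isVonNBounded_iff ℝ).2 hc.isBounded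
  have hgc := continuous_gauge_star hc hne hst
  have hg0 : ∀ x : ℂ, x ≠ 0 → 0 < gauge S x := fun x hx => (gauge_pos habs hb).2 hx
  have hle1 : ∀ x : ℂ, gauge S x ≤ 1 ↔ x ∈ S := by
    intro x
    have := gauge_le_iff_star hc hne hst one_pos x
    simpa using this
  -- forward map
  let φ : ℂ → ℂ := fun x => (gauge S x / ‖x‖) • x
  let ψ : ℂ → ℂ := fun y => (‖y‖ / gauge S y) • y
  have hφn : ∀ x, ‖φ x‖ = gauge S x := by
    intro x
    by_cases hx : x = 0
    · simp [φ, hx, gauge_zero]
    · have hxn : ‖x‖ ≠ 0 := norm_ne_zero_iff.2 hx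
      simp only [φ, norm_smul, norm_div, Real.norm_eq_abs, abs_of_nonneg (gauge_nonneg x),
        abs_of_nonneg (norm_nonneg x)]
      field_simp
  have hψg : ∀ y, gauge S (ψ y) = ‖y‖ := by
    intro y
    by_cases hy : y = 0
    · simp [ψ, hy, gauge_zero]
    · have := hg0 y hy
      simp only [ψ]
      rw [gauge_smul_of_nonneg (by positivity), smul_eq_mul]
      field_simp
  have hψφ : ∀ x, ψ (φ x) = x := by
    intro x
    by_cases hx : x = 0
    · simp [φ, ψ, hx]
    · have hxn : 0 < ‖x‖ := norm_pos_iff.2 hx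
      have hgx := hg0 x hx
      simp only [ψ]
      rw [hφn x]
      have : gauge S (φ x) = gauge S x / ‖x‖ * gauge S x := by
        simp only [φ]
        rw [gauge_smul_of_nonneg (by positivity), smul_eq_mul]
      rw [this]
      simp only [φ, smul_smul]
      have h3 : gauge S x / (gauge S x / ‖x‖ * gauge S x) * (gauge S x / ‖x‖) = 1 := by
        field_simp
      rw [h3, one_smul]
  have hφψ : ∀ y, φ (ψ y) = y := by
    intro y
    by_cases hy : y = 0
    · simp [φ, ψ, hy]
    · have hyn : 0 < ‖y‖ := norm_pos_iff.2 hy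
      have hgy := hg0 y hy
      simp only [φ]
      rw [hψg y]
      have : ‖ψ y‖ = ‖y‖ / gauge S y * ‖y‖ := by
        simp only [ψ, norm_smul, norm_div, Real.norm_eq_abs, abs_of_pos hgy, abs_of_pos hyn]
      rw [this]
      simp only [ψ, smul_smul]
      have h3 : ‖y‖ / (‖y‖ / gauge S y * ‖y‖) * (‖y‖ / gauge S y) = 1 := by
        field_simp
      rw [h3, one_smul]
  have hφc : Continuous φ := by
    rw [continuous_iff_continuousAt]
    intro x
    by_cases hx : x = 0
    · subst hx
      rw [ContinuousAt]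
      have : φ 0 = 0 := by simp [φ]
      rw [this, tendsto_zero_iff_norm_tendsto_zero]
      simp only [hφn]
      have := hgc.tendsto 0
      rwa [gauge_zero] at this
    · have h1 : ContinuousAt (fun y : ℂ => gauge S y / ‖y‖) x :=
        hgc.continuousAt.div continuous_norm.continuousAt (norm_ne_zero_iff.2 hx)
      exact h1.smul (continuousAt_id (x := x))
  have : CompactSpace S := isCompact_iff_compactSpace.1 hc
  let e : S ≃ (Metric.closedBall (0 : ℂ) 1) :=
    { toFun := fun x => ⟨φ x, by simpa [hφn] using (hle1 x).2 x.2⟩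
      invFun := fun y => ⟨ψ y, by
        rw [← hle1, hψg]; exact mem_closedBall_zero_iff.1 y.2⟩
      left_inv := fun x => by ext1; exact hψφ x
      right_inv := fun y => by ext1; exact hφψ y }
  have hec : Continuous e := by
    exact Continuous.subtype_mk (hφc.comp continuous_subtype_val) _
  exact ⟨Continuous.homeoOfEquivCompactToT2 (f := e) hec⟩

end star

/-- A homeomorphism of the plane carries disks to disks. -/
theorem IsDisk.image {S : Set ℂ} (h : IsDisk S) (e : ℂ ≃ₜ ℂ) : IsDisk (e '' S) := by
  obtain ⟨f⟩ := h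
  exact ⟨(e.image S).symm.trans f⟩

/-- A compact set that is strictly star-shaped about `c` is a closed topological disk. -/
theorem isDisk_of_star {S : Set ℂ} (c : ℂ) (hc : IsCompact S) (hne : S.Nonempty)
    (hst : ∀ z ∈ S, ∀ s : ℝ, 0 ≤ s → s < 1 → c + s • (z - c) ∈ interior S) : IsDisk S := by
  have h := isDisk_of_star_zero (S := (Homeomorph.addRight (-c)) '' S)
    (hc.image (Homeomorph.continuous _)) (hne.image _) ?_
  · have h2 := h.image (Homeomorph.addRight c)
    have : (Homeomorph.addRight c) '' ((Homeomorph.addRight (-c)) '' S) = S := by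
      rw [image_image]
      simp
    rwa [this] at h2
  · rintro _ ⟨z, hz, rfl⟩ s hs0 hs1
    rw [← Homeomorph.image_interior]
    exact ⟨c + s • (z - c), hst z hz s hs0 hs1, by simp [sub_eq_add_neg]⟩

end Pool.Agent.Helper925_SC
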