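import Pool.Agent.Helper925_SC.StarNum

/-! The two-point inequality. -/

set_option autoImplicit false

namespace Pool.Agent.Helper925_SC

theorem n1 : (7 : ℝ) / 20 ≤ D (1 / 2 - 1 / 10) (1 / 10) := by
  have h := D_num 4 1 2 7 10 (by norm_num) (by norm_num) (by norm_num) (by norm_num) (by norm_num)
  norm_num at h ⊢
  exact h

theorem n2 : (7 : ℝ) / 20 ≤ D (3 / 5 - 1 / 10) (1 / 10) := by
  have h := D_num 5 1 2 7 10 (by norm_num) (by norm_num) (by norm_num) (by norm_num) (by norm_num)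
  norm_num at h ⊢
  exact h

set_option exponentiation.threshold 1000 in
theorem n3 : (241 : ℝ) / 500 ≤ D (3 / 5 - 37 / 250) (37 / 250) := by
  have h := D_num 113 37 2 241 250 (by norm_num) (by norm_num) (by norm_num) (by norm_num)
    (by norm_num)
  norm_num at h ⊢
  exact h

theorem n4 : (109 : ℝ) / 200 ≤ D (67 / 100 - 17 / 100) (17 / 100) := by
  have h := D_num 50 17 2 109 100 (by norm_num) (by norm_num) (by norm_num) (by norm_num)
    (by norm_num)
  norm_num at h ⊢
  exact h

theorem n5 : (74 : ℝ) / 100 ≤ D (17 / 20 - 1 / 4) (1 / 4) := by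
  have h := D_num 12 5 5 74 20 (by norm_num) (by norm_num) (by norm_num) (by norm_num)
    (by norm_num)
  norm_num at h ⊢
  exact h

set_option exponentiation.threshold 1000 in
theorem n6 : (163 : ℝ) / 184 ≤ D (1 - 7 / 23) (7 / 23) := by
  have h := D_num 16 7 8 163 23 (by norm_num) (by norm_num) (by norm_num) (by norm_num)
    (by norm_num)
  norm_num at h ⊢
  exact h

theorem n7 : (105 : ℝ) / 80 ≤ D (7 / 5 - 1 / 2) (1 / 2) := by
  have h := D_num 9 5 8 105 10 (by norm_num) (by norm_num) (by norm_num) (by norm_num)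
    (by norm_num)
  norm_num at h ⊢
  exact h

theorem n8 : (107 : ℝ) / 60 ≤ D (9 / 5 - 4 / 5) (4 / 5) := by
  have h := D_num 5 4 12 107 5 (by norm_num) (by norm_num) (by norm_num) (by norm_num)
    (by norm_num)
  norm_num at h ⊢
  exact h

theorem n9 : (19 : ℝ) / 10 ≤ D (2 - 4 / 5) (4 / 5) := by
  have h := D_num 6 4 2 19 5 (by norm_num) (by norm_num) (by norm_num) (by norm_num)
    (by norm_num)
  norm_num at h ⊢
  exact h

theorem n10 : (23 : ℝ) / 40 ≤ D (3 / 5 - 1 / 4) (1 / 4) := by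
  have h := D_num 7 5 2 23 20 (by norm_num) (by norm_num) (by norm_num) (by norm_num)
    (by norm_num)
  norm_num at h ⊢
  exact h

theorem n11 : (61 : ℝ) / 100 ≤ D (67 / 100 - 1 / 4) (1 / 4) := by
  have h := D_num 42 25 1 61 100 (by norm_num) (by norm_num) (by norm_num) (by norm_num)
    (by norm_num)
  norm_num at h ⊢
  exact h

theorem n12 : (1 : ℝ) / 2 ≤ D (1 / 2 - 1 / 4) (1 / 4) := by
  have h := D_self (1 / 4) (by norm_num)
  norm_num at h ⊢
  exact h.ge

theorem vA (m c z q d h : ℝ) (hh : hat z ≤ h) (hd : d ≤ D z q)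
    (hn : h + 5 * q - (m * (z + q) + c) - 2 * d ≤ 0) : FA m c z q ≤ 0 := by
  unfold FA; linarith

theorem vA' (m c z q d : ℝ) (hd : d ≤ D z q)
    (hn : (1 - z) + 5 * q - (m * (z + q) + c) - 2 * d ≤ 0) : FA' m c z q ≤ 0 := by
  unfold FA'; linarith

theorem vB (m c z q d h h' : ℝ) (hh : hat (2 * z) ≤ h) (hh' : hat (2 * q) ≤ h') (hd : d ≤ D z q)
    (hn : h / 2 + h' / 2 + z + 3 * q - (m * (z + q) + c) - 2 * d ≤ 0) : FB m c z q ≤ 0 := by
  unfold FB; linarith

theorem vB' (m c z q d h : ℝ) (hh : hat (2 * z) ≤ h) (hd : d ≤ D z q)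
    (hn : h / 2 + (1 - 2 * q) / 2 + z + 3 * q - (m * (z + q) + c) - 2 * d ≤ 0) :
    FB' m c z q ≤ 0 := by
  unfold FB'; linarith

/-- vertex on the side `q = 0` -/
theorem v0 (m c y : ℝ) (hh : hat y ≤ m * y + c) : FA m c (y - 0) 0 ≤ 0 := by
  unfold FA; rw [sub_zero, D_zero]; linarith

/-- vertex on the side `q = z` -/
theorem vd (m c y : ℝ) (hy : 0 ≤ y) (hh : hat y ≤ m * y + c) : FB m c (y - y / 2) (y / 2) ≤ 0 := by
  have e : y - y / 2 = y / 2 := by ring
  have e2 : 2 * (y / 2) = y := by ring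
  unfold FB
  rw [e, e2, D_self _ (by linarith)]
  have e3 : y / 2 + y / 2 = y := by ring
  rw [e3]
  linarith

/-- from the function values to the alternatives -/
theorem altA (m c z q : ℝ) (h : FA m c z q ≤ 0) (hy : m * (z + q) + c ≤ psi (z + q)) :
    psi z + q ≤ psi (z + q) + 2 * D z q - 4 * q := by
  have := psi_le_hat z
  unfold FA at h
  linarith

theorem altA' (m c z q : ℝ) (hz : z ≤ 1) (h : FA' m c z q ≤ 0)
    (hy : m * (z + q) + c ≤ psi (z + q)) :
    psi z + q ≤ psi (z + q) + 2 * D z q - 4 * q := by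
  have := psi_le_one z hz
  unfold FA' at h
  linarith

theorem altB (m c z q : ℝ) (h : FB m c z q ≤ 0) (hy : m * (z + q) + c ≤ psi (z + q)) :
    psi (2 * z) / 2 + psi (2 * q) / 2 + (z - q) ≤ psi (z + q) + 2 * D z q - 4 * q := by
  have := psi_le_hat (2 * z)
  have := psi_le_hat (2 * q)
  unfold FB at h
  linarith

theorem altB' (m c z q : ℝ) (hq : 2 * q ≤ 1) (h : FB' m c z q ≤ 0)
    (hy : m * (z + q) + c ≤ psi (z + q)) :
    psi (2 * z) / 2 + psi (2 * q) / 2 + (z - q) ≤ psi (z + q) + 2 * D z q - 4 * q := by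
  have := psi_le_hat (2 * z)
  have := psi_le_one (2 * q) hq
  unfold FB' at h
  linarith

/-- the two alternatives -/
def Alt (z q : ℝ) : Prop :=
  (psi z + q ≤ psi (z + q) + 2 * D z q - 4 * q) ∨
    (psi (2 * z) / 2 + psi (2 * q) / 2 + (z - q) ≤ psi (z + q) + 2 * D z q - 4 * q)

/-- strip `[1/2, 3/5]` -/
theorem strip1 (z q : ℝ) (hq : 0 ≤ q) (hqz : q ≤ z) (h1 : 1 / 2 ≤ z + q) (h2 : z + q ≤ 3 / 5) :
    Alt z q := by
  have hy : -(7 / 4) * (z + q) + 11 / 8 ≤ psi (z + q) := by
    have := psi_ge1 (z + q) h1; linarith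
  by_cases c1 : q ≤ (z + q) - 1 / 2
  · left
    refine altA _ _ z q ?_ hy
    refine trap _ (cvxA _ _) (1 / 2) (3 / 5) 0 0 0 (1 / 10) (by norm_num) (by norm_num)
      (by norm_num) (by norm_num) (by norm_num) (by norm_num) (by norm_num) ?_ ?_ ?_ ?_ z q h1 h2
      (by linarith) (by linarith)
    · exact v0 _ _ _ (by apply hat_le <;> norm_num)
    · exact v0 _ _ _ (by apply hat_le <;> norm_num)
    · exact v0 _ _ _ (by apply hat_le <;> norm_num)
    · exact vA _ _ _ _ _ (1 / 2) (by apply hat_le <;> norm_num) n2 (by norm_num)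
  · push Not at c1
    by_cases c2 : q ≤ 1 / 10 + 12 / 25 * ((z + q) - 1 / 2)
    · left
      refine altA' _ _ z q (by linarith) ?_ hy
      refine trap _ (cvxA' _ _) (1 / 2) (3 / 5) 0 (1 / 10) (1 / 10) (37 / 250) (by norm_num)
        (by norm_num) (by norm_num) (by norm_num) (by norm_num) (by norm_num) (by norm_num)
        ?_ ?_ ?_ ?_ z q h1 h2 (by linarith) (by linarith)
      · unfold FA'; rw [sub_zero, D_zero]; norm_num
      · exact vA' _ _ _ _ _ n1 (by norm_num)
      · exact vA' _ _ _ _ _ n2 (by norm_num)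
      · exact vA' _ _ _ _ _ n3 (by norm_num)
    · push Not at c2
      by_cases c3 : q ≤ 1 / 4
      · right
        refine altB' _ _ z q (by linarith) ?_ hy
        refine trap _ (cvxB' _ _) (1 / 2) (3 / 5) (1 / 10) (1 / 4) (37 / 250) (1 / 4) (by norm_num)
          (by norm_num) (by norm_num) (by norm_num) (by norm_num) (by norm_num) (by norm_num)
          ?_ ?_ ?_ ?_ z q h1 h2 (by linarith) (by linarith)
        · exact vB' _ _ _ _ _ (13 / 80) (by apply hat_le <;> norm_num) n1 (by norm_num)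
        · exact vB' _ _ _ _ _ (1 / 2) (by apply hat_le <;> norm_num) n12 (by norm_num)
        · exact vB' _ _ _ _ _ (39 / 500) (by apply hat_le <;> norm_num) n3 (by norm_num)
        · exact vB' _ _ _ _ _ (39 / 160) (by apply hat_le <;> norm_num) n10 (by norm_num)
      · push Not at c3
        right
        refine altB _ _ z q ?_ hy
        refine trap _ (cvxB _ _) (1 / 2) (3 / 5) (1 / 2 / 2) (1 / 2 / 2) (1 / 4) (3 / 5 / 2)
          (by norm_num)
          (by norm_num) (by norm_num) (by norm_num) (by norm_num) (by norm_num) (by norm_num)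
          ?_ ?_ ?_ ?_ z q h1 h2 (by linarith) (by linarith)
        · exact vd _ _ _ (by norm_num) (by apply hat_le <;> norm_num)
        · exact vd _ _ _ (by norm_num) (by apply hat_le <;> norm_num)
        · exact vB _ _ _ _ _ (39 / 160) (1 / 2) (by apply hat_le <;> norm_num)
            (by apply hat_le <;> norm_num) n10 (by norm_num)
        · exact vd _ _ _ (by norm_num) (by apply hat_le <;> norm_num)

end Pool.Agent.Helper925_SC
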