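import Pool.Agent.Helper925_SC.Star2

/-! The two-point inequality: the other strips. -/

set_option autoImplicit false

namespace Pool.Agent.Helper925_SC

theorem strip2 (z q : ℝ) (hq : 0 ≤ q) (hqz : q ≤ z) (h1 : 3 / 5 ≤ z + q)
    (h2 : z + q ≤ 67 / 100) : Alt z q := by
  have hy : -(13 / 16) * (z + q) + 13 / 16 ≤ psi (z + q) := by
    rw [psi_gt _ (by linarith)]
    have := hat2 (z + q); linarith
  by_cases c1 : q ≤ (z + q) - 1 / 2
  · left
    refine altA _ _ z q ?_ hy
    refine trap _ (cvxA _ _) (3 / 5) (67 / 100) 0 (1 / 10) 0 (17 / 100) (by norm_num) (by norm_num)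
      (by norm_num) (by norm_num) (by norm_num) (by norm_num) (by norm_num) ?_ ?_ ?_ ?_ z q h1 h2
      (by linarith) (by linarith)
    · exact v0 _ _ _ (by apply hat_le <;> norm_num)
    · exact vA _ _ _ _ _ (1 / 2) (by apply hat_le <;> norm_num) n2 (by norm_num)
    · exact v0 _ _ _ (by apply hat_le <;> norm_num)
    · exact vA _ _ _ _ _ (1 / 2) (by apply hat_le <;> norm_num) n4 (by norm_num)
  · push Not at c1
    by_cases c2 : q ≤ 37 / 250 + 11 / 35 * ((z + q) - 3 / 5)
    · left
      refine altA' _ _ z q (by linarith) ?_ hy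
      refine trap _ (cvxA' _ _) (3 / 5) (67 / 100) (1 / 10) (37 / 250) (17 / 100) (17 / 100)
        (by norm_num)
        (by norm_num) (by norm_num) (by norm_num) (by norm_num) (by norm_num) (by norm_num)
        ?_ ?_ ?_ ?_ z q h1 h2 (by linarith) (by linarith)
      · exact vA' _ _ _ _ _ n2 (by norm_num)
      · exact vA' _ _ _ _ _ n3 (by norm_num)
      · exact vA' _ _ _ _ _ n4 (by norm_num)
      · exact vA' _ _ _ _ _ n4 (by norm_num)
    · push Not at c2
      by_cases c3 : q ≤ 1 / 4
      · right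
        refine altB' _ _ z q (by linarith) ?_ hy
        refine trap _ (cvxB' _ _) (3 / 5) (67 / 100) (37 / 250) (1 / 4) (17 / 100) (1 / 4)
          (by norm_num)
          (by norm_num) (by norm_num) (by norm_num) (by norm_num) (by norm_num) (by norm_num)
          ?_ ?_ ?_ ?_ z q h1 h2 (by linarith) (by linarith)
        · exact vB' _ _ _ _ _ (39 / 500) (by apply hat_le <;> norm_num) n3 (by norm_num)
        · exact vB' _ _ _ _ _ (39 / 160) (by apply hat_le <;> norm_num) n10 (by norm_num)
        · exact vB' _ _ _ _ _ 0 (by apply hat_le <;> norm_num) n4 (by norm_num)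
        · exact vB' _ _ _ _ _ (13 / 100) (by apply hat_le <;> norm_num) n11 (by norm_num)
      · push Not at c3
        right
        refine altB _ _ z q ?_ hy
        refine trap _ (cvxB _ _) (3 / 5) (67 / 100) (1 / 4) (3 / 5 / 2) (1 / 4) (67 / 100 / 2)
          (by norm_num)
          (by norm_num) (by norm_num) (by norm_num) (by norm_num) (by norm_num) (by norm_num)
          ?_ ?_ ?_ ?_ z q h1 h2 (by linarith) (by linarith)
        · exact vB _ _ _ _ _ (39 / 160) (1 / 2) (by apply hat_le <;> norm_num)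
            (by apply hat_le <;> norm_num) n10 (by norm_num)
        · exact vd _ _ _ (by norm_num) (by apply hat_le <;> norm_num)
        · exact vB _ _ _ _ _ (13 / 100) (1 / 2) (by apply hat_le <;> norm_num)
            (by apply hat_le <;> norm_num) n11 (by norm_num)
        · exact vd _ _ _ (by norm_num) (by apply hat_le <;> norm_num)

theorem strip3 (z q : ℝ) (hq : 0 ≤ q) (hqz : q ≤ z) (h1 : 67 / 100 ≤ z + q)
    (h2 : z + q ≤ 17 / 20) : Alt z q := by
  have hy : -(13 / 16) * (z + q) + 13 / 16 ≤ psi (z + q) := by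
    rw [psi_gt _ (by linarith)]
    have := hat2 (z + q); linarith
  by_cases c2 : q ≤ 17 / 100 + 4 / 9 * ((z + q) - 67 / 100)
  · left
    refine altA _ _ z q ?_ hy
    refine trap _ (cvxA _ _) (67 / 100) (17 / 20) 0 (17 / 100) 0 (1 / 4) (by norm_num) (by norm_num)
      (by norm_num) (by norm_num) (by norm_num) (by norm_num) (by norm_num) ?_ ?_ ?_ ?_ z q h1 h2
      (by linarith) (by linarith)
    · exact v0 _ _ _ (by apply hat_le <;> norm_num)
    · exact vA _ _ _ _ _ (1 / 2) (by apply hat_le <;> norm_num) n4 (by norm_num)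
    · exact v0 _ _ _ (by apply hat_le <;> norm_num)
    · exact vA _ _ _ _ _ (13 / 40) (by apply hat_le <;> norm_num) n5 (by norm_num)
  · push Not at c2
    by_cases c3 : q ≤ 1 / 4
    · right
      refine altB' _ _ z q (by linarith) ?_ hy
      refine trap _ (cvxB' _ _) (67 / 100) (17 / 20) (17 / 100) (1 / 4) (1 / 4) (1 / 4)
        (by norm_num)
        (by norm_num) (by norm_num) (by norm_num) (by norm_num) (by norm_num) (by norm_num)
        ?_ ?_ ?_ ?_ z q h1 h2 (by linarith) (by linarith)
      · exact vB' _ _ _ _ _ 0 (by apply hat_le <;> norm_num) n4 (by norm_num)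
      · exact vB' _ _ _ _ _ (13 / 100) (by apply hat_le <;> norm_num) n11 (by norm_num)
      · exact vB' _ _ _ _ _ 0 (by apply hat_le <;> norm_num) n5 (by norm_num)
      · exact vB' _ _ _ _ _ 0 (by apply hat_le <;> norm_num) n5 (by norm_num)
    · push Not at c3
      right
      refine altB _ _ z q ?_ hy
      refine trap _ (cvxB _ _) (67 / 100) (17 / 20) (1 / 4) (67 / 100 / 2) (1 / 4) (17 / 20 / 2)
        (by norm_num)
        (by norm_num) (by norm_num) (by norm_num) (by norm_num) (by norm_num) (by norm_num)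
        ?_ ?_ ?_ ?_ z q h1 h2 (by linarith) (by linarith)
      · exact vB _ _ _ _ _ (13 / 100) (1 / 2) (by apply hat_le <;> norm_num)
          (by apply hat_le <;> norm_num) n11 (by norm_num)
      · exact vd _ _ _ (by norm_num) (by apply hat_le <;> norm_num)
      · exact vB _ _ _ _ _ 0 (1 / 2) (by apply hat_le <;> norm_num)
          (by apply hat_le <;> norm_num) n5 (by norm_num)
      · exact vd _ _ _ (by norm_num) (by apply hat_le <;> norm_num)

theorem strip4 (z q : ℝ) (hq : 0 ≤ q) (hqz : q ≤ z) (h1 : 17 / 20 ≤ z + q)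
    (h2 : z + q ≤ 1) : Alt z q := by
  have hy : -(13 / 16) * (z + q) + 13 / 16 ≤ psi (z + q) := by
    rw [psi_gt _ (by linarith)]
    have := hat2 (z + q); linarith
  by_cases c2 : q ≤ 1 / 4 + 25 / 69 * ((z + q) - 17 / 20)
  · left
    refine altA _ _ z q ?_ hy
    refine trap _ (cvxA _ _) (17 / 20) 1 0 (1 / 4) 0 (7 / 23) (by norm_num) (by norm_num)
      (by norm_num) (by norm_num) (by norm_num) (by norm_num) (by norm_num) ?_ ?_ ?_ ?_ z q h1 h2
      (by linarith) (by linarith)
    · exact v0 _ _ _ (by apply hat_le <;> norm_num)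
    · exact vA _ _ _ _ _ (13 / 40) (by apply hat_le <;> norm_num) n5 (by norm_num)
    · exact v0 _ _ _ (by apply hat_le <;> norm_num)
    · exact vA _ _ _ _ _ (91 / 368) (by apply hat_le <;> norm_num) n6 (by norm_num)
  · push Not at c2
    right
    refine altB _ _ z q ?_ hy
    refine trap _ (cvxB _ _) (17 / 20) 1 (1 / 4) (17 / 20 / 2) (7 / 23) (1 / 2)
      (by norm_num)
      (by norm_num) (by norm_num) (by norm_num) (by norm_num) (by norm_num) (by norm_num)
      ?_ ?_ ?_ ?_ z q h1 h2 (by linarith) (by linarith)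
    · exact vB _ _ _ _ _ 0 (1 / 2) (by apply hat_le <;> norm_num)
        (by apply hat_le <;> norm_num) n5 (by norm_num)
    · exact vd _ _ _ (by norm_num) (by apply hat_le <;> norm_num)
    · exact vB _ _ _ _ _ 0 (117 / 368) (by apply hat_le <;> norm_num)
        (by apply hat_le <;> norm_num) n6 (by norm_num)
    · exact vd _ _ _ (by norm_num) (by apply hat_le <;> norm_num)

theorem strip5 (z q : ℝ) (hq : 0 ≤ q) (hqz : q ≤ z) (h1 : 1 ≤ z + q)
    (h2 : z + q ≤ 7 / 5) : Alt z q := by
  have hy : 0 * (z + q) + 0 ≤ psi (z + q) := by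
    rw [psi_gt _ (by linarith)]
    have := hat3 (z + q); linarith
  by_cases c2 : q ≤ 7 / 23 + 45 / 92 * ((z + q) - 1)
  · left
    refine altA _ _ z q ?_ hy
    refine trap _ (cvxA _ _) 1 (7 / 5) 0 (7 / 23) 0 (1 / 2) (by norm_num) (by norm_num)
      (by norm_num) (by norm_num) (by norm_num) (by norm_num) (by norm_num) ?_ ?_ ?_ ?_ z q h1 h2
      (by linarith) (by linarith)
    · exact v0 _ _ _ (by apply hat_le <;> norm_num)
    · exact vA _ _ _ _ _ (91 / 368) (by apply hat_le <;> norm_num) n6 (by norm_num)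
    · exact v0 _ _ _ (by apply hat_le <;> norm_num)
    · exact vA _ _ _ _ _ (13 / 160) (by apply hat_le <;> norm_num) n7 (by norm_num)
  · push Not at c2
    right
    refine altB _ _ z q ?_ hy
    refine trap _ (cvxB _ _) 1 (7 / 5) (7 / 23) (1 / 2) (1 / 2) (7 / 5 / 2)
      (by norm_num)
      (by norm_num) (by norm_num) (by norm_num) (by norm_num) (by norm_num) (by norm_num)
      ?_ ?_ ?_ ?_ z q h1 h2 (by linarith) (by linarith)
    · exact vB _ _ _ _ _ 0 (117 / 368) (by apply hat_le <;> norm_num)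
        (by apply hat_le <;> norm_num) n6 (by norm_num)
    · exact vd _ _ _ (by norm_num) (by apply hat_le <;> norm_num)
    · exact vB _ _ _ _ _ (9 / 20) 0 (by apply hat_le <;> norm_num)
        (by apply hat_le <;> norm_num) n7 (by norm_num)
    · exact vd _ _ _ (by norm_num) (by apply hat_le <;> norm_num)

theorem strip6 (z q : ℝ) (hq : 0 ≤ q) (hqz : q ≤ z) (h1 : 7 / 5 ≤ z + q)
    (h2 : z + q ≤ 9 / 5) : Alt z q := by
  have hy : 9 / 8 * (z + q) + (-(63 / 40)) ≤ psi (z + q) := by
    rw [psi_gt _ (by linarith)]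
    have := hat4 (z + q); linarith
  by_cases c2 : q ≤ 1 / 2 + 3 / 4 * ((z + q) - 7 / 5)
  · left
    refine altA _ _ z q ?_ hy
    refine trap _ (cvxA _ _) (7 / 5) (9 / 5) 0 (1 / 2) 0 (4 / 5) (by norm_num) (by norm_num)
      (by norm_num) (by norm_num) (by norm_num) (by norm_num) (by norm_num) ?_ ?_ ?_ ?_ z q h1 h2
      (by linarith) (by linarith)
    · exact v0 _ _ _ (by apply hat_le <;> norm_num)
    · exact vA _ _ _ _ _ (13 / 160) (by apply hat_le <;> norm_num) n7 (by norm_num)
    · exact v0 _ _ _ (by apply hat_le <;> norm_num)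
    · exact vA _ _ _ _ _ 0 (by apply hat_le <;> norm_num) n8 (by norm_num)
  · push Not at c2
    right
    refine altB _ _ z q ?_ hy
    refine trap _ (cvxB _ _) (7 / 5) (9 / 5) (1 / 2) (7 / 5 / 2) (4 / 5) (9 / 5 / 2)
      (by norm_num)
      (by norm_num) (by norm_num) (by norm_num) (by norm_num) (by norm_num) (by norm_num)
      ?_ ?_ ?_ ?_ z q h1 h2 (by linarith) (by linarith)
    · exact vB _ _ _ _ _ (9 / 20) 0 (by apply hat_le <;> norm_num)
        (by apply hat_le <;> norm_num) n7 (by norm_num)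
    · exact vd _ _ _ (by norm_num) (by apply hat_le <;> norm_num)
    · exact vB _ _ _ _ _ 1 (9 / 40) (by apply hat_le <;> norm_num)
        (by apply hat_le <;> norm_num) n8 (by norm_num)
    · exact vd _ _ _ (by norm_num) (by apply hat_le <;> norm_num)

theorem strip7 (z q : ℝ) (hq : 0 ≤ q) (hqz : q ≤ z) (h1 : 9 / 5 ≤ z + q)
    (h2 : z + q ≤ 2) : Alt z q := by
  have hy : 11 / 4 * (z + q) + (-(9 / 2)) ≤ psi (z + q) := by
    rw [psi_gt _ (by linarith)]
    have := hat5 (z + q); linarith
  by_cases c2 : q ≤ 4 / 5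
  · left
    refine altA _ _ z q ?_ hy
    refine trap _ (cvxA _ _) (9 / 5) 2 0 (4 / 5) 0 (4 / 5) (by norm_num) (by norm_num)
      (by norm_num) (by norm_num) (by norm_num) (by norm_num) (by norm_num) ?_ ?_ ?_ ?_ z q h1 h2
      (by linarith) (by linarith)
    · exact v0 _ _ _ (by apply hat_le <;> norm_num)
    · exact vA _ _ _ _ _ 0 (by apply hat_le <;> norm_num) n8 (by norm_num)
    · exact v0 _ _ _ (by apply hat_le <;> norm_num)
    · exact vA _ _ _ _ _ 0 (by apply hat_le <;> norm_num) n9 (by norm_num)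
  · push Not at c2
    right
    refine altB _ _ z q ?_ hy
    refine trap _ (cvxB _ _) (9 / 5) 2 (4 / 5) (9 / 5 / 2) (4 / 5) (2 / 2)
      (by norm_num)
      (by norm_num) (by norm_num) (by norm_num) (by norm_num) (by norm_num) (by norm_num)
      ?_ ?_ ?_ ?_ z q h1 h2 (by linarith) (by linarith)
    · exact vB _ _ _ _ _ 1 (9 / 40) (by apply hat_le <;> norm_num)
        (by apply hat_le <;> norm_num) n8 (by norm_num)
    · exact vd _ _ _ (by norm_num) (by apply hat_le <;> norm_num)
    · exact vB _ _ _ _ _ (21 / 10) (9 / 40) (by apply hat_le <;> norm_num)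
        (by apply hat_le <;> norm_num) n9 (by norm_num)
    · exact vd _ _ _ (by norm_num) (by apply hat_le <;> norm_num)

theorem low (z q : ℝ) (hq : 0 ≤ q) (hqz : q ≤ z) (h2 : z + q ≤ 1 / 2) : Alt z q := by
  have e0 := psi_half (z + q) h2
  have e1 := psi_half z (by linarith)
  have e2 := psi_le_one (2 * z) (by linarith)
  have e3 := psi_half (2 * q) (by linarith)
  have h31 : (3 : ℝ) ≤ D 3 1 := by
    have h := D_num 3 1 1 3 1 (by norm_num) (by norm_num) (by norm_num) (by norm_num)
      (by norm_num)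
    norm_num at h ⊢
    exact h
  by_cases c : 3 * q ≤ z
  · left
    have h1 := D_add (z - 3 * q) 0 (q * 3) (q * 1) (by linarith) le_rfl (by positivity)
      (by positivity)
    rw [D_zero, D_smul q 3 1 hq (by norm_num) (by norm_num)] at h1
    have e4 : z - 3 * q + q * 3 = z := by ring
    have e5 : 0 + q * 1 = q := by ring
    rw [e4, e5] at h1
    have h3 := mul_le_mul_of_nonneg_left h31 hq
    rw [e0, e1]
    linarith
  · right
    push Not at c
    have hα : 0 ≤ (z - q) / 2 := by linarith
    have hβ : 0 ≤ (3 * q - z) / 2 := by linarith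
    have h1 := D_add ((z - q) / 2 * 3) ((z - q) / 2 * 1) ((3 * q - z) / 2) ((3 * q - z) / 2)
      (by positivity) (by positivity) hβ hβ
    rw [D_smul _ 3 1 hα (by norm_num) (by norm_num), D_self _ hβ] at h1
    have e4 : (z - q) / 2 * 3 + (3 * q - z) / 2 = z := by ring
    have e5 : (z - q) / 2 * 1 + (3 * q - z) / 2 = q := by ring
    rw [e4, e5] at h1
    have h3 := mul_le_mul_of_nonneg_left h31 hα
    rw [e0, e3]
    linarith

theorem high (z q : ℝ) (hq : 0 ≤ q) (hqz : q ≤ z) (h2 : 2 ≤ z + q) : Alt z q := by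
  left
  have h1 := D_ge z q hq hqz
  rw [psi_gt (z + q) (by linarith)]
  have h3 := psi_le_hat z
  have h4 : hat z ≤ hat (z + q) - q := by
    have h5 := hat5 (z + q)
    apply hat_le <;> linarith
  linarith

/-- the two-point inequality -/
theorem star (z q : ℝ) (hq : 0 ≤ q) (hqz : q ≤ z) : Alt z q := by
  rcases le_total (z + q) (1 / 2) with h | h
  · exact low z q hq hqz h
  rcases le_total (z + q) (3 / 5) with h1 | h1
  · exact strip1 z q hq hqz h h1
  rcases le_total (z + q) (67 / 100) with h2 | h2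
  · exact strip2 z q hq hqz h1 h2
  rcases le_total (z + q) (17 / 20) with h3 | h3
  · exact strip3 z q hq hqz h2 h3
  rcases le_total (z + q) 1 with h4 | h4
  · exact strip4 z q hq hqz h3 h4
  rcases le_total (z + q) (7 / 5) with h5 | h5
  · exact strip5 z q hq hqz h4 h5
  rcases le_total (z + q) (9 / 5) with h6 | h6
  · exact strip6 z q hq hqz h5 h6
  rcases le_total (z + q) 2 with h7 | h7
  · exact strip7 z q hq hqz h6 h7
  · exact high z q hq hqz h7

end Pool.Agent.Helper925_SC
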