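import Pool.Agent.Helper925_SC.Num

/-! The potential and the two-point inequality. -/

set_option autoImplicit false

namespace Pool.Agent.Helper925_SC

/-- the convex part of the potential -/
noncomputable def hat (x : ℝ) : ℝ :=
  max (11 / 8 - 7 / 4 * x) (max (13 / 16 * (1 - x)) (max 0 (max (9 / 8 * (x - 7 / 5))
    (9 / 20 + 11 / 4 * (x - 9 / 5)))))

/-- the potential -/
noncomputable def psi (x : ℝ) : ℝ := if x ≤ 1 / 2 then 1 - x else hat x

theorem hat1 (x : ℝ) : 11 / 8 - 7 / 4 * x ≤ hat x := le_max_left _ _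
theorem hat2 (x : ℝ) : 13 / 16 * (1 - x) ≤ hat x := (le_max_left _ _).trans (le_max_right _ _)
theorem hat3 (x : ℝ) : 0 ≤ hat x :=
  (le_max_left _ _).trans ((le_max_right _ _).trans (le_max_right _ _))
theorem hat4 (x : ℝ) : 9 / 8 * (x - 7 / 5) ≤ hat x :=
  (le_max_left _ _).trans ((le_max_right _ _).trans ((le_max_right _ _).trans (le_max_right _ _)))
theorem hat5 (x : ℝ) : 9 / 20 + 11 / 4 * (x - 9 / 5) ≤ hat x :=
  (le_max_right _ _).trans ((le_max_right _ _).trans ((le_max_right _ _).trans (le_max_right _ _)))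

theorem hat_le (x c : ℝ) (h1 : 11 / 8 - 7 / 4 * x ≤ c) (h2 : 13 / 16 * (1 - x) ≤ c) (h3 : 0 ≤ c)
    (h4 : 9 / 8 * (x - 7 / 5) ≤ c) (h5 : 9 / 20 + 11 / 4 * (x - 9 / 5) ≤ c) : hat x ≤ c :=
  max_le h1 (max_le h2 (max_le h3 (max_le h4 h5)))

theorem hat_cvx (x y a b : ℝ) (ha : 0 ≤ a) (hb : 0 ≤ b) (hab : a + b = 1) :
    hat (a * x + b * y) ≤ a * hat x + b * hat y := by
  have e : b = 1 - a := by linarith
  subst e
  apply hat_le
  · nlinarith [mul_le_mul_of_nonneg_left (hat1 x) ha, mul_le_mul_of_nonneg_left (hat1 y) hb]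
  · nlinarith [mul_le_mul_of_nonneg_left (hat2 x) ha, mul_le_mul_of_nonneg_left (hat2 y) hb]
  · nlinarith [mul_nonneg ha (hat3 x), mul_nonneg hb (hat3 y)]
  · nlinarith [mul_le_mul_of_nonneg_left (hat4 x) ha, mul_le_mul_of_nonneg_left (hat4 y) hb]
  · nlinarith [mul_le_mul_of_nonneg_left (hat5 x) ha, mul_le_mul_of_nonneg_left (hat5 y) hb]

theorem psi_le_hat (x : ℝ) : psi x ≤ hat x := by
  unfold psi
  split_ifs with h
  · refine le_trans ?_ (hat1 x)
    linarith
  · exact le_rfl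

theorem psi_le_one (x : ℝ) (hx : x ≤ 1) : psi x ≤ 1 - x := by
  unfold psi
  split_ifs with h
  · exact le_rfl
  · push Not at h
    apply hat_le <;> linarith

theorem psi_half (x : ℝ) (hx : x ≤ 1 / 2) : psi x = 1 - x := by
  unfold psi; rw [if_pos hx]

theorem psi_ge1 (y : ℝ) (hy : 1 / 2 ≤ y) : 11 / 8 - 7 / 4 * y ≤ psi y := by
  unfold psi
  split_ifs with h
  · linarith
  · exact hat1 y

theorem psi_gt (y : ℝ) (hy : 1 / 2 < y) : psi y = hat y := by
  unfold psi
  rw [if_neg (by linarith)]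

/-- convexity along segments in the quadrant -/
def Cvx (Φ : ℝ → ℝ → ℝ) : Prop :=
  ∀ z q z' q' a b : ℝ, 0 ≤ z → 0 ≤ q → 0 ≤ z' → 0 ≤ q' → 0 ≤ a → 0 ≤ b → a + b = 1 →
    Φ (a * z + b * z') (a * q + b * q') ≤ a * Φ z q + b * Φ z' q'

theorem D_conc (z q z' q' a b : ℝ) (hz : 0 ≤ z) (hq : 0 ≤ q) (hz' : 0 ≤ z') (hq' : 0 ≤ q')
    (ha : 0 ≤ a) (hb : 0 ≤ b) :
    a * D z q + b * D z' q' ≤ D (a * z + b * z') (a * q + b * q') := by
  rw [← D_smul a z q ha hz hq, ← D_smul b z' q' hb hz' hq']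
  exact D_add _ _ _ _ (by positivity) (by positivity) (by positivity) (by positivity)

theorem trap (Φ : ℝ → ℝ → ℝ) (hΦ : Cvx Φ) (y1 y2 a1 b1 a2 b2 : ℝ) (hy : y1 < y2)
    (ha1 : 0 ≤ a1) (hab1 : a1 ≤ b1) (hb1 : b1 ≤ y1) (ha2 : 0 ≤ a2) (hab2 : a2 ≤ b2) (hb2 : b2 ≤ y2)
    (v11 : Φ (y1 - a1) a1 ≤ 0) (v12 : Φ (y1 - b1) b1 ≤ 0) (v21 : Φ (y2 - a2) a2 ≤ 0)
    (v22 : Φ (y2 - b2) b2 ≤ 0) (z q : ℝ) (hy1 : y1 ≤ z + q) (hy2 : z + q ≤ y2)
    (hlo : a1 * (y2 - (z + q)) + a2 * ((z + q) - y1) ≤ q * (y2 - y1))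
    (hhi : q * (y2 - y1) ≤ b1 * (y2 - (z + q)) + b2 * ((z + q) - y1)) : Φ z q ≤ 0 := by
  have hd : 0 < y2 - y1 := by linarith
  set s := ((z + q) - y1) / (y2 - y1) with hs
  have hs0 : 0 ≤ s := div_nonneg (by linarith) hd.le
  have hs1 : 0 ≤ 1 - s := by
    rw [sub_nonneg, hs, div_le_one hd]; linarith
  have hsy : z + q = (1 - s) * y1 + s * y2 := by
    rw [hs]; field_simp; ring
  set lo := (1 - s) * a1 + s * a2 with hlod
  set hi := (1 - s) * b1 + s * b2 with hhid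
  have hlo' : lo ≤ q := by
    have e : lo * (y2 - y1) = a1 * (y2 - (z + q)) + a2 * ((z + q) - y1) := by
      rw [hlod, hs]; field_simp; ring
    rw [← e] at hlo
    exact le_of_mul_le_mul_right hlo hd
  have hhi' : q ≤ hi := by
    have e : hi * (y2 - y1) = b1 * (y2 - (z + q)) + b2 * ((z + q) - y1) := by
      rw [hhid, hs]; field_simp; ring
    rw [← e] at hhi
    exact le_of_mul_le_mul_right hhi hd
  obtain ⟨r, hr0, hr1, hrq⟩ : ∃ r : ℝ, 0 ≤ r ∧ 0 ≤ 1 - r ∧ q = (1 - r) * lo + r * hi := by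
    rcases eq_or_lt_of_le (hlo'.trans hhi') with h | h
    · exact ⟨0, le_rfl, by norm_num, by rw [← h] at hhi'; linarith⟩
    · have hd2 : 0 < hi - lo := by linarith
      refine ⟨(q - lo) / (hi - lo), div_nonneg (by linarith) hd2.le, ?_, ?_⟩
      · rw [sub_nonneg, div_le_one hd2]; linarith
      · field_simp; ring
  -- the two points on the sides
  have p1 : Φ (y1 - ((1 - r) * a1 + r * b1)) ((1 - r) * a1 + r * b1) ≤ 0 := by
    have h := hΦ (y1 - a1) a1 (y1 - b1) b1 (1 - r) r (by linarith) ha1 (by linarith)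
      (by linarith) hr1 hr0 (by ring)
    have e : (1 - r) * (y1 - a1) + r * (y1 - b1) = y1 - ((1 - r) * a1 + r * b1) := by ring
    rw [e] at h
    have := mul_nonpos_of_nonneg_of_nonpos hr1 v11
    have := mul_nonpos_of_nonneg_of_nonpos hr0 v12
    linarith
  have p2 : Φ (y2 - ((1 - r) * a2 + r * b2)) ((1 - r) * a2 + r * b2) ≤ 0 := by
    have h := hΦ (y2 - a2) a2 (y2 - b2) b2 (1 - r) r (by linarith) ha2 (by linarith)
      (by linarith) hr1 hr0 (by ring)
    have e : (1 - r) * (y2 - a2) + r * (y2 - b2) = y2 - ((1 - r) * a2 + r * b2) := by ring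
    rw [e] at h
    have := mul_nonpos_of_nonneg_of_nonpos hr1 v21
    have := mul_nonpos_of_nonneg_of_nonpos hr0 v22
    linarith
  have c1 : 0 ≤ (1 - r) * a1 + r * b1 := by
    have := mul_nonneg hr1 ha1
    have := mul_nonneg hr0 (ha1.trans hab1)
    linarith
  have c1' : (1 - r) * a1 + r * b1 ≤ y1 := by
    have := mul_le_mul_of_nonneg_left (hab1.trans hb1) hr1
    have := mul_le_mul_of_nonneg_left hb1 hr0
    linarith
  have c2 : 0 ≤ (1 - r) * a2 + r * b2 := by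
    have := mul_nonneg hr1 ha2
    have := mul_nonneg hr0 (ha2.trans hab2)
    linarith
  have c2' : (1 - r) * a2 + r * b2 ≤ y2 := by
    have := mul_le_mul_of_nonneg_left (hab2.trans hb2) hr1
    have := mul_le_mul_of_nonneg_left hb2 hr0
    linarith
  have h := hΦ _ _ _ _ (1 - s) s (by linarith : 0 ≤ y1 - ((1 - r) * a1 + r * b1)) c1
    (by linarith : 0 ≤ y2 - ((1 - r) * a2 + r * b2)) c2 hs1 hs0 (by ring)
  have e2 : (1 - s) * ((1 - r) * a1 + r * b1) + s * ((1 - r) * a2 + r * b2) = q := by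
    rw [hrq, hlod, hhid]; ring
  have e1 : (1 - s) * (y1 - ((1 - r) * a1 + r * b1)) + s * (y2 - ((1 - r) * a2 + r * b2)) = z := by
    have : (1 - s) * (y1 - ((1 - r) * a1 + r * b1)) + s * (y2 - ((1 - r) * a2 + r * b2)) =
        ((1 - s) * y1 + s * y2) -
          ((1 - s) * ((1 - r) * a1 + r * b1) + s * ((1 - r) * a2 + r * b2)) := by ring
    rw [this, e2, ← hsy]; ring
  rw [e1, e2] at h
  have := mul_nonpos_of_nonneg_of_nonpos hs1 p1
  have := mul_nonpos_of_nonneg_of_nonpos hs0 p2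
  linarith

/-- the function for the first alternative, upper bound `hat` -/
noncomputable def FA (m c : ℝ) (z q : ℝ) : ℝ := hat z + 5 * q - (m * (z + q) + c) - 2 * D z q
/-- the function for the first alternative, upper bound `1 - z` -/
noncomputable def FA' (m c : ℝ) (z q : ℝ) : ℝ := (1 - z) + 5 * q - (m * (z + q) + c) - 2 * D z q
/-- the function for the second alternative, upper bound `hat` -/
noncomputable def FB (m c : ℝ) (z q : ℝ) : ℝ :=
  hat (2 * z) / 2 + hat (2 * q) / 2 + z + 3 * q - (m * (z + q) + c) - 2 * D z q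
/-- the function for the second alternative, upper bound `1 - 2q` -/
noncomputable def FB' (m c : ℝ) (z q : ℝ) : ℝ :=
  hat (2 * z) / 2 + (1 - 2 * q) / 2 + z + 3 * q - (m * (z + q) + c) - 2 * D z q

theorem cvxA (m c : ℝ) : Cvx (FA m c) := by
  intro z q z' q' a b hz hq hz' hq' ha hb hab
  have h1 := D_conc z q z' q' a b hz hq hz' hq' ha hb
  have h2 := hat_cvx z z' a b ha hb hab
  unfold FA
  have e : b = 1 - a := by linarith
  subst e
  nlinarith

theorem cvxA' (m c : ℝ) : Cvx (FA' m c) := by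
  intro z q z' q' a b hz hq hz' hq' ha hb hab
  have h1 := D_conc z q z' q' a b hz hq hz' hq' ha hb
  unfold FA'
  have e : b = 1 - a := by linarith
  subst e
  nlinarith

theorem cvxB (m c : ℝ) : Cvx (FB m c) := by
  intro z q z' q' a b hz hq hz' hq' ha hb hab
  have h1 := D_conc z q z' q' a b hz hq hz' hq' ha hb
  have h2 := hat_cvx (2 * z) (2 * z') a b ha hb hab
  have h3 := hat_cvx (2 * q) (2 * q') a b ha hb hab
  have e2 : a * (2 * z) + b * (2 * z') = 2 * (a * z + b * z') := by ring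
  have e3 : a * (2 * q) + b * (2 * q') = 2 * (a * q + b * q') := by ring
  rw [e2] at h2
  rw [e3] at h3
  unfold FB
  have e : b = 1 - a := by linarith
  subst e
  nlinarith

theorem cvxB' (m c : ℝ) : Cvx (FB' m c) := by
  intro z q z' q' a b hz hq hz' hq' ha hb hab
  have h1 := D_conc z q z' q' a b hz hq hz' hq' ha hb
  have h2 := hat_cvx (2 * z) (2 * z') a b ha hb hab
  have e2 : a * (2 * z) + b * (2 * z') = 2 * (a * z + b * z') := by ring
  rw [e2] at h2
  unfold FB'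
  have e : b = 1 - a := by linarith
  subst e
  nlinarith

end Pool.Agent.Helper925_SC
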