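import Pool.Agent.Helper925_SC.SlabDens

/-! Local finiteness and the sum of local densities in a tiling. -/

open Set Metric Topology MeasureTheory
open scoped ENNReal Real

namespace Pool.Agent.Helper925_SC

/-- The frontier of a compact strictly star-shaped set is a null set. -/
theorem null_frontier_of_star {S : Set ℂ} (c : ℂ) (hc : IsCompact S)
    (hst : ∀ z ∈ S, ∀ s : ℝ, 0 ≤ s → s < 1 → c + s • (z - c) ∈ interior S) :
    volume (frontier S) = 0 := by
  have hfin : volume S ≠ ∞ := hc.measure_lt_top.ne
  have hfr : frontier S ⊆ S := hc.isClosed.frontier_subset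
  have hfin' : volume (frontier S) ≠ ∞ := ((measure_mono hfr).trans_lt hc.measure_lt_top).ne
  have key : ∀ s : ℝ, 0 ≤ s → s < 1 →
      (volume (frontier S)).toReal + s ^ 2 * (volume S).toReal ≤ (volume S).toReal := by
    intro s hs0 hs1
    have h1 : volume (AffineMap.homothety c s '' S) = ENNReal.ofReal (s ^ 2) * volume S := by
      rw [Measure.addHaar_image_homothety, Complex.finrank_real_complex, abs_of_nonneg (by positivity)]
    have hsub : AffineMap.homothety c s '' S ⊆ interior S := by
      rintro _ ⟨z, hz, rfl⟩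
      have := hst z hz s hs0 hs1
      rw [AffineMap.homothety_apply]
      simpa [add_comm] using this
    have hdisj : Disjoint (frontier S) (AffineMap.homothety c s '' S) :=
      disjoint_interior_frontier.symm.mono_right hsub
    have hmeas : MeasurableSet (AffineMap.homothety c s '' S) := by
      refine (hc.image ?_).isClosed.measurableSet
      exact (AffineMap.homothety_continuous c s)
    have h2 : volume (frontier S ∪ AffineMap.homothety c s '' S) ≤ volume S :=
      measure_mono (union_subset hfr (hsub.trans interior_subset))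
    rw [measure_union hdisj hmeas, h1] at h2
    have h3 := ENNReal.toReal_mono hfin h2
    rw [ENNReal.toReal_add hfin' (by exact ENNReal.mul_ne_top ENNReal.ofReal_ne_top hfin),
      ENNReal.toReal_mul, ENNReal.toReal_ofReal (by positivity)] at h3
    exact h3
  have h0 : (volume (frontier S)).toReal ≤ 0 := by
    by_contra hcon
    push Not at hcon
    set f := (volume (frontier S)).toReal
    set v := (volume S).toReal
    have hv : 0 ≤ v := ENNReal.toReal_nonneg
    -- choose s with (1 - s^2) v < f
    have hpos : 0 < f / (2 * (v + f)) := by positivity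
    have hlt : f / (2 * (v + f)) < 1 := by
      rw [div_lt_one (by positivity)]; linarith
    have := key (1 - f / (2 * (v + f))) (by linarith) (by linarith)
    have e : f / (2 * (v + f)) * (2 * (v + f)) = f := by field_simp
    set x := f / (2 * (v + f))
    have g1 : 0 ≤ x ^ 2 * v := by positivity
    have g2 : 0 < x * f := by positivity
    nlinarith
  have h1 : (volume (frontier S)).toReal = 0 := le_antisymm h0 ENNReal.toReal_nonneg
  rcases (ENNReal.toReal_eq_zero_iff _).1 h1 with h | h
  · exact h
  · exact absurd h hfin'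

/-- Basic properties shared by the tiles. -/
structure Good (D : ℝ) (T : Set ℂ) : Prop where
  closed : IsClosed T
  front : volume (frontier T) = 0
  inner : ∃ x, ball x (1/8) ⊆ T
  diam : ∀ p ∈ T, ∀ p' ∈ T, dist p p' ≤ D

theorem Good.image {D : ℝ} {T : Set ℂ} (h : Good D T) (g : ℂ ≃ᵢ ℂ) : Good D (g '' T) where
  closed := by
    have := g.toHomeomorph.isClosedMap T h.closed
    exact this
  front := by
    have : frontier (g '' T) = g '' frontier T := (g.toHomeomorph.image_frontier T).symm
    rw [this, volume_isometry, h.front]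
  inner := by
    obtain ⟨x, hx⟩ := h.inner
    refine ⟨g x, ?_⟩
    rw [← g.image_ball]
    exact image_mono hx
  diam := by
    rintro _ ⟨p, hp, rfl⟩ _ ⟨p', hp', rfl⟩
    rw [g.dist_eq]
    exact h.diam p hp p' hp'

/-- A tiling by good tiles. -/
structure Tiling (D : ℝ) (A : Set (Set ℂ)) : Prop where
  good : ∀ T ∈ A, Good D T
  disj : ∀ T ∈ A, ∀ T' ∈ A, T ≠ T' → Disjoint (interior T) (interior T')
  cover : ⋃₀ A = univ

theorem Tiling.finite {D : ℝ} {A : Set (Set ℂ)} (h : Tiling D A) (x : ℂ) (R : ℝ) :
    {T | T ∈ A ∧ (T ∩ closedBall x R).Nonempty}.Finite := by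
  set I : Set (Set ℂ) := {T | T ∈ A ∧ (T ∩ closedBall x R).Nonempty} with hI
  let ε : ℝ≥0∞ := volume (ball (0:ℂ) (1/8))
  have hε : 0 < ε := measure_ball_pos _ _ (by norm_num)
  have hsub : (⋃ i : I, interior (i : Set ℂ)) ⊆ closedBall x (R + D) := by
    intro z hz
    obtain ⟨⟨T, hTA, y, hyT, hyR⟩, hzT⟩ := mem_iUnion.1 hz
    have h1 := (h.good T hTA).diam z (interior_subset hzT) y hyT
    rw [mem_closedBall] at hyR ⊢
    calc dist z x ≤ dist z y + dist y x := dist_triangle _ _ _
      _ ≤ D + R := add_le_add h1 hyR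
      _ = R + D := add_comm _ _
  have hfin := Measure.finite_const_le_meas_of_disjoint_iUnion (volume : Measure ℂ) hε
    (As := fun i : I => interior (i : Set ℂ)) (fun i => isOpen_interior.measurableSet)
    (fun i j hij => h.disj i i.2.1 j j.2.1 (fun h => hij (Subtype.ext h)))
    ((measure_mono hsub).trans_lt measure_closedBall_lt_top).ne
  have huniv : {i : I | ε ≤ volume (interior (i : Set ℂ))} = univ := by
    ext i
    simp only [mem_ofPred_eq, mem_univ, iff_true]
    obtain ⟨y, hy⟩ := (h.good i i.2.1).inner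
    have h1 : ball y (1/8) ⊆ interior (i : Set ℂ) := interior_maximal hy isOpen_ball
    have h2 : ε = volume (ball y (1/8)) := by
      simp only [ε, Complex.volume_ball]
    rw [h2]
    exact measure_mono h1
  rw [huniv] at hfin
  have : Finite I := finite_univ_iff.1 hfin
  exact this

theorem Tiling.aedisjoint {D : ℝ} {A : Set (Set ℂ)} (h : Tiling D A) {T T' : Set ℂ}
    (hT : T ∈ A) (hT' : T' ∈ A) (hne : T ≠ T') : AEDisjoint volume T T' := by
  have hsub : T ∩ T' ⊆ frontier T ∪ frontier T' := by
    rintro z ⟨h1, h2⟩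
    by_contra hcon
    rw [mem_union, not_or] at hcon
    have a1 : z ∈ interior T := by
      by_contra h3
      exact hcon.1 ((h.good T hT).closed.frontier_eq ▸ ⟨h1, h3⟩)
    have a2 : z ∈ interior T' := by
      by_contra h3
      exact hcon.2 ((h.good T' hT').closed.frontier_eq ▸ ⟨h2, h3⟩)
    exact (h.disj T hT T' hT' hne).le_bot ⟨a1, a2⟩
  refine measure_mono_null hsub ?_
  rw [measure_union_null_iff]
  exact ⟨(h.good T hT).front, (h.good T' hT').front⟩

theorem Tiling.sum_dens {D : ℝ} {A : Set (Set ℂ)} (h : Tiling D A) (p : ℂ) (F : Finset (Set ℂ))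
    (hF : ∀ T, T ∈ F ↔ T ∈ A ∧ p ∈ T) (d : Set ℂ → ℝ)
    (hd : ∀ T ∈ F, HasDens T p (d T) ∧ 0 ≤ d T) : ∑ T ∈ F, d T = 1 := by
  have hpi := Real.pi_pos
  -- nearby tiles
  have hfin := h.finite p 1
  set G := hfin.toFinset with hG
  have hcl : IsClosed (⋃ T ∈ (G \ F : Finset (Set ℂ)), T) := by
    refine isClosed_biUnion_finset ?_
    intro T hT
    rw [Finset.mem_sdiff, hG, Set.Finite.mem_toFinset] at hT
    exact (h.good T hT.1.1).closed
  have hpn : p ∉ ⋃ T ∈ (G \ F : Finset (Set ℂ)), T := by
    intro hp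
    simp only [mem_iUnion] at hp
    obtain ⟨T, hT, hpT⟩ := hp
    rw [Finset.mem_sdiff, hG, Set.Finite.mem_toFinset] at hT
    exact hT.2 ((hF T).2 ⟨hT.1.1, hpT⟩)
  obtain ⟨r, hr, hball⟩ := Metric.isOpen_iff.1 hcl.isOpen_compl p hpn
  -- common scale
  have hex : ∃ t₁ > 0, ∀ T ∈ F, ∀ t, 0 < t → t ≤ t₁ →
      volume (T ∩ ball p t) = ENNReal.ofReal (d T * (π * t ^ 2)) := by
    clear hF hcl hpn hball
    induction F using Finset.induction_on with
    | empty => exact ⟨1, one_pos, by simp⟩
    | insert T F _ ih =>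
      obtain ⟨t₁, ht₁, h1⟩ := ih (fun T hT => hd T (Finset.mem_insert_of_mem hT))
      obtain ⟨⟨t₂, ht₂, h2⟩, _⟩ := hd T (Finset.mem_insert_self _ _)
      refine ⟨min t₁ t₂, lt_min ht₁ ht₂, ?_⟩
      intro T' hT' t ht htt
      rcases Finset.mem_insert.1 hT' with rfl | h3
      · exact h2 t ht (htt.trans (min_le_right _ _))
      · exact h1 T' h3 t ht (htt.trans (min_le_left _ _))
  obtain ⟨t₁, ht₁, h1⟩ := hex
  set t := min t₁ (min r 1) with ht
  have htpos : 0 < t := lt_min ht₁ (lt_min hr one_pos)
  have htr : t ≤ r := (min_le_right _ _).trans (min_le_left _ _)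
  have ht1 : t ≤ 1 := (min_le_right _ _).trans (min_le_right _ _)
  have hcov : ball p t = ⋃ T ∈ F, (T ∩ ball p t) := by
    apply Subset.antisymm
    · intro z hz
      have hzu : z ∈ ⋃₀ A := by rw [h.cover]; trivial
      obtain ⟨T, hTA, hzT⟩ := hzu
      have hTG : T ∈ G := by
        rw [hG, Set.Finite.mem_toFinset]
        exact ⟨hTA, z, hzT, ball_subset_closedBall (ball_subset_ball ht1 hz)⟩
      have hTF : T ∈ F := by
        by_contra hcon
        have : z ∉ ⋃ T ∈ (G \ F : Finset (Set ℂ)), T := hball (ball_subset_ball htr hz)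
        apply this
        simp only [mem_iUnion]
        exact ⟨T, Finset.mem_sdiff.2 ⟨hTG, hcon⟩, hzT⟩
      simp only [mem_iUnion]
      exact ⟨T, hTF, hzT, hz⟩
    · intro z hz
      simp only [mem_iUnion] at hz
      obtain ⟨T, _, _, hz⟩ := hz
      exact hz
  have hvol : volume (ball p t) = ∑ T ∈ F, volume (T ∩ ball p t) := by
    conv_lhs => rw [hcov]
    rw [measure_biUnion_finset₀]
    · intro T hT T' hT' hne
      have hT := ((hF T).1 hT).1
      have hT' := ((hF T').1 hT').1
      exact (h.aedisjoint hT hT' hne).mono inter_subset_left inter_subset_left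
    · intro T hT
      exact ((h.good T ((hF T).1 hT).1).closed.measurableSet.inter measurableSet_ball).nullMeasurableSet
  have hvol2 : volume (ball p t) = ENNReal.ofReal (∑ T ∈ F, d T * (π * t ^ 2)) := by
    rw [hvol, ENNReal.ofReal_sum_of_nonneg]
    · exact Finset.sum_congr rfl (fun T hT => h1 T hT t htpos (min_le_left _ _))
    · intro T hT
      have := (hd T hT).2
      positivity
  have hvol3 : volume (ball p t) = ENNReal.ofReal (π * t ^ 2) := by
    have := volume_CW
    rw [Complex.volume_ball, ENNReal.ofReal_mul' (by positivity), ENNReal.ofReal_pow htpos.le, mul_comm]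
    congr 1
    exact (ENNReal.ofReal_coe_nnreal (p := NNReal.pi)).symm
  rw [hvol3] at hvol2
  have hnn : 0 ≤ ∑ T ∈ F, d T * (π * t ^ 2) :=
    Finset.sum_nonneg (fun T hT => by have := (hd T hT).2; positivity)
  have := (ENNReal.ofReal_eq_ofReal_iff (by positivity) hnn).1 hvol2
  rw [← Finset.sum_mul] at this
  have hp : 0 < π * t ^ 2 := by positivity
  have h5 : (∑ T ∈ F, d T) * (π * t ^ 2) = 1 * (π * t ^ 2) := by rw [one_mul]; exact this.symm
  exact mul_right_cancel₀ hp.ne' h5

end Pool.Agent.Helper925_SC
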