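import Mathlib

/-! Areas of circular sectors. -/

open Set Metric Topology MeasureTheory
open scoped ENNReal Real

namespace Pool.Agent.Helper925_SC

/-- The fraction of a disk about `0` lying in `{x > 0, y < a x}`. -/
noncomputable def q (a : ℝ) : ℝ := (Real.arctan a + π / 2) / (2 * π)

theorem q_nonneg (a : ℝ) : 0 ≤ q a := by
  have := Real.neg_pi_div_two_lt_arctan a
  have := Real.pi_pos
  unfold q
  apply div_nonneg <;> linarith

theorem q_zero : q 0 = 1/4 := by
  have := Real.pi_pos
  unfold q
  rw [Real.arctan_zero]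
  field_simp
  norm_num

theorem q_neg (a : ℝ) : q (-a) = 1/2 - q a := by
  have := Real.pi_pos
  unfold q
  rw [Real.arctan_neg]
  field_simp
  ring

/-- The wedge `{x > 0, y < a x}`. -/
def Wedge (a : ℝ) : Set ℂ := {z | 0 < z.re ∧ z.im < a * z.re}

theorem isOpen_Wedge (a : ℝ) : IsOpen (Wedge a) :=
  (isOpen_lt continuous_const Complex.continuous_re).inter
    (isOpen_lt Complex.continuous_im (continuous_const.mul Complex.continuous_re))

theorem lintegral_Ioo_id {t : ℝ} (ht : 0 < t) :
    ∫⁻ x in Ioo (0:ℝ) t, ENNReal.ofReal x = ENNReal.ofReal (t ^ 2 / 2) := by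
  rw [← ofReal_integral_eq_lintegral_ofReal]
  · congr 1
    rw [← integral_Ioc_eq_integral_Ioo, ← intervalIntegral.integral_of_le ht.le, integral_id]
    ring
  · exact (continuous_id.integrableOn_Icc (a := 0) (b := t)).mono_set Ioo_subset_Icc_self
  · filter_upwards [ae_restrict_mem measurableSet_Ioo] with x hx
    exact hx.1.le

theorem volume_Wedge (a : ℝ) {t : ℝ} (ht : 0 < t) :
    volume (Wedge a ∩ ball 0 t) = ENNReal.ofReal (q a * (π * t ^ 2)) := by
  have hpi := Real.pi_pos
  have hW : MeasurableSet (Wedge a ∩ ball (0:ℂ) t) :=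
    ((isOpen_Wedge a).inter isOpen_ball).measurableSet
  rw [← lintegral_indicator_one hW, ← Complex.lintegral_comp_polarCoord_symm]
  have key : ∀ p ∈ polarCoord.target,
      ENNReal.ofReal p.1 • (Wedge a ∩ ball (0:ℂ) t).indicator 1 (Complex.polarCoord.symm p)
        = ((Ioo (0:ℝ) t).indicator (fun x => ENNReal.ofReal x) p.1) *
          ((Ioo (-(π/2)) (Real.arctan a)).indicator 1 p.2) := by
    rintro ⟨r, θ⟩ hp
    rw [polarCoord_target] at hp
    obtain ⟨hr, hθ⟩ := hp
    simp only [mem_Ioi, mem_Ioo] at hr hθ
    have hmem : Complex.polarCoord.symm (r, θ) ∈ (Wedge a ∩ ball (0:ℂ) t) ↔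
        (r ∈ Ioo (0:ℝ) t ∧ θ ∈ Ioo (-(π/2)) (Real.arctan a)) := by
      rw [mem_inter_iff, mem_ball_zero_iff, Complex.norm_polarCoord_symm, abs_of_pos hr]
      have hre : (Complex.polarCoord.symm (r, θ)).re = r * Real.cos θ := by
        rw [Complex.polarCoord_symm_apply]
        simp [Complex.cos_ofReal_re, Complex.sin_ofReal_im]
      have him : (Complex.polarCoord.symm (r, θ)).im = r * Real.sin θ := by
        rw [Complex.polarCoord_symm_apply]
        simp [Complex.cos_ofReal_im, Complex.sin_ofReal_re]
      simp only [Wedge, mem_ofPred_eq, hre, him, mem_Ioo]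
      constructor
      · rintro ⟨⟨h1, h2⟩, h3⟩
        have hc : 0 < Real.cos θ := by
          by_contra hcon
          push Not at hcon
          nlinarith
        have hθ1 : -(π/2) < θ := by
          by_contra hcon
          push Not at hcon
          have : Real.cos θ ≤ 0 := by
            rw [← Real.cos_neg]
            exact Real.cos_nonpos_of_pi_div_two_le_of_le (by linarith) (by linarith)
          linarith
        have hθ2 : θ < π/2 := by
          by_contra hcon
          push Not at hcon
          have : Real.cos θ ≤ 0 :=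
            Real.cos_nonpos_of_pi_div_two_le_of_le (by linarith) (by linarith)
          linarith
        refine ⟨⟨hr, h3⟩, hθ1, ?_⟩
        have h4 : Real.sin θ < a * Real.cos θ := by nlinarith
        have h5 : Real.tan θ < a := by
          rw [Real.tan_eq_sin_div_cos, div_lt_iff₀ hc]
          exact h4
        rw [← Real.arctan_tan hθ1 hθ2]
        exact Real.arctan_strictMono h5
      · rintro ⟨⟨_, h3⟩, hθ1, h6⟩
        have hθ2 : θ < π/2 := h6.trans (Real.arctan_lt_pi_div_two a)
        have hc : 0 < Real.cos θ := Real.cos_pos_of_mem_Ioo ⟨hθ1, hθ2⟩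
        refine ⟨⟨by positivity, ?_⟩, h3⟩
        have h5 : Real.tan θ < a := by
          rw [← Real.arctan_tan hθ1 hθ2] at h6
          exact Real.arctan_strictMono.lt_iff_lt.1 h6
        rw [Real.tan_eq_sin_div_cos, div_lt_iff₀ hc] at h5
        nlinarith
    by_cases h : Complex.polarCoord.symm (r, θ) ∈ (Wedge a ∩ ball (0:ℂ) t)
    · rw [indicator_of_mem h]
      obtain ⟨h1, h2⟩ := hmem.1 h
      simp only
      rw [indicator_of_mem h1, indicator_of_mem h2]
      simp
    · rw [indicator_of_notMem h]
      simp only [smul_eq_mul, mul_zero]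
      symm
      rw [mul_eq_zero]
      by_cases h1 : r ∈ Ioo (0:ℝ) t
      · right
        rw [indicator_of_notMem]
        intro h2
        exact h (hmem.2 ⟨h1, h2⟩)
      · left
        rw [indicator_of_notMem h1]
  have hmt : MeasurableSet polarCoord.target := by
    rw [polarCoord_target]
    exact measurableSet_Ioi.prod measurableSet_Ioo
  rw [setLIntegral_congr_fun hmt key]
  have hset : ∫⁻ p in polarCoord.target,
      ((Ioo (0:ℝ) t).indicator (fun x => ENNReal.ofReal x) p.1) *
          ((Ioo (-(π/2)) (Real.arctan a)).indicator 1 p.2)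
      = ∫⁻ p : ℝ × ℝ, ((Ioo (0:ℝ) t).indicator (fun x => ENNReal.ofReal x) p.1) *
          ((Ioo (-(π/2)) (Real.arctan a)).indicator 1 p.2) := by
    rw [← lintegral_indicator hmt]
    congr 1
    ext p
    by_cases hp : p ∈ polarCoord.target
    · rw [indicator_of_mem hp]
    · rw [indicator_of_notMem hp]
      symm
      rw [mul_eq_zero]
      by_contra hcon
      push Not at hcon
      have h1 := mem_of_indicator_ne_zero hcon.1
      have h2 := mem_of_indicator_ne_zero hcon.2
      apply hp
      rw [polarCoord_target]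
      exact ⟨h1.1, by linarith [h2.1], by linarith [h2.2, Real.arctan_lt_pi_div_two a]⟩
  rw [hset, Measure.volume_eq_prod, lintegral_prod_mul]
  · rw [lintegral_indicator measurableSet_Ioo, lintegral_Ioo_id ht,
      lintegral_indicator_one measurableSet_Ioo, Real.volume_Ioo, ← ENNReal.ofReal_mul (by positivity)]
    congr 1
    unfold q
    field_simp
    ring
  · exact (ENNReal.measurable_ofReal.indicator measurableSet_Ioo).aemeasurable
  · exact (measurable_one.indicator measurableSet_Ioo).aemeasurable

end Pool.Agent.Helper925_SC
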